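import Pool.Agent.helper12.DD.Spec2

/-!
# TFC: `Fixes` for products is componentwise
-/

set_option autoImplicit false

open Pool.Agent.helper49.Blk

namespace Pool.Agent.DD

section TFCaux

variable {G E T : Type} [Group G] [Group E]

theorem TFC_mem {R : Subgroup (T → G)} (hR : R = Subgroup.pi Set.univ (fun t => cmp t R))
    (x : T → G) : x ∈ R ↔ ∀ t, x t ∈ cmp t R := by
  constructor
  · intro hx t
    exact ⟨x, hx, rfl⟩
  · intro h
    rw [hR]
    intro t _
    exact h t

open Classical in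
theorem TFC_single {R : Subgroup (T → G)} (hR : R = Subgroup.pi Set.univ (fun t => cmp t R))
    (t : T) (x : G) : Pi.mulSingle t x ∈ R ↔ x ∈ cmp t R := by
  rw [TFC_mem hR]
  constructor
  · intro h
    have := h t
    rwa [Pi.mulSingle_eq_same] at this
  · intro h s
    rcases eq_or_ne s t with rfl | hs
    · rwa [Pi.mulSingle_eq_same]
    · rw [Pi.mulSingle_eq_of_ne hs]
      exact one_mem _

open Classical in
theorem TFC_rel (ι : G →* E) (t : T) (x y : G) (e : T → E) (h : ι y = e t * ι x * (e t)⁻¹) :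
    (ι.compLeft T) (Pi.mulSingle t y) = e * (ι.compLeft T) (Pi.mulSingle t x) * e⁻¹ := by
  funext s
  simp only [MonoidHom.compLeft_apply, Function.comp_apply, Pi.mul_apply, Pi.inv_apply]
  rcases eq_or_ne s t with rfl | hs
  · rw [Pi.mulSingle_eq_same, Pi.mulSingle_eq_same]
    exact h
  · rw [Pi.mulSingle_eq_of_ne hs, Pi.mulSingle_eq_of_ne hs]
    simp

open Classical in
theorem TFC_in (N : T → Subgroup G) (t : T) (x : N t) :
    (Pi.mulSingle t (x : G) : T → G) ∈ Subgroup.pi Set.univ N := by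
  intro s _
  rcases eq_or_ne s t with rfl | hs
  · rw [Pi.mulSingle_eq_same]
    exact x.2
  · rw [Pi.mulSingle_eq_of_ne hs]
    exact (N s).one_mem

open Classical in
theorem TFC_tps [Fintype T] (N : T → Subgroup G) (ψ : ∀ t, N t → ℂ) (t : T) (x : N t) :
    tps N ψ ⟨Pi.mulSingle t (x : G), TFC_in N t x⟩ = ψ t x * ∏ s ∈ Finset.univ.erase t, ψ s 1 := by
  unfold tps
  rw [← Finset.mul_prod_erase Finset.univ _ (Finset.mem_univ t)]
  have h1 : (⟨(Pi.mulSingle t (x : G) : T → G) t, TFC_in N t x t (Set.mem_univ t)⟩ : N t) = x :=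
    Subtype.ext (by simp)
  have h2 : ∀ s ∈ Finset.univ.erase t,
      ψ s ⟨(Pi.mulSingle t (x : G) : T → G) s, TFC_in N t x s (Set.mem_univ s)⟩ = ψ s 1 := by
    intro s hs
    have h3 : (⟨(Pi.mulSingle t (x : G) : T → G) s, TFC_in N t x s (Set.mem_univ s)⟩ : N s) = 1 :=
      Subtype.ext (by simp [Pi.mulSingle_eq_of_ne (Finset.ne_of_mem_erase hs)])
    rw [h3]
  rw [Finset.prod_congr rfl h2, h1]

end TFCaux

/-- **TFC.** -/
theorem TFC : TFC_stmt := by
  classical
  intro G E T _ _ _ ι S hS N ψ hψ e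
  constructor
  · rintro ⟨hF, hG⟩ t
    refine ⟨?_, ?_⟩
    · rintro _ ⟨R, hR, rfl⟩ x y hxy
      have h := hF R hR (Pi.mulSingle t x) (Pi.mulSingle t y) (TFC_rel ι t x y e hxy)
      rwa [TFC_single (hS R hR), TFC_single (hS R hR)] at h
    · intro x y hxy
      have h := hG ⟨_, TFC_in N t x⟩ ⟨_, TFC_in N t y⟩ (TFC_rel ι t x y e hxy)
      rw [TFC_tps, TFC_tps] at h
      refine mul_right_cancel₀ ?_ h
      exact Finset.prod_ne_zero_iff.mpr fun s _ => hψ s
  · intro h
    refine ⟨?_, ?_⟩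
    · intro R hR x y hxy
      rw [TFC_mem (hS R hR), TFC_mem (hS R hR)]
      refine forall_congr' fun t => ?_
      exact (h t).1 _ ⟨R, hR, rfl⟩ (x t) (y t) (congrFun hxy t)
    · intro x y hxy
      unfold tps
      refine Finset.prod_congr rfl fun t _ => ?_
      exact (h t).2 _ _ (congrFun hxy t)

end Pool.Agent.DD
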