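import Pool.Agent.helper18.DW.SpecB

/-! Project DW (MP_a87378_lc), row BCE: bigness is c.e. -/

set_option autoImplicit false

namespace Pool.Agent.DW

open Encodable Pool.Agent.helper63.Diag Pool.Agent.helper63.Dg4 Pool.Agent.helper63.RV

/-- the number of the `v < N` with `ξ ++ [v] ∈ L` -/
def BCE_cnt (L : List (List ℕ)) (ξ : List ℕ) (N : ℕ) : ℕ :=
  ((Finset.range N).filter (fun v => ξ ++ [v] ∈ L)).card

theorem BCE_cnt_eq (L : List (List ℕ)) (ξ : List ℕ) (N : ℕ) : BCE_cnt L ξ N =
    ((List.range N).filterMap (fun v => if ξ ++ [v] ∈ L then some v else none)).length := by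
  unfold BCE_cnt
  induction N with
  | zero => rfl
  | succ N ih =>
    rw [Finset.range_add_one, Finset.filter_insert, List.range_succ, List.filterMap_append,
      List.length_append, ← ih]
    by_cases h : ξ ++ [N] ∈ L
    · rw [if_pos h, Finset.card_insert_of_notMem (by simp)]
      simp [h]
    · rw [if_neg h]
      simp [h]

/-- `L` is a certificate -/
def BCE_cert (H : ℕ → ℕ) (b : ℕ) (C : List ℕ → Prop) (L : List (List ℕ)) : Prop :=
  ∀ ξ ∈ L, C ξ ∨ b ≤ BCE_cnt L ξ (H ξ.length)

theorem BCE_cnt_mono {L L' : List (List ℕ)} (h : ∀ ξ ∈ L, ξ ∈ L') (ξ : List ℕ) (N : ℕ) :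
    BCE_cnt L ξ N ≤ BCE_cnt L' ξ N := by
  unfold BCE_cnt
  refine Finset.card_le_card ?_
  intro v hv
  rw [Finset.mem_filter] at hv ⊢
  exact ⟨hv.1, h _ hv.2⟩

theorem BCE_iff (H : ℕ → ℕ) (b : ℕ) (C : List ℕ → Prop) (τ : List ℕ) :
    Big H b C τ ↔ ∃ L : List (List ℕ), τ ∈ L ∧ BCE_cert H b C L := by
  constructor
  · intro h
    induction h with
    | leaf τ h =>
      refine ⟨[τ], List.mem_cons_self, fun ξ hξ => ?_⟩
      rw [List.mem_singleton] at hξ
      rw [hξ]; exact Or.inl h
    | node τ S hbS hS _ ih =>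
      choose! L hL using ih
      refine ⟨τ :: S.toList.flatMap L, List.mem_cons_self, fun ξ hξ => ?_⟩
      rcases List.mem_cons.1 hξ with rfl | hξ
      · right
        refine hbS.trans ?_
        unfold BCE_cnt
        refine Finset.card_le_card ?_
        intro v hv
        rw [Finset.mem_filter]
        refine ⟨Finset.mem_range.2 (hS v hv), List.mem_cons_of_mem _ ?_⟩
        exact List.mem_flatMap.2 ⟨v, Finset.mem_toList.2 hv, (hL v hv).1⟩
      · obtain ⟨v, hv, hξ⟩ := List.mem_flatMap.1 hξ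
        rcases (hL v (Finset.mem_toList.1 hv)).2 ξ hξ with h | h
        · exact Or.inl h
        · right
          refine h.trans (BCE_cnt_mono ?_ ξ _)
          intro ζ hζ
          exact List.mem_cons_of_mem _ (List.mem_flatMap.2 ⟨v, hv, hζ⟩)
  · rintro ⟨L, hτ, hL⟩
    have hN : ∃ N, ∀ ξ ∈ L, ξ.length ≤ N := by
      refine ⟨(L.map List.length).sum, fun ξ hξ => ?_⟩
      exact List.single_le_sum (by simp) _ (List.mem_map.2 ⟨ξ, hξ, rfl⟩)
    obtain ⟨N, hN⟩ := hN
    have key : ∀ k, ∀ ξ ∈ L, N < ξ.length + k → Big H b C ξ := by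
      intro k
      induction k with
      | zero =>
        intro ξ hξ hk
        have := hN ξ hξ
        omega
      | succ k ih =>
        intro ξ hξ hk
        rcases hL ξ hξ with h | h
        · exact Big.leaf ξ h
        · refine Big.node ξ _ h (fun v hv => ?_) (fun v hv => ?_)
          · exact Finset.mem_range.1 (Finset.mem_filter.1 hv).1
          · refine ih _ (Finset.mem_filter.1 hv).2 ?_
            rw [List.length_append, List.length_singleton]
            omega
    exact key (N + 1) τ hτ (by omega)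

theorem BCE_prim_mem {α : Type} [Primcodable α] {f : α → List ℕ} {g : α → List (List ℕ)}
    (hf : Primrec f) (hg : Primrec g) : PrimrecPred (fun a => f a ∈ g a) := by
  have h1 : PrimrecPred (fun a => ∃ y ∈ g a, f a = y) :=
    PRex (R := fun (a : α) (y : List ℕ) => f a = y)
      (Primrec.eq.comp (hf.comp Primrec.fst) Primrec.snd) hg
  exact h1.of_eq (fun a => by simp)

theorem BCE : BCE_stmt := by
  intro H b D hH hD
  have hcnt : Primrec (fun w : (List ℕ × ℕ × List ℕ) × List (List ℕ) × List ℕ =>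
      BCE_cnt w.2.1 w.2.2 (H w.2.2.length)) := by
    have hξ : Primrec (fun w : (List ℕ × ℕ × List ℕ) × List (List ℕ) × List ℕ => w.2.2) :=
      Primrec.snd.comp Primrec.snd
    have hL : Primrec (fun w : (List ℕ × ℕ × List ℕ) × List (List ℕ) × List ℕ => w.2.1) :=
      Primrec.fst.comp Primrec.snd
    have h1 : Primrec (fun w : (List ℕ × ℕ × List ℕ) × List (List ℕ) × List ℕ =>
        ((List.range (H w.2.2.length)).filterMap
          (fun v => if w.2.2 ++ [v] ∈ w.2.1 then some v else none)).length) := by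
      refine Primrec.list_length.comp (Primrec.listFilterMap
        (Primrec.list_range.comp (hH.comp (Primrec.list_length.comp hξ))) ?_)
      refine Primrec.ite ?_ (Primrec.option_some.comp Primrec.snd) (Primrec.const none)
      exact BCE_prim_mem (f := fun u : ((List ℕ × ℕ × List ℕ) × List (List ℕ) × List ℕ) × ℕ =>
          u.1.2.2 ++ [u.2]) (g := fun u => u.1.2.1)
        (Primrec.list_append.comp (hξ.comp Primrec.fst)
          (Primrec.list_cons.comp Primrec.snd (Primrec.const []))) (hL.comp Primrec.fst)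
    exact h1.of_eq (fun w => (BCE_cnt_eq _ _ _).symm)
  have h1 : CE (fun a : List ℕ × ℕ × List ℕ => ∃ L : List (List ℕ), a.1 ∈ L ∧
      ∀ ξ ∈ L, (∃ z ∈ a.2.2, D ξ (a.2.1, z)) ∨ b ≤ BCE_cnt L ξ (H ξ.length)) := by
    refine S1.ex (A := fun (a : List ℕ × ℕ × List ℕ) (L : List (List ℕ)) => a.1 ∈ L ∧
      ∀ ξ ∈ L, (∃ z ∈ a.2.2, D ξ (a.2.1, z)) ∨ b ≤ BCE_cnt L ξ (H ξ.length)) (S1.prim ?_)
    refine PrimrecPred.and ?_ ?_
    · exact BCE_prim_mem (f := fun p : (List ℕ × ℕ × List ℕ) × List (List ℕ) => p.1.1)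
        (g := fun p => p.2) (Primrec.fst.comp Primrec.fst) Primrec.snd
    · refine PRall (R := fun (p : (List ℕ × ℕ × List ℕ) × List (List ℕ)) (ξ : List ℕ) =>
        (∃ z ∈ p.1.2.2, D ξ (p.1.2.1, z)) ∨ b ≤ BCE_cnt p.2 ξ (H ξ.length)) ?_ Primrec.snd
      refine PrimrecPred.or ?_ ?_
      · refine PRex (R := fun (w : ((List ℕ × ℕ × List ℕ) × List (List ℕ)) × List ℕ) (z : ℕ) =>
          D w.2 (w.1.1.2.1, z)) ?_ (Primrec.snd.comp (Primrec.snd.comp (Primrec.fst.comp Primrec.fst)))
        exact hD.comp (Primrec.snd.comp Primrec.fst) (Primrec.pair (Primrec.fst.comp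
          (Primrec.snd.comp (Primrec.fst.comp (Primrec.fst.comp Primrec.fst)))) Primrec.snd)
      · refine Primrec.nat_le.comp (Primrec.const b) ?_
        exact Primrec.comp (g := fun w : ((List ℕ × ℕ × List ℕ) × List (List ℕ)) × List ℕ =>
            (w.1.1, w.1.2, w.2)) hcnt
          (Primrec.pair (Primrec.fst.comp Primrec.fst)
            (Primrec.pair (Primrec.snd.comp Primrec.fst) Primrec.snd))
  refine h1.of_iff (fun a => ?_)
  exact (BCE_iff H b _ a.1).symm

end Pool.Agent.DW
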