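import Pool.Agent.helper18.DW.SpecB

/-! Project DW (MP_a87378_lc), rows BU, BM, BUN, BX, BF, BN, BD, BCE: bigness. -/

set_option autoImplicit false

namespace Pool.Agent.DW

open Encodable Pool.Agent.helper63.Diag Pool.Agent.helper63.Dg4 Pool.Agent.helper63.RV

theorem BM : BM_stmt := by
  intro H H' b b' C C' τ hH hb hC h
  induction h with
  | leaf τ h => exact Big.leaf τ (hC τ h)
  | node τ S hbS hS _ ih =>
    refine Big.node τ S (hb.trans hbS) (fun v hv => lt_of_lt_of_le (hS v hv) (hH _ le_rfl))
      (fun v hv => ih v hv (fun i hi => hH i ?_))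
    rw [List.length_append] at hi
    omega

theorem BU : BU_stmt := by
  classical
  intro H p q C C' τ h
  induction h with
  | leaf τ h =>
    rcases h with h | h
    · exact Or.inl (Big.leaf τ h)
    · exact Or.inr (Big.leaf τ h)
  | node τ S hbS hS _ ih =>
    by_cases hc : p ≤ (S.filter (fun v => Big H p C (τ ++ [v]))).card
    · left
      refine Big.node τ (S.filter (fun v => Big H p C (τ ++ [v]))) hc (fun v hv => ?_) (fun v hv => ?_)
      · exact hS v (Finset.mem_filter.1 hv).1
      · exact (Finset.mem_filter.1 hv).2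
    · right
      have h1 := Finset.card_filter_add_card_filter_not (s := S) (fun v => Big H p C (τ ++ [v]))
      refine Big.node τ (S.filter (fun v => ¬ Big H p C (τ ++ [v]))) (by omega) (fun v hv => ?_)
        (fun v hv => ?_)
      · exact hS v (Finset.mem_filter.1 hv).1
      · obtain ⟨h2, h3⟩ := Finset.mem_filter.1 hv
        exact (ih v h2).resolve_left h3

theorem BUN : BUN_stmt := by
  intro H b m
  induction m with
  | zero =>
    intro B C τ h1 _ h2
    apply h1
    refine BM H H _ b _ _ τ (fun _ _ => le_rfl) (by omega) ?_ h2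
    rintro ξ (h | ⟨i, hi, -⟩)
    · exact h
    · omega
  | succ m ih =>
    intro B C τ h1 h2 h3
    have h4 : Big H ((m + 1) * b + b) (fun ξ => (B ξ ∨ ∃ i < m, C i ξ) ∨ C m ξ) τ := by
      refine BM H H _ _ _ _ τ (fun _ _ => le_rfl) (by ring_nf; exact le_rfl) ?_ h3
      rintro ξ (h | ⟨i, hi, h⟩)
      · exact Or.inl (Or.inl h)
      · rcases Nat.lt_succ_iff_lt_or_eq.1 hi with h' | h'
        · exact Or.inl (Or.inr ⟨i, h', h⟩)
        · exact Or.inr (h' ▸ h)
    rcases BU H _ _ _ _ τ h4 with h5 | h5
    · exact ih B C τ h1 (fun i hi => h2 i (by omega)) h5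
    · exact h2 m (by omega) h5

theorem BX_step {H : ℕ → ℕ} {τ ξ : List ℕ} {v : ℕ} (hv : v < H τ.length)
    (h : Abv H (τ ++ [v]) ξ) : Abv H τ ξ := by
  obtain ⟨ρ, rfl, hρ⟩ := h
  refine ⟨v :: ρ, by simp, fun i hi => ?_⟩
  cases i with
  | zero => simpa using hv
  | succ i =>
    simp only [List.length_cons] at hi
    have h1 := hρ i (by omega)
    rw [List.length_append, List.length_singleton] at h1
    rw [List.getD_cons_succ]
    have h2 : τ.length + 1 + i = τ.length + (i + 1) := by omega
    rw [h2] at h1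
    exact h1

theorem BX : BX_stmt := by
  intro H b B C τ h
  induction h with
  | leaf τ h => exact fun hB => ⟨τ, h, ⟨[], by simp, by simp⟩, hB⟩
  | node τ S hbS hS _ ih =>
    intro hB
    by_contra hcon
    push Not at hcon
    apply hB
    refine Big.node τ S hbS hS (fun v hv => ?_)
    by_contra hv2
    obtain ⟨ξ, h1, h2, h3⟩ := ih v hv hv2
    exact h3 (hcon ξ h1 (BX_step (hS v hv) h2))

theorem BF : BF_stmt := by
  classical
  intro H b C τ h
  induction h with
  | leaf τ h =>
    refine ⟨[τ], fun ξ hξ => ?_, Big.leaf τ List.mem_cons_self⟩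
    rw [List.mem_singleton] at hξ
    rw [hξ]; exact h
  | node τ S hbS hS _ ih =>
    choose! L hL using ih
    refine ⟨S.toList.flatMap L, fun ξ hξ => ?_, Big.node τ S hbS hS (fun v hv => ?_)⟩
    · obtain ⟨v, hv, hξ⟩ := List.mem_flatMap.1 hξ
      exact (hL v (Finset.mem_toList.1 hv)).1 ξ hξ
    · refine BM H H b b _ _ _ (fun _ _ => le_rfl) le_rfl ?_ (hL v hv).2
      intro ξ hξ
      exact List.mem_flatMap.2 ⟨v, Finset.mem_toList.2 hv, hξ⟩

theorem BN : BN_stmt := by
  intro H b B τ hH hb hB n
  induction n with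
  | zero => exact ⟨[], rfl, by simp, by simpa using hB⟩
  | succ n ih =>
    obtain ⟨ρ, h1, h2, h3⟩ := ih
    have h4 : ∃ v < b, ¬ Big H b B (τ ++ ρ ++ [v]) := by
      by_contra hcon
      push Not at hcon
      apply h3
      refine Big.node _ (Finset.range b) (by rw [Finset.card_range]) (fun v hv => ?_)
        (fun v hv => hcon v (Finset.mem_range.1 hv))
      refine lt_of_lt_of_le (Finset.mem_range.1 hv) (hb.trans (hH ?_))
      rw [List.length_append]
      omega
    obtain ⟨v, hv, h5⟩ := h4
    refine ⟨ρ ++ [v], by simp [h1], fun w hw => ?_, by rw [← List.append_assoc]; exact h5⟩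
    rcases List.mem_append.1 hw with h | h
    · exact h2 w h
    · rw [List.mem_singleton] at h
      rw [h]; exact hv

theorem BD_aux (H : ℕ → ℕ) (τ : List ℕ) (h : Big H 2 DV τ) : DV τ := by
  induction h with
  | leaf τ h => exact h
  | node τ S hbS hS _ ih =>
    by_contra hcon
    have key : ∀ v ∈ S, Hlt τ.length v := by
      intro v hv
      obtain ⟨n, hn, h1⟩ := ih v hv
      rw [List.length_append, List.length_singleton] at hn
      rcases Nat.lt_succ_iff_lt_or_eq.1 hn with h2 | h2
      · exfalso
        apply hcon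
        refine ⟨n, h2, ?_⟩
        rw [List.getD_eq_getElem?_getD, List.getElem?_append_left h2,
          ← List.getD_eq_getElem?_getD] at h1
        exact h1
      · rw [h2, List.getD_eq_getElem?_getD, List.getElem?_append_right le_rfl] at h1
        simpa using h1
    obtain ⟨v, hv, w, hw, hvw⟩ := Finset.one_lt_card.1 (lt_of_lt_of_le one_lt_two hbS)
    exact hvw (Part.mem_unique (key v hv) (key w hw))

theorem BD : BD_stmt := by
  intro H h
  obtain ⟨n, hn, -⟩ := BD_aux H [] h
  simp at hn

end Pool.Agent.DW
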