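import Pool.Agent.helper18.DW.SpecC

/-! Project DW (MP_a87378_lc), rows CKI, CEE, CPR, CTU. -/

set_option autoImplicit false

namespace Pool.Agent.DW

open Encodable Pool.Agent.helper63.Diag Pool.Agent.helper63.Dg4 Pool.Agent.helper63.RV

/-- the string `τ` is compatible with the finite piece `ρ` of a colouring -/
def CKI_L (σ : List ℕ) (k : ℕ) (al : List (ℕ × ℕ)) (H : ℕ → ℕ) (ρ τ : List ℕ) : Prop :=
  τ.take σ.length = σ ∧ ∀ i < τ.length, ¬ σ.length ≤ i ∨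
    (τ.getD i 0 < H i ∧ (¬ i.unpair.1 < k ∨
      ((i < ρ.length ∧ Nat.pair i.unpair.1 (τ.getD i 0) < ρ.length) ∧
        ∃ w ∈ al, ρ.getD (Nat.pair i.unpair.1 (τ.getD i 0)) 0 = w.1 ∧ ρ.getD i 0 = w.2)))

theorem CKI_prim (σ : List ℕ) (k : ℕ) (al : List (ℕ × ℕ)) {H : ℕ → ℕ} (hH : Primrec H)
    {α : Type} [Primcodable α] {r t : α → List ℕ} (hr : Primrec r) (ht : Primrec t) :
    PrimrecPred (fun a => CKI_L σ k al H (r a) (t a)) := by
  unfold CKI_L
  refine PrimrecPred.and ?_ ?_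
  · exact Primrec.eq.comp (Primrec.list_take.comp (Primrec.const _) ht) (Primrec.const σ)
  · refine PRalllt (R := fun (a : α) (i : ℕ) => ¬ σ.length ≤ i ∨
      ((t a).getD i 0 < H i ∧ (¬ i.unpair.1 < k ∨
      ((i < (r a).length ∧ Nat.pair i.unpair.1 ((t a).getD i 0) < (r a).length) ∧
        ∃ w ∈ al, (r a).getD (Nat.pair i.unpair.1 ((t a).getD i 0)) 0 = w.1 ∧
          (r a).getD i 0 = w.2)))) ?_ (Primrec.list_length.comp ht)
    have hi : Primrec (fun q : α × ℕ => q.2) := Primrec.snd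
    have hk : Primrec (fun q : α × ℕ => q.2.unpair.1) :=
      Primrec.fst.comp (Primrec.unpair.comp Primrec.snd)
    have hv : Primrec (fun q : α × ℕ => (t q.1).getD q.2 0) :=
      (Primrec.list_getD 0).comp (ht.comp Primrec.fst) Primrec.snd
    have hl : Primrec (fun q : α × ℕ => (r q.1).length) :=
      Primrec.list_length.comp (hr.comp Primrec.fst)
    have hp : Primrec (fun q : α × ℕ => Nat.pair q.2.unpair.1 ((t q.1).getD q.2 0)) :=
      Primrec₂.natPair.comp hk hv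
    refine PrimrecPred.or (PrimrecPred.not ?_) (PrimrecPred.and ?_ (PrimrecPred.or
      (PrimrecPred.not ?_) (PrimrecPred.and (PrimrecPred.and ?_ ?_) ?_)))
    · exact Primrec.nat_le.comp (Primrec.const _) hi
    · exact Primrec.nat_lt.comp hv (Primrec.comp (g := fun q : α × ℕ => q.2) hH hi)
    · exact Primrec.nat_lt.comp hk (Primrec.const _)
    · exact Primrec.nat_lt.comp hi hl
    · exact Primrec.nat_lt.comp hp hl
    · refine PRex (R := fun (q : α × ℕ) (w : ℕ × ℕ) =>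
        (r q.1).getD (Nat.pair q.2.unpair.1 ((t q.1).getD q.2 0)) 0 = w.1 ∧
          (r q.1).getD q.2 0 = w.2) (PrimrecPred.and ?_ ?_) (Primrec.const al)
      · exact Primrec.eq.comp ((Primrec.list_getD 0).comp (hr.comp (Primrec.fst.comp Primrec.fst))
          (hp.comp Primrec.fst)) (Primrec.fst.comp Primrec.snd)
      · exact Primrec.eq.comp ((Primrec.list_getD 0).comp (hr.comp (Primrec.fst.comp Primrec.fst))
          (Primrec.snd.comp Primrec.fst)) (Primrec.snd.comp Primrec.snd)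

theorem CKI_bound (f : ℕ → ℕ) (n : ℕ) : ∃ B, ∀ i < n, f i < B := by
  induction n with
  | zero => exact ⟨0, by simp⟩
  | succ n ih =>
    obtain ⟨B, hB⟩ := ih
    refine ⟨max B (f n + 1), fun i hi => ?_⟩
    rcases Nat.lt_succ_iff_lt_or_eq.1 hi with h | h
    · exact lt_of_lt_of_le (hB i h) (le_max_left _ _)
    · subst h
      exact lt_of_lt_of_le (Nat.lt_succ_self _) (le_max_right _ _)

theorem CKI_iff (p : CD) (v : ℕ → ℕ) (τ : List ℕ) :
    Cv1 p v τ ↔ ∃ m, CKI_L p.σ p.k p.al p.H (res v m) τ := by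
  constructor
  · rintro ⟨h1, h2⟩
    obtain ⟨B, hB⟩ := CKI_bound (fun i => Nat.pair i.unpair.1 (τ.getD i 0)) τ.length
    refine ⟨max τ.length B, h1, fun i hi => ?_⟩
    by_cases hs : p.σ.length ≤ i
    · right
      obtain ⟨h3, h4⟩ := h2 i hs hi
      refine ⟨h3, ?_⟩
      by_cases hk : i.unpair.1 < p.k
      · right
        have hi' : i < max τ.length B := lt_of_lt_of_le hi (le_max_left _ _)
        have hp' : Nat.pair i.unpair.1 (τ.getD i 0) < max τ.length B :=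
          lt_of_lt_of_le (hB i hi) (le_max_right _ _)
        refine ⟨⟨by rw [res_length]; exact hi', by rw [res_length]; exact hp'⟩, _, h4 hk, ?_, ?_⟩
        · rw [res_getD v hp']
        · rw [res_getD v hi']
      · exact Or.inl hk
    · exact Or.inl hs
  · rintro ⟨m, h1, h2⟩
    refine ⟨h1, fun i hs hi => ?_⟩
    rcases h2 i hi with h | ⟨h3, h4⟩
    · exact absurd hs h
    · refine ⟨h3, fun hk => ?_⟩
      rcases h4 with h | ⟨⟨h5, h6⟩, w, hw, h7, h8⟩
      · exact absurd hk h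
      · rw [res_length] at h5 h6
        rw [res_getD v h6] at h7
        rw [res_getD v h5] at h8
        rw [h7, h8]
        exact hw

theorem CKI : CKI_stmt := by
  intro p D hD
  refine ⟨fun a ρ => ∃ τ : List ℕ, CKI_L p.σ p.k p.al p.H ρ τ ∧ D τ a, ?_, fun a v => ?_⟩
  · refine S1.ex (A := fun (t : (ℕ × ℕ) × List ℕ) (τ : List ℕ) =>
      CKI_L p.σ p.k p.al p.H t.2 τ ∧ D τ t.1) (S1.prim (PrimrecPred.and ?_ ?_))
    · exact CKI_prim p.σ p.k p.al p.pH (Primrec.snd.comp Primrec.fst) Primrec.snd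
    · exact hD.comp Primrec.snd (Primrec.fst.comp Primrec.fst)
  · constructor
    · intro h τ hτ hd
      obtain ⟨m, hm⟩ := (CKI_iff p v τ).1 hτ
      exact h m ⟨τ, hm, hd⟩
    · rintro h m ⟨τ, hm, hd⟩
      exact h τ ((CKI_iff p v τ).2 ⟨m, hm⟩) hd

theorem CEE (hCKI : CKI_stmt) : CEE_stmt := by
  intro p D hD
  obtain ⟨Kill, hK1, hK2⟩ := hCKI p D hD
  have h1 : CE (fun t : ((ℕ × ℕ) × List (ℕ × ℕ)) × List ℕ =>
      (p.Bad t.2 ∨ Kill t.1.1 t.2) ∨ ∃ b ∈ t.1.2, b.1 < t.2.length ∧ ¬ t.2.getD b.1 0 = b.2) := by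
    refine S1.or (S1.or ?_ ?_) (S1.prim ?_)
    · exact p.re.comp Primrec.snd
    · exact hK1.comp (Primrec.pair (Primrec.fst.comp Primrec.fst) Primrec.snd)
    · refine PRex (R := fun (t : ((ℕ × ℕ) × List (ℕ × ℕ)) × List ℕ) (b : ℕ × ℕ) =>
        b.1 < t.2.length ∧ ¬ t.2.getD b.1 0 = b.2) (PrimrecPred.and ?_ (PrimrecPred.not ?_))
        (Primrec.snd.comp Primrec.fst)
      · exact Primrec.nat_lt.comp (Primrec.fst.comp Primrec.snd)
          (Primrec.list_length.comp (Primrec.snd.comp Primrec.fst))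
      · exact Primrec.eq.comp ((Primrec.list_getD 0).comp (Primrec.snd.comp Primrec.fst)
          (Primrec.fst.comp Primrec.snd)) (Primrec.snd.comp Primrec.snd)
  refine (S1.empty (n := p.n) (Bad := fun (t : (ℕ × ℕ) × List (ℕ × ℕ)) (ρ : List ℕ) =>
    (p.Bad ρ ∨ Kill t.1 ρ) ∨ ∃ b ∈ t.2, b.1 < ρ.length ∧ ¬ ρ.getD b.1 0 = b.2) h1).of_iff
    (fun t => ?_)
  have key : ∀ v, v ∈ cls p.n (fun ρ => (p.Bad ρ ∨ Kill t.1 ρ) ∨
      ∃ b ∈ t.2, b.1 < ρ.length ∧ ¬ ρ.getD b.1 0 = b.2) ↔ KD p D t.1 t.2 v := by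
    intro v
    constructor
    · rintro ⟨h2, h3⟩
      refine ⟨⟨h2, fun k hk => h3 k (Or.inl (Or.inl hk))⟩,
        (hK2 t.1 v).1 (fun m hm => h3 m (Or.inl (Or.inr hm))), fun b hb => ?_⟩
      by_contra hne
      refine h3 (b.1 + 1) (Or.inr ⟨b, hb, by rw [res_length]; omega, ?_⟩)
      rwa [res_getD v (Nat.lt_succ_self _)]
    · rintro ⟨⟨h2, h3⟩, h4, h5⟩
      refine ⟨h2, fun k hk => ?_⟩
      rcases hk with (hk | hk) | ⟨b, hb, hlt, hne⟩
      · exact h3 k hk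
      · exact (hK2 t.1 v).2 h4 k hk
      · rw [res_length] at hlt
        rw [res_getD v hlt] at hne
        exact hne (h5 b hb)
  constructor
  · exact fun h v hv => h v ((key v).2 hv)
  · exact fun h v hv => h v ((key v).1 hv)

theorem CPR (hCEE : CEE_stmt) : CPR_stmt := by
  classical
  intro p D hD a a' β β' ⟨u, hu⟩ ⟨u', hu'⟩ κ hκ c hc d hd
  by_contra hcon
  push Not at hcon
  have hE := hCEE p D hD
  let A : ℕ × ℕ → Prop := fun t =>
    (t.2 = 0 ∧ ∀ v, ¬ KD p D a ((Nat.pair κ t.1, c) :: β) v) ∨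
    (t.2 = 1 ∧ ∀ v, ¬ KD p D a' ((Nat.pair κ t.1, d) :: β') v)
  have hA : REPred A := by
    have hc1 : ∀ (x : ℕ) (γ : List (ℕ × ℕ)) (b : ℕ × ℕ),
        CE (fun t : ℕ × ℕ => ∀ v, ¬ KD p D b ((Nat.pair κ t.1, x) :: γ) v) := by
      intro x γ b
      have hf : Primrec (fun t : ℕ × ℕ => (b, (Nat.pair κ t.1, x) :: γ)) := by
        refine Primrec.pair (Primrec.const b) (Primrec.list_cons.comp ?_ (Primrec.const γ))
        exact Primrec.pair (Primrec₂.natPair.comp (Primrec.const κ) Primrec.fst)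
          (Primrec.const x)
      exact hE.comp hf
    refine re_of_s1 (S1.or (S1.and ?_ (hc1 c β a)) (S1.and ?_ (hc1 d β' a')))
    · exact S1.prim (Primrec.eq.comp Primrec.snd (Primrec.const 0))
    · exact S1.prim (Primrec.eq.comp Primrec.snd (Primrec.const 1))
  obtain ⟨ψ, hψ, h1, h2⟩ := select hA
  have hdom : ∀ x, (ψ x).Dom := by
    intro x
    apply h2
    by_cases h : ∃ v, KD p D a ((Nat.pair κ x, c) :: β) v
    · exact ⟨1, Or.inr ⟨rfl, hcon x h⟩⟩
    · exact ⟨0, Or.inl ⟨rfl, fun v hv => h ⟨v, hv⟩⟩⟩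
  obtain ⟨j, hcm, hj⟩ : ∃ j : ℕ → ℕ, Computable j ∧ ∀ x, A (x, j x) :=
    ⟨fun x => (ψ x).get (hdom x), Partrec.of_eq_tot hψ (fun x => Part.get_mem _),
      fun x => h1 x _ (Part.get_mem (hdom x))⟩
  have hT : Primrec (fun j : ℕ => if j = 0 then p.Z κ c else p.Z κ d) :=
    Primrec.ite (Primrec.eq.comp Primrec.id (Primrec.const 0)) (Primrec.const _)
      (Primrec.const _)
  have key : ∀ (w : ℕ → ℕ) (b : ℕ × ℕ) (γ : List (ℕ × ℕ)) (x z : ℕ), x < p.n → KD p D b γ w →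
      (∀ v, ¬ KD p D b ((Nat.pair κ z, x) :: γ) v) → ¬ (p.ce κ).E (p.Z κ x) z := by
    intro w b γ x z hx hw hemp hEz
    refine hemp w ⟨hw.1, hw.2.1, ?_⟩
    intro b' hb'
    rcases List.mem_cons.1 hb' with h | h
    · rw [h]
      show w (Nat.pair κ z) = x
      rw [← p.inv w hw.1 κ hκ _ _ hEz]
      exact p.rep w hw.1 κ hκ x hx
    · exact hw.2.2 b' h
  apply (p.ce κ).hard
  refine ⟨fun x => if j x = 0 then p.Z κ c else p.Z κ d,
    hT.to_comp.comp hcm, ⟨max (p.Z κ c) (p.Z κ d), fun x => ?_⟩, fun x => ?_⟩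
  · beta_reduce
    split_ifs
    · exact le_max_left _ _
    · exact le_max_right _ _
  · beta_reduce
    rcases hj x with ⟨h3, h4⟩ | ⟨h3, h4⟩
    · have h3' : j x = 0 := h3
      rw [if_pos h3']
      exact key u a β c x hc hu h4
    · have h3' : j x = 1 := h3
      rw [if_neg (by omega)]
      exact key u' a' β' d x hd hu' h4

theorem CTU (hCPR : CPR_stmt) : CTU_stmt := by
  classical
  intro p D hD a a' h h'
  have key : ∀ T : List (ℕ × ℕ × ℕ), (∀ t ∈ T, t.1 < p.k ∧ t.2.1 < p.n ∧ t.2.2 < p.n) →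
      ∃ β β' : List (ℕ × ℕ), (∃ v, KD p D a β v) ∧ (∃ v, KD p D a' β' v) ∧
        ∀ t ∈ T, ∃ z, (Nat.pair t.1 z, t.2.1) ∈ β ∧ (Nat.pair t.1 z, t.2.2) ∈ β' := by
    intro T
    induction T with
    | nil => exact fun _ => ⟨[], [], h, h', fun t ht => absurd ht (by simp)⟩
    | cons t T ih =>
      intro hT
      obtain ⟨β, β', hβ, hβ', hz⟩ := ih (fun t' ht' => hT t' (List.mem_cons_of_mem _ ht'))
      obtain ⟨h1, h2, h3⟩ := hT t List.mem_cons_self
      obtain ⟨z, hz1, hz2⟩ := hCPR p D hD a a' β β' hβ hβ' t.1 h1 t.2.1 h2 t.2.2 h3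
      refine ⟨_, _, hz1, hz2, fun t' ht' => ?_⟩
      rcases List.mem_cons.1 ht' with rfl | ht'
      · exact ⟨z, List.mem_cons_self, List.mem_cons_self⟩
      · obtain ⟨z', h4, h5⟩ := hz t' ht'
        exact ⟨z', List.mem_cons_of_mem _ h4, List.mem_cons_of_mem _ h5⟩
  obtain ⟨β, β', hβ, hβ', hz⟩ := key ((List.range p.k).flatMap fun κ =>
    (List.range p.n).flatMap fun c => (List.range p.n).map fun d => (κ, c, d)) (by
      rintro ⟨κ, c, d⟩ ht
      simp only [List.mem_flatMap, List.mem_map, List.mem_range, Prod.mk.injEq] at ht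
      obtain ⟨κ', h1, c', h2, d', h3, rfl, rfl, rfl⟩ := ht
      exact ⟨h1, h2, h3⟩)
  have hz' : ∀ κ c d, ∃ z, κ < p.k → c < p.n → d < p.n →
      (Nat.pair κ z, c) ∈ β ∧ (Nat.pair κ z, d) ∈ β' := by
    intro κ c d
    by_cases hh : κ < p.k ∧ c < p.n ∧ d < p.n
    · obtain ⟨z, h1, h2⟩ := hz (κ, c, d) (by
        simp only [List.mem_flatMap, List.mem_map, List.mem_range, Prod.mk.injEq]
        exact ⟨κ, hh.1, c, hh.2.1, d, hh.2.2, rfl, rfl, rfl⟩)
      exact ⟨z, fun _ _ _ => ⟨h1, h2⟩⟩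
    · exact ⟨0, fun h1 h2 h3 => absurd ⟨h1, h2, h3⟩ hh⟩
  choose z hz'' using hz'
  exact ⟨z, β, β', hβ, hβ', fun κ hκ c hc d hd => hz'' κ c d hκ hc hd⟩

end Pool.Agent.DW
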