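import Pool.Agent.helper18.DW.CD1

/-! Project DW (MP_a87378_lc), row CNW. -/

set_option autoImplicit false

namespace Pool.Agent.DW

open Encodable Pool.Agent.helper63.Diag Pool.Agent.helper63.Dg4 Pool.Agent.helper63.RV

theorem CNW_res (f : ℕ → ℕ) (w : ℕ → ℕ) (k : ℕ) :
    (res w k).map f = res (fun i => f (w i)) k := by
  unfold res
  rw [List.map_map]
  rfl

/-- the allowed pairs of pairs of colours -/
def CNW_al (n : ℕ) (al : List (ℕ × ℕ)) : List (ℕ × ℕ) :=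
  (List.range (n * n) ×ˢ List.range (n * n)).filter fun w =>
    decide ((w.1 / n, w.2 / n) ∈ al ∧ (w.1 % n, w.2 % n) ∈ al)

theorem CNW_mem {n : ℕ} {al : List (ℕ × ℕ)} {w w' : ℕ} :
    (w, w') ∈ CNW_al n al ↔ (w < n * n ∧ w' < n * n) ∧ (w / n, w' / n) ∈ al ∧
      (w % n, w' % n) ∈ al := by
  unfold CNW_al
  rw [List.mem_filter, List.mem_product]
  simp

/-- the finite piece `ρ` disagrees with a prescribed value -/
def CNW_B (f : ℕ → ℕ) (β : List (ℕ × ℕ)) (ρ : List ℕ) : Prop :=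
  ∃ b ∈ β, b.1 < ρ.length ∧ ¬ (ρ.map f).getD b.1 0 = b.2

theorem CNW_primB {f : ℕ → ℕ} (hf : Primrec f) (β : List (ℕ × ℕ)) :
    PrimrecPred (CNW_B f β) := by
  unfold CNW_B
  refine PRex (R := fun (ρ : List ℕ) (b : ℕ × ℕ) => b.1 < ρ.length ∧ ¬ (ρ.map f).getD b.1 0 = b.2)
    (PrimrecPred.and ?_ (PrimrecPred.not ?_)) (Primrec.const β)
  · exact Primrec.nat_lt.comp (Primrec.fst.comp Primrec.snd)
      (Primrec.list_length.comp Primrec.fst)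
  · refine Primrec.eq.comp ((Primrec.list_getD 0).comp ?_ (Primrec.fst.comp Primrec.snd))
      (Primrec.snd.comp Primrec.snd)
    exact Primrec.list_map Primrec.fst
      (Primrec.comp (g := fun q : (List ℕ × (ℕ × ℕ)) × ℕ => q.2) hf Primrec.snd)

theorem CNW_ni {f : ℕ → ℕ} {β : List (ℕ × ℕ)} {w : ℕ → ℕ} :
    (∀ k, ¬ CNW_B f β (res w k)) ↔ ∀ b ∈ β, f (w b.1) = b.2 := by
  constructor
  · intro h b hb
    by_contra hne
    refine h (b.1 + 1) ⟨b, hb, by rw [res_length]; omega, ?_⟩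
    rw [CNW_res, res_getD _ (Nat.lt_succ_self _)]
    exact hne
  · rintro h k ⟨b, hb, hlt, hne⟩
    rw [res_length] at hlt
    rw [CNW_res, res_getD _ hlt] at hne
    exact hne (h b hb)

/-- one half of the new bad strings -/
def CNW_H (p : CD) (Kill : ℕ × ℕ → List ℕ → Prop) (a : ℕ × ℕ) (β : List (ℕ × ℕ)) (g : ℕ → ℕ)
    (K : ℕ) (f : ℕ → ℕ) (ρ : List ℕ) : Prop :=
  (p.Bad (ρ.map f) ∨ Kill a (ρ.map f)) ∨
    (CNW_B f β ρ ∨ CEX_inc p.σ.length p.k p.al g K (ρ.map f))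

theorem CNW_s1 (p : CD) {Kill : ℕ × ℕ → List ℕ → Prop}
    (hK : CE (fun t : (ℕ × ℕ) × List ℕ => Kill t.1 t.2)) (a : ℕ × ℕ) (β : List (ℕ × ℕ))
    (g : ℕ → ℕ) (K : ℕ) {f : ℕ → ℕ} (hf : Primrec f) : CE (CNW_H p Kill a β g K f) := by
  have hm : Primrec (fun ρ : List ℕ => ρ.map f) := Primrec.list_map Primrec.id
    (Primrec.comp (g := fun q : List ℕ × ℕ => q.2) hf Primrec.snd)
  refine S1.or (S1.or (p.re.comp hm) ?_) (S1.or (S1.prim (CNW_primB hf β))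
    ((CEX_s1 _ _ _ _ _).comp hm))
  exact hK.comp (Primrec.pair (Primrec.const a) hm)

theorem CNW_half {p : CD} {D : List ℕ → ℕ × ℕ → Prop} {Kill : ℕ × ℕ → List ℕ → Prop}
    (hK : ∀ a v, (∀ m, ¬ Kill a (res v m)) ↔ ∀ τ, Cv1 p v τ → ¬ D τ a) {a : ℕ × ℕ}
    {β : List (ℕ × ℕ)} {g : ℕ → ℕ} {K : ℕ} {f w : ℕ → ℕ} :
    (∀ k, ¬ CNW_H p Kill a β g K f (res w k)) ↔
      (∀ k, ¬ p.Bad (res (fun i => f (w i)) k)) ∧
      (∀ τ, Cv1 p (fun i => f (w i)) τ → ¬ D τ a) ∧ (∀ b ∈ β, f (w b.1) = b.2) ∧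
      ∀ i, p.σ.length ≤ i → i < K → i.unpair.1 < p.k →
        (f (w (Nat.pair i.unpair.1 (g i))), f (w i)) ∈ p.al := by
  rw [← CNW_ni, ← hK a, ← CEX_ni (v := fun i => f (w i))]
  constructor
  · intro h
    refine ⟨fun k hk => h k (Or.inl (Or.inl ?_)), fun k hk => h k (Or.inl (Or.inr ?_)),
      fun k hk => h k (Or.inr (Or.inl hk)), fun k hk => h k (Or.inr (Or.inr ?_))⟩
    · rw [CNW_res]; exact hk
    · rw [CNW_res]; exact hk
    · rw [CNW_res]; exact hk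
  · rintro ⟨h1, h2, h3, h4⟩ k ((hk | hk) | (hk | hk))
    · rw [CNW_res] at hk; exact h1 k hk
    · rw [CNW_res] at hk; exact h2 k hk
    · exact h3 k hk
    · rw [CNW_res] at hk; exact h4 k hk

theorem CNW (hCS2 : CS2_stmt) (hCKI : CKI_stmt) : CNW_stmt := by
  intro p D hD hmono a a' z β β' ⟨v₀, hv₀⟩ ⟨v₁, hv₁⟩ hz
  obtain ⟨Kill, hK1, hK2⟩ := hCKI p D hD
  obtain ⟨g, hg0, hg1⟩ := hCS2 p v₀ v₁ hv₀.1 hv₁.1
  have hn : 0 < p.n := lt_of_le_of_lt (Nat.zero_le _) (hv₀.1.1 0)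
  obtain ⟨N, hN⟩ := COR_bound (fun κ w => z κ (w / p.n) (w % p.n)) p.k (p.n * p.n)
  obtain ⟨K0, hK0⟩ := p.oH.2 N
  obtain ⟨K, hK, hKN⟩ : ∃ K, p.σ.length ≤ K ∧ N ≤ p.H K :=
    ⟨max K0 p.σ.length, le_max_right _ _, hK0.trans (p.oH.1 (le_max_left _ _))⟩
  have hHK : p.H p.σ.length ≤ p.H K := p.oH.1 hK
  have hdm : ∀ w : ℕ, w < p.n * p.n → w / p.n < p.n := fun w hw => Nat.div_lt_of_lt_mul hw
  have hmod : ∀ w : ℕ, w % p.n < p.n := fun w => Nat.mod_lt _ hn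
  have hlt : ∀ c c' : ℕ, c < p.n → c' < p.n → c * p.n + c' < p.n * p.n := by
    intro c c' hc hc'
    calc c * p.n + c' < c * p.n + p.n := by omega
      _ = (c + 1) * p.n := by ring
      _ ≤ p.n * p.n := Nat.mul_le_mul_right _ hc
  have hd1 : ∀ c c' : ℕ, c' < p.n → (c * p.n + c') / p.n = c := by
    intro c c' hc'
    rw [Nat.mul_comm, Nat.mul_add_div hn, Nat.div_eq_of_lt hc', Nat.add_zero]
  have hd2 : ∀ c c' : ℕ, c' < p.n → (c * p.n + c') % p.n = c' := by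
    intro c c' hc'
    rw [Nat.mul_comm, Nat.mul_add_mod, Nat.mod_eq_of_lt hc']
  have heq : ∀ w w' : ℕ, w / p.n = w' / p.n → w % p.n = w' % p.n → w = w' := by
    intro w w' h1 h2
    rw [← Nat.div_add_mod w p.n, ← Nat.div_add_mod w' p.n, h1, h2]
  let Bd : List ℕ → Prop := fun ρ =>
    CNW_H p Kill a β g K (fun w => w / p.n) ρ ∨ CNW_H p Kill a' β' g K (fun w => w % p.n) ρ
  have hmem : ∀ w : ℕ → ℕ, w ∈ cls (p.n * p.n) Bd ↔ (∀ i, w i < p.n * p.n) ∧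
      (KD p D a β (fun i => w i / p.n) ∧ KD p D a' β' (fun i => w i % p.n)) ∧
      (∀ i, p.σ.length ≤ i → i < K → i.unpair.1 < p.k →
        (w (Nat.pair i.unpair.1 (g i)) / p.n, w i / p.n) ∈ p.al) ∧
      ∀ i, p.σ.length ≤ i → i < K → i.unpair.1 < p.k →
        (w (Nat.pair i.unpair.1 (g i)) % p.n, w i % p.n) ∈ p.al := by
    intro w
    constructor
    · rintro ⟨h1, h2⟩
      obtain ⟨h3, h4, h5, h6⟩ := (CNW_half hK2 (f := fun w => w / p.n)).1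
        (fun k hk => h2 k (Or.inl hk))
      obtain ⟨h3', h4', h5', h6'⟩ := (CNW_half hK2 (f := fun w => w % p.n)).1
        (fun k hk => h2 k (Or.inr hk))
      exact ⟨h1, ⟨⟨⟨fun i => hdm _ (h1 i), h3⟩, h4, h5⟩, ⟨⟨fun i => hmod _, h3'⟩, h4', h5'⟩⟩,
        h6, h6'⟩
    · rintro ⟨h1, ⟨⟨⟨-, h3⟩, h4, h5⟩, ⟨⟨-, h3'⟩, h4', h5'⟩⟩, h6, h6'⟩
      refine ⟨h1, fun k hk => ?_⟩
      rcases hk with hk | hk
      · exact (CNW_half hK2 (f := fun w => w / p.n)).2 ⟨h3, h4, h5, h6⟩ k hk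
      · exact (CNW_half hK2 (f := fun w => w % p.n)).2 ⟨h3', h4', h5', h6'⟩ k hk
  have hlenK : (res g K).length = K := res_length g K
  have hne : (cls (p.n * p.n) Bd).Nonempty := by
    refine ⟨fun i => v₀ i * p.n + v₁ i, (hmem _).2 ?_⟩
    have e1 : (fun i => (v₀ i * p.n + v₁ i) / p.n) = v₀ := by
      funext i; exact hd1 _ _ (hv₁.1.1 i)
    have e2 : (fun i => (v₀ i * p.n + v₁ i) % p.n) = v₁ := by
      funext i; exact hd2 _ _ (hv₁.1.1 i)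
    refine ⟨fun i => hlt _ _ (hv₀.1.1 i) (hv₁.1.1 i), ⟨?_, ?_⟩, fun i hi1 hi2 hi3 => ?_,
      fun i hi1 hi2 hi3 => ?_⟩
    · rw [e1]; exact hv₀
    · rw [e2]; exact hv₁
    · beta_reduce
      rw [hd1 _ _ (hv₁.1.1 _), hd1 _ _ (hv₁.1.1 _)]
      exact (hg0.2 i hi1).2 hi3
    · beta_reduce
      rw [hd2 _ _ (hv₁.1.1 _), hd2 _ _ (hv₁.1.1 _)]
      exact (hg1.2 i hi1).2 hi3
  let q : CD :=
    { k := p.k
      ce := p.ce
      σ := res g K
      n := p.n * p.n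
      al := CNW_al p.n p.al
      Z := fun κ w => z κ (w / p.n) (w % p.n)
      Bad := Bd
      H := p.H
      re := S1.or (CNW_s1 p hK1 a β g K (Primrec.nat_div.comp Primrec.id (Primrec.const p.n)))
        (CNW_s1 p hK1 a' β' g K (Primrec.nat_mod.comp Primrec.id (Primrec.const p.n)))
      pH := p.pH
      oH := p.oH
      pos := by rw [hlenK]; exact p.pos.trans_le hHK
      irr := fun c hc => p.irr _ (CNW_mem.1 hc).2.1
      two := by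
        intro d hd d' hd'
        obtain ⟨c1, hc1, h1, h2⟩ := p.two _ (hdm d hd) _ (hdm d' hd')
        obtain ⟨c2, hc2, h3, h4⟩ := p.two _ (hmod d) _ (hmod d')
        refine ⟨c1 * p.n + c2, hlt _ _ hc1 hc2, CNW_mem.2 ⟨⟨hlt _ _ hc1 hc2, hd⟩, ?_⟩,
          CNW_mem.2 ⟨⟨hlt _ _ hc1 hc2, hd'⟩, ?_⟩⟩
        · rw [hd1 _ _ hc2, hd2 _ _ hc2]; exact ⟨h1, h3⟩
        · rw [hd1 _ _ hc2, hd2 _ _ hc2]; exact ⟨h2, h4⟩
      inv := by
        intro w hw κ hκ x y hxy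
        obtain ⟨-, ⟨h1, h2⟩, -⟩ := (hmem w).1 hw
        exact heq _ _ (p.inv _ h1.1 κ hκ x y hxy) (p.inv _ h2.1 κ hκ x y hxy)
      rep := by
        intro w hw κ hκ c hc
        obtain ⟨-, ⟨h1, h2⟩, -⟩ := (hmem w).1 hw
        obtain ⟨h3, h4⟩ := hz κ hκ (c / p.n) (hdm c hc) (c % p.n) (hmod c)
        exact heq _ _ (h1.2.2 _ h3) (h2.2.2 _ h4)
      zero := by
        intro w hw κ hκ x
        obtain ⟨-, ⟨h1, h2⟩, -⟩ := (hmem w).1 hw
        refine heq _ _ ?_ ?_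
        · rw [Nat.zero_div]; exact p.zero _ h1.1 κ hκ x
        · rw [Nat.zero_mod]; exact p.zero _ h2.1 κ hκ x
      big := by
        intro κ hκ c hc
        rw [hlenK]
        exact (hN κ hκ c hc).trans_le hKN
      ne := hne }
  have hag : ∀ g' : ℕ → ℕ, ∀ w, Sv q w g' → ∀ i < K, g' i = g i := by
    intro g' w hw
    have h1 : res g' (res g K).length = res g K := hw.1
    rw [hlenK] at h1
    exact res_inj h1
  have hσ : ∀ g' : ℕ → ℕ, ∀ w, Sv q w g' → res g' p.σ.length = p.σ := by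
    intro g' w hw
    have h1 : res g' (res g K).length = res g K := hw.1
    rw [hlenK] at h1
    rw [← res_take g' hK, h1, res_take g hK, hg0.1]
  have hsv : ∀ g' : ℕ → ℕ, ∀ w ∈ cls q.n q.Bad, Sv q w g' →
      Sv p (fun i => w i / p.n) g' ∧ Sv p (fun i => w i % p.n) g' := by
    intro g' w hw hs
    obtain ⟨-, -, h3, h4⟩ := (hmem w).1 hw
    refine ⟨⟨hσ g' w hs, fun i hi => ?_⟩, ⟨hσ g' w hs, fun i hi => ?_⟩⟩
    · by_cases hiK : i < K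
      · rw [hag g' w hs i hiK]
        exact ⟨(hg0.2 i hi).1, fun h => h3 i hi hiK h⟩
      · obtain ⟨h5, h6⟩ := hs.2 i (by show (res g K).length ≤ i; rw [hlenK]; omega)
        exact ⟨h5, fun h => (CNW_mem.1 (h6 h)).2.1⟩
    · by_cases hiK : i < K
      · rw [hag g' w hs i hiK]
        exact ⟨(hg0.2 i hi).1, fun h => h4 i hi hiK h⟩
      · obtain ⟨h5, h6⟩ := hs.2 i (by show (res g K).length ≤ i; rw [hlenK]; omega)
        exact ⟨h5, fun h => (CNW_mem.1 (h6 h)).2.2⟩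
  refine ⟨q, ⟨fun κ hκ => ⟨hκ, rfl⟩, ?_, ?_⟩, ?_⟩
  · show (res g K).take p.σ.length = p.σ
    rw [res_take g hK, hg0.1]
  · rintro g' ⟨w, hw, hs⟩
    exact ⟨_, ((hmem w).1 hw).2.1.1.1, (hsv g' w hw hs).1⟩
  · rintro g' ⟨w, hw, hs⟩ m
    obtain ⟨-, ⟨h1, h2⟩, -⟩ := (hmem w).1 hw
    obtain ⟨hs1, hs2⟩ := hsv g' w hw hs
    have hcv : ∀ v, Sv p v g' → Cv1 p v (res g' (max m p.σ.length)) := by
      intro v hv
      refine ⟨?_, fun i hi hi2 => ?_⟩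
      · rw [res_take g' (le_max_right _ _), hv.1]
      · rw [res_length] at hi2
        rw [res_getD g' hi2]
        exact hv.2 i hi
    exact ⟨fun hd => h1.2.1 _ (hcv _ hs1) (hmono _ _ _ _ (le_max_left _ _) hd),
      fun hd => h2.2.1 _ (hcv _ hs2) (hmono _ _ _ _ (le_max_left _ _) hd)⟩

end Pool.Agent.DW
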