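import Pool.Agent.helper18.DW.CD1

/-! Project DW (MP_a87378_lc), rows CCO, CPA. -/

set_option autoImplicit false

namespace Pool.Agent.DW

open Encodable Pool.Agent.helper63.Diag Pool.Agent.helper63.Dg4 Pool.Agent.helper63.RV

/-- pairwise inequivalent numbers -/
theorem CCO_pick (C : HF) (m : ℕ) : ∃ z : ℕ → ℕ, ∀ c < m, ∀ c' < m, C.E (z c) (z c') → c = c' := by
  induction m with
  | zero => exact ⟨fun _ => 0, fun c hc => absurd hc (by omega)⟩
  | succ m ih =>
    obtain ⟨z, hz⟩ := ih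
    obtain ⟨x, hx⟩ := C.inf ((List.range m).map z)
    refine ⟨Function.update z m x, ?_⟩
    intro c hc c' hc' hE
    rcases Nat.lt_succ_iff_lt_or_eq.1 hc with h | h
    · rcases Nat.lt_succ_iff_lt_or_eq.1 hc' with h' | h'
      · rw [Function.update_of_ne h.ne, Function.update_of_ne h'.ne] at hE
        exact hz c h c' h' hE
      · subst h'
        rw [Function.update_of_ne h.ne, Function.update_self] at hE
        exact absurd (C.eqv.symm hE) (hx _ (List.mem_map.2 ⟨c, List.mem_range.2 h, rfl⟩))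
    · subst h
      rcases Nat.lt_succ_iff_lt_or_eq.1 hc' with h' | h'
      · rw [Function.update_of_ne h'.ne, Function.update_self] at hE
        exact absurd hE (hx _ (List.mem_map.2 ⟨c', List.mem_range.2 h', rfl⟩))
      · exact h'.symm

/-- replace the column `k` by `0` -/
def CCO_zap (k : ℕ) (ρ : List ℕ) : List ℕ :=
  (List.range ρ.length).map fun i => if i.unpair.1 = k then 0 else ρ.getD i 0

/-- the same for a colouring -/
def CCO_v (k : ℕ) (v : ℕ → ℕ) (i : ℕ) : ℕ := if i.unpair.1 = k then 0 else v i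

theorem CCO_v_off {k : ℕ} {v : ℕ → ℕ} {i : ℕ} (h : i.unpair.1 ≠ k) : CCO_v k v i = v i := if_neg h

theorem CCO_v_pair {k : ℕ} {v : ℕ → ℕ} {κ x : ℕ} (h : κ ≠ k) :
    CCO_v k v (Nat.pair κ x) = v (Nat.pair κ x) := CCO_v_off (by rw [Nat.unpair_pair]; exact h)

theorem CCO_zap_res (k : ℕ) (v : ℕ → ℕ) (m : ℕ) :
    CCO_zap k (res v m) = res (CCO_v k v) m := by
  unfold CCO_zap
  rw [res_length]
  show _ = (List.range m).map _
  refine List.map_congr_left fun i hi => ?_
  rw [res_getD v (List.mem_range.1 hi)]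
  rfl

theorem CCO_zap_prim (k : ℕ) : Primrec (CCO_zap k) := by
  unfold CCO_zap
  refine Primrec.list_map (Primrec.list_range.comp Primrec.list_length) ?_
  refine Primrec.ite ?_ (Primrec.const 0) ?_
  · exact Primrec.eq.comp (Primrec.fst.comp (Primrec.unpair.comp Primrec.snd)) (Primrec.const k)
  · exact (Primrec.list_getD 0).comp Primrec.fst Primrec.snd

/-- the new bad strings -/
def CCO_Bad (p : CD) (C : HF) (z : ℕ → ℕ) (ρ : List ℕ) : Prop :=
  p.Bad (CCO_zap p.k ρ) ∨ (∃ x : ℕ × ℕ, ((Nat.pair p.k x.1 < ρ.length ∧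
    Nat.pair p.k x.2 < ρ.length) ∧
      ¬ ρ.getD (Nat.pair p.k x.1) 0 = ρ.getD (Nat.pair p.k x.2) 0) ∧ C.E x.1 x.2) ∨
    ∃ c < p.n, Nat.pair p.k (z c) < ρ.length ∧ ¬ ρ.getD (Nat.pair p.k (z c)) 0 = c

theorem CCO_s1 (p : CD) (C : HF) (z : ℕ → ℕ) : CE (CCO_Bad p C z) := by
  unfold CCO_Bad
  refine S1.or (p.re.comp (CCO_zap_prim p.k)) (S1.or ?_ ?_)
  · refine S1.ex (A := fun (ρ : List ℕ) (x : ℕ × ℕ) => ((Nat.pair p.k x.1 < ρ.length ∧
      Nat.pair p.k x.2 < ρ.length) ∧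
      ¬ ρ.getD (Nat.pair p.k x.1) 0 = ρ.getD (Nat.pair p.k x.2) 0) ∧ C.E x.1 x.2)
      (S1.and (S1.prim ?_) (C.ce.comp Primrec.snd))
    have h1 : Primrec (fun q : List ℕ × (ℕ × ℕ) => Nat.pair p.k q.2.1) :=
      Primrec₂.natPair.comp (Primrec.const p.k) (Primrec.fst.comp Primrec.snd)
    have h2 : Primrec (fun q : List ℕ × (ℕ × ℕ) => Nat.pair p.k q.2.2) :=
      Primrec₂.natPair.comp (Primrec.const p.k) (Primrec.snd.comp Primrec.snd)
    have hl : Primrec (fun q : List ℕ × (ℕ × ℕ) => q.1.length) :=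
      Primrec.list_length.comp Primrec.fst
    refine PrimrecPred.and (PrimrecPred.and ?_ ?_) (PrimrecPred.not ?_)
    · exact Primrec.nat_lt.comp h1 hl
    · exact Primrec.nat_lt.comp h2 hl
    · exact Primrec.eq.comp ((Primrec.list_getD 0).comp Primrec.fst h1)
        ((Primrec.list_getD 0).comp Primrec.fst h2)
  · refine S1.orlt p.n (fun c _ => S1.prim (PrimrecPred.and ?_ (PrimrecPred.not ?_)))
    · exact Primrec.nat_lt.comp (Primrec.const _) Primrec.list_length
    · exact Primrec.eq.comp ((Primrec.list_getD 0).comp Primrec.id (Primrec.const _))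
        (Primrec.const c)

theorem CCO_mem {p : CD} {C : HF} {z v : ℕ → ℕ} :
    v ∈ cls p.n (CCO_Bad p C z) ↔ (∀ i, v i < p.n) ∧
      (∀ m, ¬ p.Bad (res (CCO_v p.k v) m)) ∧
      (∀ x x', C.E x x' → v (Nat.pair p.k x) = v (Nat.pair p.k x')) ∧
      ∀ c < p.n, v (Nat.pair p.k (z c)) = c := by
  constructor
  · rintro ⟨h1, h2⟩
    refine ⟨h1, fun m hm => h2 m (Or.inl ?_), fun x x' hx => ?_, fun c hc => ?_⟩
    · rw [CCO_zap_res]; exact hm
    · by_contra hne
      have ha : Nat.pair p.k x < Nat.pair p.k x + Nat.pair p.k x' + 1 := by omega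
      have hb : Nat.pair p.k x' < Nat.pair p.k x + Nat.pair p.k x' + 1 := by omega
      refine h2 (Nat.pair p.k x + Nat.pair p.k x' + 1) (Or.inr (Or.inl ⟨(x, x'), ⟨⟨?_, ?_⟩, ?_⟩,
        hx⟩))
      · rw [res_length]; exact ha
      · rw [res_length]; exact hb
      · rw [res_getD v ha, res_getD v hb]; exact hne
    · by_contra hne
      refine h2 (Nat.pair p.k (z c) + 1) (Or.inr (Or.inr ⟨c, hc, by rw [res_length]; omega, ?_⟩))
      rwa [res_getD v (Nat.lt_succ_self _)]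
  · rintro ⟨h1, h2, h3, h4⟩
    refine ⟨h1, fun m hm => ?_⟩
    rcases hm with hm | ⟨⟨x, x'⟩, ⟨⟨ha, hb⟩, hne⟩, hE⟩ | ⟨c, hc, ha, hne⟩
    · rw [CCO_zap_res] at hm; exact h2 m hm
    · rw [res_length] at ha hb
      rw [res_getD v ha, res_getD v hb] at hne
      exact hne (h3 x x' hE)
    · rw [res_length] at ha
      rw [res_getD v ha] at hne
      exact hne (h4 c hc)

theorem CCO_aux (p : CD) (C : HF) (z : ℕ → ℕ)
    (hz : ∀ c < p.n, ∀ c' < p.n, C.E (z c) (z c') → c = c')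
    (hb : ∀ c < p.n, z c < p.H p.σ.length) : ∃ q, Lc q p ∧ ∃ κ < q.k, q.ce κ = C := by
  classical
  have hn : 0 < p.n := by
    obtain ⟨v, hv⟩ := p.ne
    exact lt_of_le_of_lt (Nat.zero_le _) (hv.1 0)
  have hz0 : ∀ v ∈ cls p.n (CCO_Bad p C z), CCO_v p.k v ∈ cls p.n p.Bad := by
    intro v hv
    obtain ⟨h1, h2, -, -⟩ := CCO_mem.1 hv
    refine ⟨fun i => ?_, h2⟩
    unfold CCO_v
    split_ifs
    · exact hn
    · exact h1 i
  -- the new colouring
  have hne : (cls p.n (CCO_Bad p C z)).Nonempty := by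
    obtain ⟨v, hv⟩ := p.ne
    let col : ℕ → ℕ := fun x => if h : ∃ c, c < p.n ∧ C.E x (z c) then Classical.choose h else 0
    have hcol : ∀ x c, c < p.n → C.E x (z c) → col x = c := by
      intro x c hc hx
      have h : ∃ c, c < p.n ∧ C.E x (z c) := ⟨c, hc, hx⟩
      have h1 : col x = Classical.choose h := dif_pos h
      have h2 := Classical.choose_spec h
      rw [h1]
      exact hz _ h2.1 _ hc (C.eqv.trans (C.eqv.symm h2.2) hx)
    have hcol0 : ∀ x, (¬ ∃ c, c < p.n ∧ C.E x (z c)) → col x = 0 := fun x h => dif_neg h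
    have hlt : ∀ x, col x < p.n := by
      intro x
      by_cases h : ∃ c, c < p.n ∧ C.E x (z c)
      · obtain ⟨c, hc, hx⟩ := h
        rw [hcol x c hc hx]; exact hc
      · rw [hcol0 x h]; exact hn
    refine ⟨fun i => if i.unpair.1 = p.k then col i.unpair.2 else v i, CCO_mem.2 ⟨fun i => ?_,
      ?_, fun x x' hx => ?_, fun c hc => ?_⟩⟩
    · beta_reduce
      split_ifs
      · exact hlt _
      · exact hv.1 i
    · have : CCO_v p.k (fun i => if i.unpair.1 = p.k then col i.unpair.2 else v i) = v := by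
        funext i
        unfold CCO_v
        by_cases h : i.unpair.1 = p.k
        · rw [if_pos h]
          have h1 := p.zero v hv p.k le_rfl i.unpair.2
          rw [← h, Nat.pair_unpair] at h1
          exact h1.symm
        · rw [if_neg h]
          exact if_neg h
      rw [this]
      exact hv.2
    · simp only [Nat.unpair_pair, if_true]
      by_cases h : ∃ c, c < p.n ∧ C.E x (z c)
      · obtain ⟨c, hc, h1⟩ := h
        rw [hcol x c hc h1, hcol x' c hc (C.eqv.trans (C.eqv.symm hx) h1)]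
      · rw [hcol0 x h, hcol0 x' (fun ⟨c, hc, h1⟩ => h ⟨c, hc, C.eqv.trans hx h1⟩)]
    · simp only [Nat.unpair_pair, if_true]
      exact hcol _ c hc (C.eqv.refl _)
  refine ⟨{ p with
    k := p.k + 1
    ce := Function.update p.ce p.k C
    Z := fun κ c => if κ = p.k then z c else p.Z κ c
    Bad := CCO_Bad p C z
    re := CCO_s1 p C z
    inv := ?_
    rep := ?_
    zero := ?_
    big := ?_
    ne := hne }, ⟨fun κ hκ => ⟨Nat.lt_succ_of_lt hκ, Function.update_of_ne hκ.ne _ _⟩, ?_, ?_⟩,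
    p.k, Nat.lt_succ_self _, Function.update_self _ _ _⟩
  · intro v hv κ hκ x x' hx
    rcases Nat.lt_succ_iff_lt_or_eq.1 hκ with h | h
    · rw [Function.update_of_ne h.ne] at hx
      have h1 := p.inv _ (hz0 v hv) κ h x x' hx
      rw [CCO_v_pair h.ne, CCO_v_pair h.ne] at h1
      exact h1
    · subst h
      rw [Function.update_self] at hx
      exact (CCO_mem.1 hv).2.2.1 x x' hx
  · intro v hv κ hκ c hc
    rcases Nat.lt_succ_iff_lt_or_eq.1 hκ with h | h
    · beta_reduce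
      rw [if_neg h.ne]
      have h1 := p.rep _ (hz0 v hv) κ h c hc
      rw [CCO_v_pair h.ne] at h1
      exact h1
    · subst h
      beta_reduce
      rw [if_pos rfl]
      exact (CCO_mem.1 hv).2.2.2 c hc
  · intro v hv κ hκ x
    have h1 := p.zero _ (hz0 v hv) κ (by omega) x
    rw [CCO_v_pair (by omega)] at h1
    exact h1
  · intro κ hκ c hc
    rcases Nat.lt_succ_iff_lt_or_eq.1 hκ with h | h
    · beta_reduce
      rw [if_neg h.ne]
      exact p.big κ h c hc
    · beta_reduce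
      rw [if_pos h]
      exact hb c hc
  · show p.σ.take p.σ.length = p.σ
    simp
  · rintro g ⟨v, hv, h1, h2⟩
    refine ⟨_, hz0 v hv, h1, fun i hi => ?_⟩
    obtain ⟨h3, h4⟩ := h2 i hi
    refine ⟨h3, fun hk => ?_⟩
    rw [CCO_v_pair hk.ne, CCO_v_off hk.ne]
    exact h4 (Nat.lt_succ_of_lt hk)

theorem CCO (hCSA : CSA_stmt) (hCEX : CEX_stmt) : CCO_stmt := by
  intro p C
  obtain ⟨z, hz⟩ := CCO_pick C p.n
  obtain ⟨N, hN⟩ := COR_bound (fun _ c => z c) 1 p.n
  obtain ⟨K, hK⟩ := p.oH.2 N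
  obtain ⟨q, h1, h2, -, -, -, h5, -, -, h8⟩ := CLE hCSA hCEX p K
  obtain ⟨r, hr, h9⟩ := CCO_aux q C z (by rw [h5]; exact hz) (by
    intro c hc
    rw [h5] at hc
    rw [h8]
    exact (hN 0 (by omega) c hc).trans_le (hK.trans (p.oH.1 h2)))
  exact ⟨r, Lc_trans hr h1, h9⟩

theorem CPA (hCSA : CSA_stmt) (hCEX : CEX_stmt) (hCEE : CEE_stmt) (hCTU : CTU_stmt)
    (hCNW : CNW_stmt) : CPA_stmt := by
  classical
  intro p D hD
  have hD' := prim_mon hD
  have hA : S1 (fun _ => 0) (fun t : ℕ × ℕ => t.2 < 2 ∧ ∀ v, ¬ KD p (mon D) t [] v) := by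
    refine S1.and (S1.prim ?_) ?_
    · exact Primrec.nat_lt.comp Primrec.snd (Primrec.const 2)
    · have h1 := hCEE p (mon D) hD'
      exact h1.comp (f := fun t : ℕ × ℕ => (t, ([] : List (ℕ × ℕ))))
        (Primrec.pair Primrec.id (Primrec.const _))
  by_cases hcase : ∀ e, ∃ m < 2, m < 2 ∧ ∀ v, ¬ KD p (mon D) (e, m) [] v
  · obtain ⟨e, m, hm, hm2, hemp⟩ := Pr.zero {fun _ => 2} _ rfl _ hA hcase
    obtain ⟨v, hv⟩ := p.ne
    have h1 : ∃ τ, Cv1 p v τ ∧ mon D τ (e, m) := by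
      by_contra hcon
      push Not at hcon
      exact hemp v ⟨hv, hcon, fun b hb => absurd hb (by simp)⟩
    obtain ⟨τ, hτ, hd⟩ := h1
    obtain ⟨g, hg1, hg2⟩ := hCSA p v τ hv hτ
    obtain ⟨q, hq1, hq2, -⟩ := hCEX p v g τ.length hv hg2 (length_le_of_take hτ.1)
    refine ⟨q, hq1, ?_⟩
    rintro g' ⟨w, -, hw, -⟩ -
    have h2 : res g' τ.length = τ := by
      rw [hq2, res_length, hg1] at hw
      exact hw
    refine ⟨e, m, hm, (ex_mon g' (e, m)).1 ⟨τ.length, ?_⟩⟩
    rw [h2]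
    exact hd
  · push Not at hcase
    obtain ⟨e, he⟩ := hcase
    obtain ⟨z, β, β', hβ, hβ', hz⟩ := hCTU p (mon D) hD' (e, 0) (e, 1) (he 0 (by omega) (by omega))
      (he 1 (by omega) (by omega))
    obtain ⟨q, hq1, hq2⟩ := hCNW p (mon D) hD' mon_mono (e, 0) (e, 1) z β β' hβ hβ' hz
    refine ⟨q, hq1, fun g hg hyp => ?_⟩
    exfalso
    obtain ⟨m, hm, hk⟩ := hyp e
    obtain ⟨k, hk⟩ := (ex_mon g (e, m)).2 hk
    have hm' : m = 0 ∨ m = 1 := by
      have : m < 2 := hm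
      omega
    rcases hm' with rfl | rfl
    · exact (hq2 g hg k).1 hk
    · exact (hq2 g hg k).2 hk

end Pool.Agent.DW
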