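import Pool.Agent.helper18.DW.SpecE

/-! Project DW (MP_a87378_lc), row ENF: the property of the constructed ceer. -/

set_option autoImplicit false

namespace Pool.Agent.DW

open Encodable Pool.Agent.helper63.Diag Pool.Agent.helper63.Dg4 Pool.Agent.helper63.RV

theorem ENF_anti (a : ℕ → ℕ) (ha : ∀ s t, s ≤ t → a t ≤ a s) : ∃ s0, ∀ s ≥ s0, a s = a s0 := by
  classical
  have hex : ∃ v, ∃ s, a s = v := ⟨a 0, 0, rfl⟩
  obtain ⟨s0, hs0⟩ := Nat.find_spec hex
  refine ⟨s0, fun s hs => ?_⟩
  have h1 := ha s0 s hs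
  have h2 : Nat.find hex ≤ a s := Nat.find_le ⟨s, rfl⟩
  omega

theorem ENF_mono (N : ℕ) : ∀ a : ℕ → ℕ, (∀ s, a s ≤ a (s + 1)) → (∀ s, a s ≤ N) →
    ∀ T, ∃ s ≥ T, a (s + 1) = a s := by
  intro a ha hN T
  by_contra hcon
  push Not at hcon
  have key : ∀ i, i ≤ a (T + i) := by
    intro i
    induction i with
    | zero => exact Nat.zero_le _
    | succ i ih =>
      have h1 := ha (T + i)
      have h2 := hcon (T + i) (by omega)
      change i + 1 ≤ a (T + i + 1)
      omega
  have h1 := key (N + 1)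
  have h2 := hN (T + (N + 1))
  omega

theorem ENF (h1 : MGB_stmt) (h4 : NST_stmt) (h5 : LIM_stmt) : ENF_stmt := by
  obtain ⟨hA, hB, hC, hD, -, hF, hG, -⟩ := h5
  intro W q hW hq
  obtain ⟨e1, he1⟩ := ce_index hW
  obtain ⟨cq, hcq⟩ := Nat.Partrec.Code.exists_code.1 (Partrec.nat_iff.1 hq.partrec)
  refine ⟨Nat.pair e1 (encode cq), fun j hj t ht => ?_⟩
  obtain ⟨n, hn⟩ : ∃ n, n = Nat.pair (Nat.pair e1 (encode cq)) (Nat.pair j t) := ⟨_, rfl⟩
  have hqe : qe n = e1 := by rw [hn]; simp [qe]
  have hqq : qq n = encode cq := by rw [hn]; simp [qq]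
  have hlv : lv n = j := by rw [hn]; simp [lv]
  have htk : tk n = t := by rw [hn]; simp [tk]
  have hn1 : n.unpair.1 = Nat.pair e1 (encode cq) := by rw [hn]; simp
  have hact : ∃ s1, ∀ s ≥ s1, Act s n := by
    have h6 : q j ∈ Nat.Partrec.Code.eval cq j := by
      rw [hcq]
      exact Part.mem_some _
    obtain ⟨k, hk⟩ := Nat.Partrec.Code.evaln_complete.1 h6
    refine ⟨k, fun s hs => ⟨by rw [hn1, hlv]; exact hj, ?_⟩⟩
    rw [htk, hqq, hlv, Denumerable.ofNat_encode]
    have h7 := Nat.Partrec.Code.evaln_mono hs hk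
    rw [Option.mem_def.1 h7]
    exact ht
  by_cases hin : ∃ s, n ∈ (St s).2
  · classical
    have hs := Nat.find_spec hin
    have hpos : Nat.find hin ≠ 0 := by
      intro h0
      rw [h0] at hs
      change n ∈ ([] : List ℕ) at hs
      simp at hs
    obtain ⟨s, hs'⟩ := Nat.exists_eq_succ_of_ne_zero hpos
    have hns : n ∉ (St s).2 := Nat.find_min hin (by omega)
    rw [hs'] at hs
    rcases h4 s (St s) with ⟨n', z, -, hr, -, hst⟩ | ⟨hst, -⟩
    · have h6 : n ∈ n' :: (St s).2 := by
        have h7 : (St (s + 1)).2 = n' :: (St s).2 := by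
          change (stp s (St s)).2 = _
          rw [hst]
        rw [← h7]
        exact hs
      rcases List.mem_cons.1 h6 with h7 | h7
      swap
      · exact absurd h7 hns
      subst h7
      obtain ⟨-, -, hwe, -⟩ := hr
      rw [hqe, hlv, htk] at hwe
      refine ⟨mk (St s).1 (n + 2), Or.inl ⟨Denumerable.ofNat (List ℕ) z, (he1 _).2 ⟨s, hwe⟩,
        fun y hy => ⟨s + 1, ?_⟩⟩⟩
      have h7 : (St (s + 1)).1 = mg (St s).1 (mk (St s).1 (n + 2) :: Denumerable.ofNat (List ℕ) z) := by
        change (stp s (St s)).1 = _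
        rw [hst]
      rw [h7]
      refine ((h1 _ (hA s) _).2.2.2 _ _).2 (Or.inr ⟨?_, ?_⟩)
      · exact List.mem_map.2 ⟨y, List.mem_cons_of_mem _ hy, rfl⟩
      · exact List.mem_map.2 ⟨_, List.mem_cons_self, rfl⟩
    · exfalso
      apply hns
      have h7 : St (s + 1) = St s := hst
      rw [← h7]
      exact hs
  · push Not at hin
    obtain ⟨s1, hs1⟩ := hact
    obtain ⟨s2, hs2⟩ := hF (n + 2)
    choose sz hsz using fun z => ENF_anti (fun s => wc (St s).1 j z) (fun s t hst => hD s t j z hst)
    refine ⟨mk (St s2).1 (n + 2), Or.inr ⟨fun z => wc (St (sz z)).1 j z, ⟨fun z => ?_, ?_⟩, ?_⟩⟩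
    · change wc (St (sz z)).1 j z < j + 3
      unfold wc
      have := min_le_right (rk (St (sz z)).1 (wr (St (sz z)).1 z)) (j + 2)
      omega
    · rintro z z' ⟨s, hs⟩
      change wc (St (sz z)).1 j z = wc (St (sz z')).1 j z'
      have h6 := hsz z (max s (max (sz z) (sz z'))) (by simp)
      have h7 := hsz z' (max s (max (sz z) (sz z'))) (by simp)
      have h8 := hC s (max s (max (sz z) (sz z'))) z z' (le_max_left _ _) hs
      rw [← h6, ← h7]
      unfold wc
      rw [h8]
    · intro Z hZ hWZ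
      obtain ⟨s3, hs3⟩ := (he1 _).1 hWZ
      have hsup : ∃ T, ∀ u ∈ Z, sz u ≤ T := by
        refine ⟨(Z.map sz).sum, fun u hu => ?_⟩
        exact List.single_le_sum (by simp) _ (List.mem_map.2 ⟨u, hu, rfl⟩)
      obtain ⟨T0, hT0⟩ := hsup
      obtain ⟨T, hT⟩ : ∃ T, T = s1 + s2 + s3 + T0 + n + encode Z := ⟨_, rfl⟩
      have hatt : ∀ s ≥ T, Att1 s (St s) n := by
        intro s hs
        refine ⟨encode Z, by omega, hin s, hs1 s (by omega), ?_, ?_⟩
        · rw [hqe, hlv, htk, Denumerable.ofNat_encode, hs2 s (by omega)]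
          exact We_mono (by omega) hs3
        · rw [hlv, Denumerable.ofNat_encode]
          intro u hu v hv
          have h6 := hsz u s (by have := hT0 u hu; omega)
          have h7 := hsz v s (by have := hT0 v hv; omega)
          have h8 := hZ u hu v hv
          simp only at h6 h7 h8
          rw [h6, h7, h8]
      obtain ⟨s, hs, hcd⟩ := ENF_mono (n + 1)
        (fun s => ((Finset.range (n + 1)).filter (fun m => m ∈ (St s).2)).card) (fun s => by
          refine Finset.card_le_card ?_
          intro m hm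
          rw [Finset.mem_filter] at hm ⊢
          exact ⟨hm.1, hG m s (s + 1) (by omega) hm.2⟩) (fun s => by
          refine (Finset.card_filter_le _ _).trans ?_
          rw [Finset.card_range]) T
      rcases h4 s (St s) with ⟨n', z, -, hr, hmin, hst⟩ | ⟨-, hno⟩
      · have hle : n' ≤ n := by
          by_contra hcon
          exact hmin n (by omega) (hatt s hs)
        have h7 : (St (s + 1)).2 = n' :: (St s).2 := by
          change (stp s (St s)).2 = _
          rw [hst]
        have hsub : (Finset.range (n + 1)).filter (fun m => m ∈ (St s).2) =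
            (Finset.range (n + 1)).filter (fun m => m ∈ (St (s + 1)).2) := by
          refine Finset.eq_of_subset_of_card_le ?_ hcd.le
          intro m hm
          rw [Finset.mem_filter] at hm ⊢
          exact ⟨hm.1, hG m s (s + 1) (by omega) hm.2⟩
        have h8 : n' ∈ (Finset.range (n + 1)).filter (fun m => m ∈ (St (s + 1)).2) := by
          rw [Finset.mem_filter]
          refine ⟨Finset.mem_range.2 (by omega), ?_⟩
          rw [h7]
          exact List.mem_cons_self
        rw [← hsub, Finset.mem_filter] at h8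
        exact hr.1 h8.2
      · exact hno n (by omega) (hatt s hs)

end Pool.Agent.DW
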