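import Pool.Agent.helper18.DW.SpecE

/-! Project DW (MP_a87378_lc), row EQV: the constructed relation is a ceer. -/

set_option autoImplicit false

namespace Pool.Agent.DW

open Encodable Pool.Agent.helper63.Diag Pool.Agent.helper63.Dg4 Pool.Agent.helper63.RV

theorem EQV (h1 : PST_stmt) (h2 : MRK_stmt) (h3 : LIM_stmt) : EQV_stmt := by
  obtain ⟨hA, -, hC, -, hE, -, -, -⟩ := h3
  refine ⟨⟨fun x => ⟨0, rfl⟩, fun ⟨s, hs⟩ => ⟨s, hs.symm⟩, ?_⟩, ?_, ?_⟩
  · rintro x y z ⟨s, hs⟩ ⟨t, ht⟩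
    exact ⟨max s t, (hC s _ x y (le_max_left _ _) hs).trans (hC t _ y z (le_max_right _ _) ht)⟩
  · refine re_of_s1 (S1.ex (A := fun (p : ℕ × ℕ) (s : ℕ) =>
      wr (St s).1 p.1 = wr (St s).1 p.2) (S1.prim ?_))
    have hR : Primrec (fun q : (ℕ × ℕ) × ℕ => (St q.2).1) :=
      Primrec.fst.comp (Primrec.comp (h1 : Primrec St) Primrec.snd)
    exact Primrec.eq.comp (prim_rt.comp hR (Primrec.fst.comp Primrec.fst))
      (prim_rt.comp hR (Primrec.snd.comp Primrec.fst))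
  · rintro ⟨s, hs⟩
    have h4 : wr (St s).1 0 = 0 := Nat.le_zero.1 (hA s 0).2
    have h5 := ((h2 (St s).1).1 1).1
    rw [hE s] at h5
    rw [h4, h5] at hs
    omega

end Pool.Agent.DW
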