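import Pool.Agent.helper18.DW.SpecE

/-! Project DW (MP_a87378_lc), row MGB: properties of the merging. -/

set_option autoImplicit false

namespace Pool.Agent.DW

open Encodable Pool.Agent.helper63.Diag Pool.Agent.helper63.Dg4 Pool.Agent.helper63.RV

theorem MGB_le_init (L : List ℕ) (a : ℕ) : L.foldr min a ≤ a := by
  induction L with
  | nil => exact le_rfl
  | cons b L ih => exact (min_le_right _ _).trans ih

theorem MGB_le_mem {L : List ℕ} {a y : ℕ} (h : y ∈ L) : L.foldr min a ≤ y := by
  induction L with
  | nil => simp at h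
  | cons b L ih =>
    rcases List.mem_cons.1 h with rfl | h
    · exact min_le_left _ _
    · exact (min_le_right _ _).trans (ih h)

theorem MGB_mem (L : List ℕ) (a : ℕ) : L.foldr min a = a ∨ L.foldr min a ∈ L := by
  induction L with
  | nil => exact Or.inl rfl
  | cons b L ih =>
    change min b (L.foldr min a) = a ∨ min b (L.foldr min a) ∈ b :: L
    rcases le_total b (L.foldr min a) with h | h
    · rw [min_eq_left h]
      exact Or.inr List.mem_cons_self
    · rw [min_eq_right h]
      rcases ih with h1 | h1
      · exact Or.inl h1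
      · exact Or.inr (List.mem_cons_of_mem _ h1)

theorem MGB_mem' {L : List ℕ} {a : ℕ} (ha : a ∈ L) : L.foldr min a ∈ L := by
  rcases MGB_mem L a with h | h
  · rw [h]; exact ha
  · exact h

theorem MGB_eq {L : List ℕ} {a b : ℕ} (ha : a ∈ L) (hb : b ∈ L) : L.foldr min a = L.foldr min b :=
  le_antisymm (MGB_le_mem (MGB_mem' hb)) (MGB_le_mem (MGB_mem' ha))

theorem MGB_le_sum {M : List ℕ} {m : ℕ} (h : m ∈ M) : m ≤ M.sum := List.single_le_sum (by simp) m h

theorem MGB_wr {R : List ℕ} (hR : WF R) (M : List ℕ) (z : ℕ) : wr (mg R M) z =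
    if wr R z ∈ M.map (wr R) then (M.map (wr R)).foldr min (wr R z) else wr R z := by
  by_cases hz : z < R.length + M.sum + 1
  · change ((mg R M)[z]?).getD z = _
    unfold mg
    rw [List.getElem?_map, List.getElem?_range hz]
    rfl
  · have h1 : wr (mg R M) z = z := by
      change ((mg R M)[z]?).getD z = z
      rw [List.getElem?_eq_none (by unfold mg; simp; omega)]
      rfl
    have h2 : wr R z = z := by
      change (R[z]?).getD z = z
      rw [List.getElem?_eq_none (by omega)]
      rfl
    rw [if_neg ?_, h1, h2]
    rw [h2]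
    intro hm
    obtain ⟨m, hm, hz2⟩ := List.mem_map.1 hm
    have h3 := (hR m).2
    have h4 := MGB_le_sum hm
    omega

theorem MGB : MGB_stmt := by
  intro R hR M
  have hw := MGB_wr hR M
  have hin : ∀ z, wr R z ∈ M.map (wr R) → wr (mg R M) z ∈ M.map (wr R) := by
    intro z hz
    rw [hw, if_pos hz]
    exact MGB_mem' hz
  have hout : ∀ z, wr R z ∉ M.map (wr R) → wr (mg R M) z = wr R z := by
    intro z hz
    rw [hw, if_neg hz]
  have heq : ∀ x y, wr R x ∈ M.map (wr R) → wr R y ∈ M.map (wr R) →
      wr (mg R M) x = wr (mg R M) y := by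
    intro x y hx hy
    rw [hw, hw, if_pos hx, if_pos hy]
    exact MGB_eq hx hy
  have hle : ∀ z, wr (mg R M) z ≤ wr R z := by
    intro z
    rw [hw]
    split_ifs
    · exact MGB_le_init _ _
    · exact le_rfl
  have hroot : ∀ y ∈ M.map (wr R), wr R y = y := by
    intro y hy
    obtain ⟨m, -, rfl⟩ := List.mem_map.1 hy
    exact (hR m).1
  refine ⟨fun z => ⟨?_, (hle z).trans (hR z).2⟩, hle, fun z hz => ?_, fun x y => ?_⟩
  · by_cases hz : wr R z ∈ M.map (wr R)
    · have h1 := hin z hz
      refine heq _ _ ?_ hz
      rw [hroot _ h1]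
      exact h1
    · rw [hout z hz]
      rw [hout _ (by rw [(hR z).1]; exact hz)]
      exact (hR z).1
  · by_cases h : z ∈ M.map (wr R)
    · have h1 : wr R z ∈ M.map (wr R) := by rw [hz]; exact h
      by_cases h2 : wr (mg R M) z = z
      · exact Or.inl h2
      · refine Or.inr ⟨h, wr (mg R M) z, hin z h1, ?_⟩
        have := hle z
        rw [hz] at this
        omega
    · left
      rw [hout z (by rw [hz]; exact h)]
      exact hz
  · by_cases hx : wr R x ∈ M.map (wr R)
    · by_cases hy : wr R y ∈ M.map (wr R)
      · exact ⟨fun _ => Or.inr ⟨hx, hy⟩, fun _ => heq x y hx hy⟩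
      · constructor
        · intro h
          exfalso
          apply hy
          rw [← hout y hy, ← h]
          exact hin x hx
        · rintro (h | ⟨-, h⟩)
          · exact absurd (h ▸ hx) hy
          · exact absurd h hy
    · by_cases hy : wr R y ∈ M.map (wr R)
      · constructor
        · intro h
          exfalso
          apply hx
          rw [← hout x hx, h]
          exact hin y hy
        · rintro (h | ⟨h, -⟩)
          · exact absurd (h.symm ▸ hy) hx
          · exact absurd h hx
      · rw [hout x hx, hout y hy]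
        exact ⟨fun h => Or.inl h, fun h => h.elim id (fun h => absurd h.1 hx)⟩

end Pool.Agent.DW
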