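import Pool.Agent.helper18.DW.SpecE

/-! Project DW (MP_a87378_lc), row MRK: markers and ranks. -/

set_option autoImplicit false

namespace Pool.Agent.DW

open Encodable Pool.Agent.helper63.Diag Pool.Agent.helper63.Dg4 Pool.Agent.helper63.RV

theorem MRK_root {R : List ℕ} {z : ℕ} (h : R.length ≤ z) : wr R z = z := by
  change (R[z]?).getD z = z
  rw [List.getElem?_eq_none h]
  rfl

theorem MRK_succ (R : List ℕ) (m : ℕ) :
    rl R (m + 1) = rl R m ++ (if wr R m = m then [m] else []) := by
  unfold rl
  rw [List.range_succ, List.filter_append]
  congr 1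
  by_cases h : wr R m = m
  · simp [h]
  · simp [h]

theorem MRK_rk_succ (R : List ℕ) (m : ℕ) :
    rk R (m + 1) = rk R m + (if wr R m = m then 1 else 0) := by
  unfold rk
  rw [MRK_succ, List.length_append]
  by_cases h : wr R m = m
  · simp [h]
  · simp [h]

theorem MRK_mono (R : List ℕ) {m m' : ℕ} (h : m ≤ m') : rk R m ≤ rk R m' := by
  induction m', h using Nat.le_induction with
  | base => exact le_rfl
  | succ m' _ ih =>
    rw [MRK_rk_succ]
    omega

theorem MRK_le (R : List ℕ) (m : ℕ) : rk R m ≤ m := by
  induction m with
  | zero => simp [rk, rl]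
  | succ m ih =>
    rw [MRK_rk_succ]
    split_ifs <;> omega

/-- a root is the entry with index its rank -/
theorem MRK_get (R : List ℕ) {z : ℕ} (hz : wr R z = z) {m : ℕ} (hm : z < m) :
    (rl R m).getD (rk R z) 0 = z := by
  induction m, hm using Nat.le_induction with
  | base =>
    rw [MRK_succ, if_pos hz, List.getD_eq_getElem?_getD]
    unfold rk
    rw [List.getElem?_append_right le_rfl]
    simp
  | succ m hm ih =>
    have h0 : rk R z < (rl R m).length := by
      have h1 : rk R (z + 1) ≤ rk R m := MRK_mono R hm
      rw [MRK_rk_succ, if_pos hz] at h1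
      change rk R z < rk R m
      omega
    rw [MRK_succ, List.getD_eq_getElem?_getD, List.getElem?_append_left h0,
      ← List.getD_eq_getElem?_getD]
    exact ih

/-- every number below the rank is the rank of a root -/
theorem MRK_ex (R : List ℕ) (m i : ℕ) (hi : i < rk R m) : ∃ z < m, wr R z = z ∧ rk R z = i := by
  induction m with
  | zero => simp [rk, rl] at hi
  | succ m ih =>
    by_cases h : i < rk R m
    · obtain ⟨z, hz, h1, h2⟩ := ih h
      exact ⟨z, by omega, h1, h2⟩
    · rw [MRK_rk_succ] at hi
      by_cases hm : wr R m = m
      · rw [if_pos hm] at hi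
        exact ⟨m, by omega, hm, by omega⟩
      · rw [if_neg hm] at hi
        omega

theorem MRK_len (R : List ℕ) (i : ℕ) : i < rk R (R.length + i + 1) := by
  have key : ∀ j, j ≤ rk R (R.length + j) := by
    intro j
    induction j with
    | zero => exact Nat.zero_le _
    | succ j ih =>
      have h1 : rk R (R.length + (j + 1)) = rk R (R.length + j) + 1 := by
        rw [← add_assoc, MRK_rk_succ, if_pos (MRK_root (by omega))]
      omega
  have := key (i + 1)
  rw [← add_assoc] at this
  omega

theorem MRK : MRK_stmt := by
  intro R
  refine ⟨fun i => ?_, fun z hz => ?_, fun m m' h => MRK_mono R h, fun z hz => ?_⟩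
  · obtain ⟨z, hz, h1, h2⟩ := MRK_ex R _ i (MRK_len R i)
    have h3 : mk R i = z := by
      unfold mk
      rw [← h2]
      rw [h2]
      have := MRK_get R h1 hz
      rw [h2] at this
      exact this
    rw [h3]
    refine ⟨h1, h2, ?_⟩
    rw [← h2]
    exact MRK_le R z
  · unfold mk
    refine MRK_get R hz ?_
    by_cases h : z < R.length
    · omega
    · have key : ∀ j, rk R (R.length + j) = rk R R.length + j := by
        intro j
        induction j with
        | zero => rfl
        | succ j ih =>
          rw [← add_assoc, MRK_rk_succ, if_pos (MRK_root (by omega)), ih]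
          omega
      have h1 := key (z - R.length)
      have h2 : R.length + (z - R.length) = z := by omega
      rw [h2] at h1
      omega
  · rw [MRK_rk_succ, if_pos hz]

end Pool.Agent.DW
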