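import Pool.Agent.helper18.DW.SpecE

/-! Project DW (MP_a87378_lc), row MST: the lower markers do not change. -/

set_option autoImplicit false

namespace Pool.Agent.DW

open Encodable Pool.Agent.helper63.Diag Pool.Agent.helper63.Dg4 Pool.Agent.helper63.RV

theorem MST (h1 : MGB_stmt) (h2 : MRK_stmt) : MST_stmt := by
  intro R n j Z hR hZ k hk
  obtain ⟨hm1, hm2, hm3, -⟩ := h2 R
  obtain ⟨-, hle, hrt, -⟩ := h1 R hR (mk R (n + 2) :: Z)
  have claim : ∀ r, wr R r = r → rk R r < min (n + 2) (j + 2) →
      wr (mg R (mk R (n + 2) :: Z)) r = r := by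
    intro r hr hrk
    obtain ⟨hx1, hx2, -⟩ := hm1 (n + 2)
    have hlt := lt_min_iff.1 hrk
    rcases hrt r hr with h | ⟨hrL, y, hyL, hyr⟩
    · exact h
    · exfalso
      obtain ⟨m, hm, hmr⟩ := List.mem_map.1 hrL
      obtain ⟨m', hm', hmy⟩ := List.mem_map.1 hyL
      have hmZ : m ∈ Z := by
        rcases List.mem_cons.1 hm with h | h
        · exfalso
          rw [h, hx1] at hmr
          rw [← hmr, hx2] at hlt
          omega
        · exact h
      have hcol : wc R j m = rk R r := by
        unfold wc
        rw [hmr, min_eq_left (by omega)]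
      rcases List.mem_cons.1 hm' with h | h
      · rw [h, hx1] at hmy
        have h3 : rk R (mk R (n + 2)) ≤ rk R r := hm3 _ _ (by rw [hmy]; exact hyr.le)
        rw [hx2] at h3
        omega
      · have h3 := hZ m' h m hmZ
        rw [hcol] at h3
        unfold wc at h3
        rw [hmy] at h3
        have h4 : rk R y = rk R r := by omega
        have hy : wr R y = y := by rw [← hmy]; exact (hR m').1
        have h5 := hm2 y hy
        rw [h4, hm2 r hr] at h5
        omega
  have hroots : ∀ z, wr (mg R (mk R (n + 2) :: Z)) z = z → wr R z = z := by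
    intro z hz
    have h3 := hle z
    have h4 := (hR z).2
    omega
  obtain ⟨hr1, hr2, -⟩ := hm1 k
  have hc := claim (mk R k) hr1 (by rw [hr2]; exact hk)
  have hrk : rk (mg R (mk R (n + 2) :: Z)) (mk R k) = rk R (mk R k) := by
    unfold rk rl
    congr 1
    apply List.filter_congr
    intro z hz
    rw [decide_eq_decide]
    constructor
    · exact hroots z
    · intro hzr
      refine claim z hzr (lt_of_le_of_lt (hm3 z (mk R k) (List.mem_range.1 hz).le) ?_)
      rw [hr2]
      exact hk
  have h6 := (h2 (mg R (mk R (n + 2) :: Z))).2.1 (mk R k) hc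
  rw [hrk, hr2] at h6
  exact h6

end Pool.Agent.DW
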