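import Pool.Agent.helper18.DW.SpecE

/-! Project DW (MP_a87378_lc), rows NST, FAC: what a stage does; finitely many active requirements of a level. -/

set_option autoImplicit false

namespace Pool.Agent.DW

open Encodable Pool.Agent.helper63.Diag Pool.Agent.helper63.Dg4 Pool.Agent.helper63.RV

theorem NST : NST_stmt := by
  intro s S
  have hspec : ∀ n' < nst s S, ¬ Att1 s S n' := by
    have := Nat.findGreatest_spec (P := fun n => ∀ n' < n, ¬ Att1 s S n') (Nat.zero_le (s + 1))
      (fun n' hn' => absurd hn' (by omega))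
    exact this
  by_cases h : nst s S < s + 1
  · left
    have hatt : Att1 s S (nst s S) := by
      by_contra hcon
      have h1 : ¬ (∀ n' < nst s S + 1, ¬ Att1 s S n') :=
        Nat.findGreatest_is_greatest (P := fun n => ∀ n' < n, ¬ Att1 s S n')
          (Nat.lt_succ_self (nst s S)) h
      apply h1
      intro n' hn'
      rcases Nat.lt_succ_iff_lt_or_eq.1 hn' with h2 | h2
      · exact hspec n' h2
      · rw [h2]; exact hcon
    obtain ⟨z, hz, hr⟩ := hatt
    have hz2 : Rdy s S (nst s S) (zst s S (nst s S)) :=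
      Nat.findGreatest_spec (P := fun z => Rdy s S (nst s S) z) (Nat.lt_succ_iff.1 hz) hr
    refine ⟨nst s S, zst s S (nst s S), h, hz2, hspec, ?_⟩
    unfold stp
    rw [if_pos h]
  · right
    refine ⟨by unfold stp; rw [if_neg h], fun n hn => hspec n (by omega)⟩

theorem FAC_val (c : Nat.Partrec.Code) (j : ℕ) :
    ∃ B, ∀ s, (Nat.Partrec.Code.evaln s c j).getD 0 ≤ B := by
  by_cases h : ∃ s v, v ∈ Nat.Partrec.Code.evaln s c j
  · obtain ⟨s, v, hv⟩ := h
    refine ⟨v, fun t => ?_⟩
    cases h1 : Nat.Partrec.Code.evaln t c j with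
    | none => exact Nat.zero_le _
    | some w =>
      have h2 := Nat.Partrec.Code.evaln_sound hv
      have h3 := Nat.Partrec.Code.evaln_sound (Option.mem_def.2 h1)
      have h4 := Part.mem_unique h3 h2
      rw [h4]
      exact le_rfl
  · refine ⟨0, fun t => ?_⟩
    cases h1 : Nat.Partrec.Code.evaln t c j with
    | none => exact Nat.zero_le _
    | some w => exact absurd ⟨t, w, Option.mem_def.2 h1⟩ h

theorem FAC : FAC_stmt := by
  intro k
  choose B hB using fun (e : ℕ) (j : ℕ) => FAC_val (Denumerable.ofNat Nat.Partrec.Code e) j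
  have hbd : ∃ N, ∀ a ≤ k, ∀ j ≤ k, B a.unpair.2 j ≤ N := by
    refine ⟨∑ a ∈ Finset.range (k + 1), ∑ j ∈ Finset.range (k + 1), B a.unpair.2 j,
      fun a ha j hj => ?_⟩
    have ha' : a ∈ Finset.range (k + 1) := Finset.mem_range.2 (by omega)
    have hj' : j ∈ Finset.range (k + 1) := Finset.mem_range.2 (by omega)
    have e1 : B a.unpair.2 j ≤ ∑ j ∈ Finset.range (k + 1), B a.unpair.2 j :=
      Finset.single_le_sum (f := fun j => B a.unpair.2 j) (fun _ _ => Nat.zero_le _) hj'
    have e2 : ∑ j ∈ Finset.range (k + 1), B a.unpair.2 j ≤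
        ∑ a ∈ Finset.range (k + 1), ∑ j ∈ Finset.range (k + 1), B a.unpair.2 j :=
      Finset.single_le_sum (f := fun a => ∑ j ∈ Finset.range (k + 1), B a.unpair.2 j)
        (fun _ _ => Nat.zero_le _) ha'
    exact e1.trans e2
  obtain ⟨N, hN⟩ := hbd
  have hfin : ∃ B', ∀ a ≤ k, ∀ j ≤ k, ∀ t < N, Nat.pair a (Nat.pair j t) < B' := by
    refine ⟨Nat.pair k (Nat.pair k N) + 1, fun a ha j hj t ht => Nat.lt_succ_of_le ?_⟩
    have hp : ∀ a a' b b' : ℕ, a ≤ a' → b ≤ b' → Nat.pair a b ≤ Nat.pair a' b' := by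
      intro a a' b b' h1 h2
      have h3 : Nat.pair a b ≤ Nat.pair a' b := by
        rcases h1.lt_or_eq with h | h
        · exact (Nat.pair_lt_pair_left b h).le
        · rw [h]
      have h4 : Nat.pair a' b ≤ Nat.pair a' b' := by
        rcases h2.lt_or_eq with h | h
        · exact (Nat.pair_lt_pair_right a' h).le
        · rw [h]
      exact h3.trans h4
    exact hp _ _ _ _ ha (hp _ _ _ _ hj ht.le)
  obtain ⟨B', hB'⟩ := hfin
  refine ⟨B', fun s n hact hlv => ?_⟩
  obtain ⟨h1, h2⟩ := hact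
  have h3 : n = Nat.pair n.unpair.1 (Nat.pair (lv n) (tk n)) := by
    unfold lv tk
    rw [Nat.pair_unpair, Nat.pair_unpair]
  rw [h3]
  refine hB' _ (h1.trans hlv) _ hlv _ ?_
  refine lt_of_lt_of_le h2 ?_
  exact (hB (qq n) (lv n) s).trans (hN _ (h1.trans hlv) _ hlv)

end Pool.Agent.DW
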