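import Pool.Agent.helper18.DW.SpecE

/-! Project DW (MP_a87378_lc), row PST: the construction is primitive recursive. -/

set_option autoImplicit false

namespace Pool.Agent.DW

open Encodable Pool.Agent.helper63.Diag Pool.Agent.helper63.Dg4 Pool.Agent.helper63.RV

theorem PST_wr : Primrec₂ wr := prim_rt

theorem PST_rl_eq (R : List ℕ) (m : ℕ) :
    rl R m = (List.range m).filterMap (fun z => if wr R z = z then some z else none) := by
  unfold rl
  induction m with
  | zero => rfl
  | succ m ih =>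
    rw [List.range_succ, List.filter_append, List.filterMap_append, ih]
    congr 1
    by_cases h : wr R m = m
    · simp [h]
    · simp [h]

theorem PST_rl : Primrec₂ rl := by
  have h : Primrec (fun p : List ℕ × ℕ => (List.range p.2).filterMap
      (fun z => if wr p.1 z = z then some z else none)) := by
    refine Primrec.listFilterMap (Primrec.list_range.comp Primrec.snd) ?_
    refine Primrec.ite (Primrec.eq.comp (PST_wr.comp (Primrec.fst.comp Primrec.fst) Primrec.snd)
      Primrec.snd) (Primrec.option_some.comp Primrec.snd) (Primrec.const none)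
  exact h.of_eq (fun p => (PST_rl_eq p.1 p.2).symm)

theorem PST_rk : Primrec₂ rk := Primrec.list_length.comp PST_rl

theorem PST_mk : Primrec₂ mk := by
  have h : Primrec (fun p : List ℕ × ℕ => (rl p.1 (p.1.length + p.2 + 1)).getD p.2 0) :=
    (Primrec.list_getD 0).comp (PST_rl.comp Primrec.fst (Primrec.succ.comp
      (Primrec.nat_add.comp (Primrec.list_length.comp Primrec.fst) Primrec.snd))) Primrec.snd
  exact h

theorem PST_wc : Primrec (fun p : (List ℕ × ℕ) × ℕ => wc p.1.1 p.1.2 p.2) := by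
  unfold wc
  have hR : Primrec (fun p : (List ℕ × ℕ) × ℕ => p.1.1) := Primrec.fst.comp Primrec.fst
  exact Primrec.nat_min.comp (PST_rk.comp hR (PST_wr.comp hR Primrec.snd))
    (Primrec.nat_add.comp (Primrec.snd.comp Primrec.fst) (Primrec.const 2))

theorem PST_sum : Primrec (fun M : List ℕ => M.sum) := by
  have h : Primrec (fun M : List ℕ => M.foldr (fun a s => a + s) 0) :=
    Primrec.list_foldr (f := fun M : List ℕ => M) (g := fun _ => 0)
      (h := fun (_ : List ℕ) (p : ℕ × ℕ) => p.1 + p.2) Primrec.id (Primrec.const 0)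
      (Primrec.nat_add.comp (Primrec.fst.comp Primrec.snd) (Primrec.snd.comp Primrec.snd))
  exact h.of_eq (fun M => by rw [List.sum_eq_foldr])

theorem PST_mg : Primrec₂ mg := by
  have hR : Primrec (fun w : (List ℕ × List ℕ) × ℕ => w.1.1) := Primrec.fst.comp Primrec.fst
  have hM : Primrec (fun w : (List ℕ × List ℕ) × ℕ => w.1.2) := Primrec.snd.comp Primrec.fst
  have hz : Primrec (fun w : (List ℕ × List ℕ) × ℕ => w.2) := Primrec.snd
  have hw : Primrec (fun w : (List ℕ × List ℕ) × ℕ => wr w.1.1 w.2) := PST_wr.comp hR hz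
  have hmap : Primrec (fun w : (List ℕ × List ℕ) × ℕ => w.1.2.map (wr w.1.1)) :=
    Primrec.list_map hM (PST_wr.comp (hR.comp Primrec.fst) Primrec.snd)
  have hmem : PrimrecPred (fun w : (List ℕ × List ℕ) × ℕ => wr w.1.1 w.2 ∈ w.1.2.map (wr w.1.1)) := by
    have h1 : PrimrecPred (fun w : (List ℕ × List ℕ) × ℕ =>
        ∃ y ∈ w.1.2.map (wr w.1.1), wr w.1.1 w.2 = y) :=
      PRex (R := fun (w : (List ℕ × List ℕ) × ℕ) (y : ℕ) => wr w.1.1 w.2 = y)
        (Primrec.eq.comp (hw.comp Primrec.fst) Primrec.snd) hmap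
    exact h1.of_eq (fun w => by simp)
  have hf : Primrec (fun w : (List ℕ × List ℕ) × ℕ =>
      (w.1.2.map (wr w.1.1)).foldr (fun a s => min a s) (wr w.1.1 w.2)) :=
    Primrec.list_foldr (f := fun w : (List ℕ × List ℕ) × ℕ => w.1.2.map (wr w.1.1))
      (g := fun w : (List ℕ × List ℕ) × ℕ => wr w.1.1 w.2)
      (h := fun (_ : (List ℕ × List ℕ) × ℕ) (p : ℕ × ℕ) => min p.1 p.2) hmap hw
      (Primrec.nat_min.comp (Primrec.fst.comp Primrec.snd) (Primrec.snd.comp Primrec.snd))
  have h : Primrec (fun p : List ℕ × List ℕ => (List.range (p.1.length + p.2.sum + 1)).map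
      (fun z => if wr p.1 z ∈ p.2.map (wr p.1) then
        (p.2.map (wr p.1)).foldr (fun a s => min a s) (wr p.1 z) else wr p.1 z)) := by
    refine Primrec.list_map (Primrec.list_range.comp (Primrec.succ.comp (Primrec.nat_add.comp
      (Primrec.list_length.comp Primrec.fst) (PST_sum.comp Primrec.snd)))) ?_
    exact Primrec.ite hmem hf hw
  exact h

theorem PST_u1 : Primrec (fun n : ℕ => n.unpair.1) := Primrec.fst.comp Primrec.unpair
theorem PST_u2 : Primrec (fun n : ℕ => n.unpair.2) := Primrec.snd.comp Primrec.unpair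
theorem PST_qe : Primrec qe := PST_u1.comp PST_u1
theorem PST_qq : Primrec qq := PST_u2.comp PST_u1
theorem PST_lv : Primrec lv := PST_u1.comp PST_u2
theorem PST_tk : Primrec tk := PST_u2.comp PST_u2

theorem PST_Act : PrimrecPred (fun p : ℕ × ℕ => Act p.1 p.2) := by
  unfold Act
  have hn : Primrec (fun p : ℕ × ℕ => p.2) := Primrec.snd
  refine PrimrecPred.and (Primrec.nat_le.comp (PST_u1.comp hn) (PST_lv.comp hn)) ?_
  refine Primrec.nat_lt.comp (PST_tk.comp hn) ?_
  exact Primrec.option_getD.comp (Nat.Partrec.Code.primrec_evaln.comp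
    (Primrec.pair (Primrec.pair Primrec.fst ((Primrec.ofNat _).comp (PST_qq.comp hn)))
      (PST_lv.comp hn))) (Primrec.const 0)

theorem PST_Mono1 : PrimrecPred (fun p : (List ℕ × ℕ) × List ℕ => Mono1 p.1.1 p.1.2 p.2) := by
  unfold Mono1
  refine PRall (R := fun (p : (List ℕ × ℕ) × List ℕ) (u : ℕ) =>
    ∀ v ∈ p.2, wc p.1.1 p.1.2 u = wc p.1.1 p.1.2 v) ?_ Primrec.snd
  refine PRall (R := fun (w : ((List ℕ × ℕ) × List ℕ) × ℕ) (v : ℕ) =>
    wc w.1.1.1 w.1.1.2 w.2 = wc w.1.1.1 w.1.1.2 v) ?_ (Primrec.snd.comp Primrec.fst)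
  refine Primrec.eq.comp ?_ ?_
  · exact PST_wc.comp (g := fun u : (((List ℕ × ℕ) × List ℕ) × ℕ) × ℕ => (u.1.1.1, u.1.2))
      (Primrec.pair (Primrec.fst.comp (Primrec.fst.comp Primrec.fst))
        (Primrec.snd.comp Primrec.fst))
  · exact PST_wc.comp (g := fun u : (((List ℕ × ℕ) × List ℕ) × ℕ) × ℕ => (u.1.1.1, u.2))
      (Primrec.pair (Primrec.fst.comp (Primrec.fst.comp Primrec.fst)) Primrec.snd)

theorem PST_mem : PrimrecPred (fun p : List ℕ × ℕ => p.2 ∈ p.1) := by
  have h1 : PrimrecPred (fun p : List ℕ × ℕ => ∃ y ∈ p.1, p.2 = y) :=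
    PRex (R := fun (p : List ℕ × ℕ) (y : ℕ) => p.2 = y)
      (Primrec.eq.comp (Primrec.snd.comp Primrec.fst) Primrec.snd) Primrec.fst
  exact h1.of_eq (fun p => by simp)

/-- stage, state, requirement, code -/
abbrev PTA : Type := ((ℕ × (List ℕ × List ℕ)) × ℕ) × ℕ

theorem PST_Rdy : PrimrecPred (fun w : PTA => Rdy w.1.1.1 w.1.1.2 w.1.2 w.2) := by
  unfold Rdy
  have hs : Primrec (fun w : PTA => w.1.1.1) := Primrec.fst.comp (Primrec.fst.comp Primrec.fst)
  have hS : Primrec (fun w : PTA => w.1.1.2) := Primrec.snd.comp (Primrec.fst.comp Primrec.fst)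
  have hR : Primrec (fun w : PTA => w.1.1.2.1) := Primrec.fst.comp hS
  have hL : Primrec (fun w : PTA => w.1.1.2.2) := Primrec.snd.comp hS
  have hn : Primrec (fun w : PTA => w.1.2) := Primrec.snd.comp Primrec.fst
  have hz : Primrec (fun w : PTA => w.2) := Primrec.snd
  have hZ : Primrec (fun w : PTA => Denumerable.ofNat (List ℕ) w.2) := (Primrec.ofNat _).comp hz
  have hlv : Primrec (fun w : PTA => lv w.1.2) := PST_lv.comp hn
  have hmk : Primrec (fun w : PTA => mk w.1.1.2.1 (w.1.2 + 2)) :=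
    PST_mk.comp hR (Primrec.nat_add.comp hn (Primrec.const 2))
  refine PrimrecPred.and ?_ (PrimrecPred.and ?_ (PrimrecPred.and ?_ ?_))
  · refine PrimrecPred.not ?_
    exact PST_mem.comp (f := fun w : PTA => (w.1.1.2.2, w.1.2)) (Primrec.pair hL hn)
  · exact PST_Act.comp (f := fun w : PTA => (w.1.1.1, w.1.2)) (Primrec.pair hs hn)
  · exact prim_We.comp (f := fun w : PTA => ((w.1.1.1, qe w.1.2), encode (lv w.1.2, tk w.1.2,
      mk w.1.1.2.1 (w.1.2 + 2), Denumerable.ofNat (List ℕ) w.2)))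
      (Primrec.pair (Primrec.pair hs (PST_qe.comp hn)) (Primrec.encode.comp
        (Primrec.pair hlv (Primrec.pair (PST_tk.comp hn) (Primrec.pair hmk hZ)))))
  · exact PST_Mono1.comp (f := fun w : PTA => ((w.1.1.2.1, lv w.1.2),
      Denumerable.ofNat (List ℕ) w.2)) (Primrec.pair (Primrec.pair hR hlv) hZ)

theorem PST_Att1 : PrimrecPred (fun w : (ℕ × (List ℕ × List ℕ)) × ℕ => Att1 w.1.1 w.1.2 w.2) := by
  unfold Att1
  exact PRexlt (R := fun (w : (ℕ × (List ℕ × List ℕ)) × ℕ) (z : ℕ) => Rdy w.1.1 w.1.2 w.2 z)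
    PST_Rdy (Primrec.succ.comp (Primrec.fst.comp Primrec.fst))

theorem PST_nst : Primrec₂ nst := by
  have h : Primrec (fun q : ℕ × (List ℕ × List ℕ) => Nat.findGreatest
      (fun n => ∀ n' < n, ¬ Att1 q.1 q.2 n') (q.1 + 1)) := by
    refine Primrec.nat_findGreatest (Primrec.succ.comp Primrec.fst) ?_
    refine PRalllt (R := fun (w : (ℕ × (List ℕ × List ℕ)) × ℕ) (n' : ℕ) =>
      ¬ Att1 w.1.1 w.1.2 n') ?_ Primrec.snd
    refine PrimrecPred.not ?_
    exact PST_Att1.comp (f := fun u : ((ℕ × (List ℕ × List ℕ)) × ℕ) × ℕ => (u.1.1, u.2))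
      (Primrec.pair (Primrec.fst.comp Primrec.fst) Primrec.snd)
  exact h

theorem PST_zst : Primrec (fun w : (ℕ × (List ℕ × List ℕ)) × ℕ => zst w.1.1 w.1.2 w.2) := by
  unfold zst
  exact Primrec.nat_findGreatest (Primrec.fst.comp Primrec.fst) PST_Rdy

theorem PST_stp : Primrec₂ stp := by
  have hnst : Primrec (fun q : ℕ × (List ℕ × List ℕ) => nst q.1 q.2) := PST_nst
  have hz : Primrec (fun q : ℕ × (List ℕ × List ℕ) => zst q.1 q.2 (nst q.1 q.2)) :=
    PST_zst.comp (Primrec.pair Primrec.id hnst)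
  have hR : Primrec (fun q : ℕ × (List ℕ × List ℕ) => q.2.1) := Primrec.fst.comp Primrec.snd
  have h : Primrec (fun q : ℕ × (List ℕ × List ℕ) =>
      if nst q.1 q.2 < q.1 + 1 then
        (mg q.2.1 (mk q.2.1 (nst q.1 q.2 + 2) :: Denumerable.ofNat (List ℕ)
          (zst q.1 q.2 (nst q.1 q.2))), nst q.1 q.2 :: q.2.2)
      else q.2) := by
    refine Primrec.ite (Primrec.nat_lt.comp hnst (Primrec.succ.comp Primrec.fst)) ?_ Primrec.snd
    refine Primrec.pair (PST_mg.comp hR (Primrec.list_cons.comp (PST_mk.comp hR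
      (Primrec.nat_add.comp hnst (Primrec.const 2))) ((Primrec.ofNat _).comp hz))) ?_
    exact Primrec.list_cons.comp hnst (Primrec.snd.comp Primrec.snd)
  exact h

theorem PST : PST_stmt := by
  have h : Primrec (fun k : ℕ => (Nat.rec ([], []) (fun s S => stp s S) k : List ℕ × List ℕ)) :=
    Primrec.nat_rec₁ _ PST_stp
  refine h.of_eq (fun k => ?_)
  induction k with
  | zero => rfl
  | succ k ih => simp only [St, ← ih]

end Pool.Agent.DW
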