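import Pool.Agent.helper18.DW.RR

/-! Project DW (MP_a87378_lc): the right-c.e. order, with one ceer. -/

set_option autoImplicit false

namespace Pool.Agent.DW

open Encodable Pool.Agent.helper63.Diag Pool.Agent.helper63.Dg4 Pool.Agent.helper63.RV

/-- a DNR function eventually below `hK` gives PA -/
theorem RPA_ev {X f : ℕ → ℕ} (hf : RI X f) (hdn : DN f) (hb : ∃ m, ∀ n ≥ m, f n < hK n) :
    ∃ d : ℕ → ℕ, ComputableFrom d X ∧ DN d ∧ ∀ e, d e < 2 := by
  classical
  obtain ⟨N, hN⟩ := hb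
  have ht : ∀ n, ∃ t < 2, t ∉ Nat.Partrec.Code.eval (Denumerable.ofNat Nat.Partrec.Code n) n := by
    intro n
    by_cases h : (0 : ℕ) ∈ Nat.Partrec.Code.eval (Denumerable.ofNat Nat.Partrec.Code n) n
    · exact ⟨1, by omega, fun h' => absurd (Part.mem_unique h h') (by omega)⟩
    · exact ⟨0, by omega, h⟩
  choose t ht1 ht2 using ht
  have hF : Primrec (fun u : ℕ => if u.unpair.1 < N then (res t N).getD u.unpair.1 0
      else u.unpair.2) := by
    have hf : Primrec (fun u : ℕ => u.unpair.1) := Primrec.fst.comp Primrec.unpair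
    have hs : Primrec (fun u : ℕ => u.unpair.2) := Primrec.snd.comp Primrec.unpair
    refine Primrec.ite (Primrec.nat_lt.comp hf (Primrec.const _)) ?_ hs
    exact (Primrec.list_getD 0).comp (Primrec.const _) hf
  have hG := (RI.prim (X := X) hF).comp ((RI.prim Primrec.id).pair hf)
  simp only [Nat.unpair_pair, id] at hG
  refine RPA X _ (RecursiveIn.iff_nat.2 hG) ?_ ?_
  · intro n v hv
    beta_reduce
    by_cases hn : n < N
    · rw [if_pos hn, res_getD t hn]
      exact fun h => ht2 n (h ▸ hv)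
    · rw [if_neg hn]
      exact hdn n v hv
  · intro n
    by_cases hn : n < N
    · rw [if_pos hn, res_getD t hn]
      exact lt_of_lt_of_le (ht1 n) (hK_two n)
    · rw [if_neg hn]
      exact hN n (not_lt.1 hn)

/-- a diagonal function for `E0` eventually below `hK (sqrt n)` gives PA -/
theorem RFN_E0 {X g : ℕ → ℕ} (hg : RI X g) (hd : ∀ x, ¬ E0 (g x) x)
    (hb : ∃ m, ∀ x ≥ m, g x < hK (Nat.sqrt x)) :
    ∃ d : ℕ → ℕ, ComputableFrom d X ∧ DN d ∧ ∀ e, d e < 2 := by
  obtain ⟨m, hm⟩ := hb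
  obtain ⟨e, he⟩ := idx part_diag
  refine RPA_ev (f := fun n => g (Nat.pair e n))
    (hg.comp (RI.prim (Primrec₂.natPair.comp (Primrec.const e) Primrec.id))) ?_
    ⟨max m (e + 1), fun n hn => ?_⟩
  · intro n v hv h
    apply hd (Nat.pair e n)
    have h5 : F (Nat.pair e n) v := (he n v).2 hv
    have h6 : g (Nat.pair e n) = v := h
    rw [h6]
    exact E0_equiv.symm (E0_of_F h5)
  · have h1 : m ≤ n := (le_max_left _ _).trans hn
    have h2 : e < n := (le_max_right _ _).trans hn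
    have h5 := hm (Nat.pair e n) (h1.trans (Nat.right_le_pair e n))
    rw [CFN_sqrt h2] at h5
    exact h5

/-- PA gives diagonal functions with two values -/
theorem RFN_two {X : ℕ → ℕ} (hX : ∃ d : ℕ → ℕ, ComputableFrom d X ∧ DN d ∧ ∀ e, d e < 2)
    {E : ℕ → ℕ → Prop} (hE : IsCeer E) (hn : ∃ a b, ¬ E a b) :
    ∃ g : ℕ → ℕ, ComputableFrom g X ∧ (∀ x, ¬ E (g x) x) ∧ ∃ B, ∀ x, g x ≤ B := by
  obtain ⟨d, hd, hdn, h2'⟩ := hX
  obtain ⟨a, b, hab⟩ := hn
  have hav : Av X 2 := av_two (RecursiveIn.iff_nat.1 hd) hdn h2'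
  have hre : REPred (fun p : ℕ × ℕ × ℕ => E p.2.1 p.2.2) := by
    have h5 : Computable (fun p : ℕ × ℕ × ℕ => (p.2.1, p.2.2)) := Computable.snd
    have := Partrec.comp hE.2 h5
    exact this
  obtain ⟨g, hg, h5⟩ := two_unif hav (E := fun _ => E) (fun _ => hE.1) hre
    (Computable.const a) (Computable.const b) (fun _ => hab)
  refine ⟨fun x => g (Nat.pair 0 x), RecursiveIn.iff_nat.2 (hg.comp (RI.prim
    (Primrec₂.natPair.comp (Primrec.const 0) Primrec.id))), fun x => (h5 0 x).2, max a b,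
    fun x => ?_⟩
  rcases (h5 0 x).1 with h | h
  · beta_reduce; rw [h]; exact le_max_left _ _
  · beta_reduce; rw [h]; exact le_max_right _ _

end Pool.Agent.DW
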