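import Pool.Agent.helper18.DW.LIM
import Pool.Agent.helper18.DW.MRK
import Pool.Agent.helper18.DW.MGB
import Pool.Agent.helper18.DW.MST
import Pool.Agent.helper18.DW.NST
import Pool.Agent.helper18.DW.ENF
import Pool.Agent.helper18.DW.EQV
import Pool.Agent.helper18.DW.PST
import Pool.Agent.helper18.DW.BIG
import Pool.Agent.helper18.DW.BCE
import Pool.Agent.helper18.DW.CD2
import Pool.Agent.helper18.DW.CD3
import Pool.Agent.helper18.DW.CD4
import Pool.Agent.helper18.DW.RS

/-! Project DW (MP_a87378_lc): the rows put together. -/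

set_option autoImplicit false

namespace Pool.Agent.DW

theorem LIM_all : LIM_stmt := LIM MGB MRK (MST MGB MRK) NST FAC

theorem BFN_all : BFN_stmt :=
  BFN PRO (EQV PST MRK LIM_all) (ENF MGB NST LIM_all) BD (BOR BM (BLN BN))
    (BFR BM BUN BX BF BN BCE BQQ) (BGN (BLN BN))

theorem CFN_all : CFN_stmt :=
  CFN PRO CIN (COR CSA CEX) (CCO CSA CEX)
    (CPA CSA CEX (CEE CKI) (CTU (CPR (CEE CKI))) (CNW CS2 CKI)) CST (CGN CSA CEX) CDX

end Pool.Agent.DW
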