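import Pool.Agent.helper18.DW.SpecB

/-! Project DW (MP_a87378_lc), rows PRO, BLN, BOR, BQQ, BFR, BGN. -/

set_option autoImplicit false

namespace Pool.Agent.DW

open Encodable Pool.Agent.helper63.Diag Pool.Agent.helper63.Dg4 Pool.Agent.helper63.RV

theorem PRO_le_max {L : List ℕ} {a : ℕ} (h : a ∈ L) : a ≤ L.foldr max 0 := by
  induction L with
  | nil => simp at h
  | cons b L ih =>
    rcases List.mem_cons.1 h with rfl | h
    · exact le_max_left _ _
    · exact (ih h).trans (le_max_right _ _)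

theorem PRO_max_le {L : List ℕ} {N : ℕ} (h : ∀ a ∈ L, a ≤ N) : L.foldr max 0 ≤ N := by
  induction L with
  | nil => exact Nat.zero_le _
  | cons b L ih =>
    exact max_le (h b List.mem_cons_self) (ih (fun a ha => h a (List.mem_cons_of_mem _ ha)))

theorem PRO : PRO_stmt := by
  intro h hh ho
  obtain ⟨c, hc⟩ := Nat.Partrec.Code.exists_code.1 (Partrec.nat_iff.1 hh.partrec)
  have hsound : ∀ n m v, Nat.Partrec.Code.evaln n c m = some v → v = h m := by
    intro n m v hv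
    have h1 := Nat.Partrec.Code.evaln_sound (Option.mem_def.2 hv)
    rw [hc] at h1
    exact Part.mem_some_iff.1 h1
  refine ⟨fun n => ((List.range (n + 1)).map
    (fun m => (Nat.Partrec.Code.evaln n c m).getD 0)).foldr max 0, ?_, ⟨?_, ?_⟩, ?_⟩
  · refine Primrec.list_foldr (f := fun n : ℕ => (List.range (n + 1)).map
      (fun m => (Nat.Partrec.Code.evaln n c m).getD 0)) (g := fun _ => 0)
      (h := fun (_ : ℕ) (p : ℕ × ℕ) => max p.1 p.2) ?_ (Primrec.const 0) ?_
    · refine Primrec.list_map (Primrec.list_range.comp Primrec.succ) ?_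
      exact Primrec.option_getD.comp (Nat.Partrec.Code.primrec_evaln.comp
        (Primrec.pair (Primrec.pair Primrec.fst (Primrec.const c)) Primrec.snd)) (Primrec.const 0)
    · exact Primrec.nat_max.comp (Primrec.fst.comp Primrec.snd) (Primrec.snd.comp Primrec.snd)
  · intro n n' hn
    refine PRO_max_le (fun a ha => ?_)
    obtain ⟨m, hm, rfl⟩ := List.mem_map.1 ha
    rw [List.mem_range] at hm
    cases h1 : Nat.Partrec.Code.evaln n c m with
    | none => exact Nat.zero_le _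
    | some v =>
      refine PRO_le_max (List.mem_map.2 ⟨m, List.mem_range.2 (by omega), ?_⟩)
      have h2 := Nat.Partrec.Code.evaln_mono hn (Option.mem_def.2 h1)
      rw [Option.mem_def.1 h2]
  · intro M
    obtain ⟨n0, hn0⟩ := ho.2 M
    have h1 : h n0 ∈ Nat.Partrec.Code.eval c n0 := by
      rw [hc]
      exact Part.mem_some _
    obtain ⟨k, hk⟩ := Nat.Partrec.Code.evaln_complete.1 h1
    refine ⟨max k n0, hn0.trans (PRO_le_max (List.mem_map.2 ⟨n0, List.mem_range.2 ?_, ?_⟩))⟩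
    · exact Nat.lt_succ_of_le (le_max_right _ _)
    · have h2 := Nat.Partrec.Code.evaln_mono (le_max_left k n0) hk
      rw [Option.mem_def.1 h2]
      rfl
  · intro n
    refine PRO_max_le (fun a ha => ?_)
    obtain ⟨m, hm, rfl⟩ := List.mem_map.1 ha
    rw [List.mem_range] at hm
    cases h1 : Nat.Partrec.Code.evaln n c m with
    | none => exact Nat.zero_le _
    | some v =>
      change v ≤ h n
      rw [hsound n m v h1]
      exact ho.1 (by omega)

theorem Abv_trans {H H' : ℕ → ℕ} {τ ξ ζ : List ℕ} (h1 : Abv H τ ξ) (h2 : Abv H' ξ ζ)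
    (hH : ∀ i, ξ.length ≤ i → H' i ≤ H i) : Abv H τ ζ := by
  obtain ⟨ρ, rfl, hρ⟩ := h1
  obtain ⟨ρ', rfl, hρ'⟩ := h2
  refine ⟨ρ ++ ρ', by rw [List.append_assoc], fun i hi => ?_⟩
  rw [List.length_append] at hi
  by_cases h : i < ρ.length
  · rw [List.getD_eq_getElem?_getD, List.getElem?_append_left h, ← List.getD_eq_getElem?_getD]
    exact hρ i h
  · rw [List.getD_eq_getElem?_getD, List.getElem?_append_right (by omega),
      ← List.getD_eq_getElem?_getD]
    have h3 := hρ' (i - ρ.length) (by omega)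
    have h4 := hH ((τ ++ ρ).length + (i - ρ.length)) (by omega)
    have h5 : (τ ++ ρ).length + (i - ρ.length) = τ.length + i := by
      rw [List.length_append]; omega
    rw [h5] at h3 h4
    omega

theorem BLN (hBN : BN_stmt) : BLN_stmt := by
  intro p n
  obtain ⟨ρ, h1, h2, h3⟩ := hBN p.H p.b p.B p.σ p.oH.1 p.le p.nb n
  have hle : p.b ≤ p.H (p.σ ++ ρ).length :=
    p.le.trans (p.oH.1 (by rw [List.length_append]; omega))
  refine ⟨{ p with σ := p.σ ++ ρ, nb := h3, le := hle }, ⟨⟨ρ, rfl, fun i hi => ?_⟩,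
    fun τ h => h, fun i _ => le_rfl⟩, ?_, rfl, rfl, rfl⟩
  · have h4 : ρ.getD i 0 ∈ ρ := by
      rw [List.getD_eq_getElem?_getD, List.getElem?_eq_getElem hi]
      simp
    exact lt_of_lt_of_le (h2 _ h4) (p.le.trans (p.oH.1 (by omega)))
  · change n ≤ (p.σ ++ ρ).length
    rw [List.length_append]
    omega

theorem BOR_ord {h h' : ℕ → ℕ} (ho : Ord h) (ho' : Ord h') : Ord (fun i => min (h i) (h' i)) := by
  refine ⟨fun i j hij => min_le_min (ho.1 hij) (ho'.1 hij), fun m => ?_⟩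
  obtain ⟨n1, h1⟩ := ho.2 m
  obtain ⟨n2, h2⟩ := ho'.2 m
  exact ⟨max n1 n2, le_min (h1.trans (ho.1 (le_max_left _ _))) (h2.trans (ho'.1 (le_max_right _ _)))⟩

theorem BOR (hBM : BM_stmt) (hBLN : BLN_stmt) : BOR_stmt := by
  intro p h hp ho
  obtain ⟨N, hN⟩ := ho.2 p.b
  obtain ⟨q, ⟨h1, h2, h3⟩, h4, h5, h6, h7⟩ := hBLN p N
  have hnb : ¬ Big (fun i => min (q.H i) (h i)) q.b q.B q.σ := by
    intro hb
    exact q.nb (hBM _ _ _ _ _ _ q.σ (fun i _ => min_le_left _ _) le_rfl (fun _ h => h) hb)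
  have hle : q.b ≤ min (q.H q.σ.length) (h q.σ.length) := by
    refine le_min q.le ?_
    rw [h5]
    exact hN.trans (ho.1 h4)
  refine ⟨{ q with H := fun i => min (q.H i) (h i), pH := Primrec.nat_min.comp q.pH hp,
                   oH := BOR_ord q.oH ho, nb := hnb, le := hle }, ⟨h1, h2, fun i hi => ?_⟩,
    fun i _ => min_le_right _ _⟩
  exact (min_le_left _ _).trans (h3 i hi)

theorem BQQ_sum : Primrec (fun M : List ℕ => M.sum) := by
  have h : Primrec (fun M : List ℕ => M.foldr (fun a s => a + s) 0) :=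
    Primrec.list_foldr (f := fun M : List ℕ => M) (g := fun _ => 0)
      (h := fun (_ : List ℕ) (p : ℕ × ℕ) => p.1 + p.2) Primrec.id (Primrec.const 0)
      (Primrec.nat_add.comp (Primrec.fst.comp Primrec.snd) (Primrec.snd.comp Primrec.snd))
  exact h.of_eq (fun M => by rw [List.sum_eq_foldr])

theorem BQQ : BQQ_stmt := by
  classical
  intro H b m hH ho
  have hex : ∀ j, ∃ l, (j + 4) * b ≤ H (m + l) := by
    intro j
    obtain ⟨n, hn⟩ := ho.2 ((j + 4) * b)
    exact ⟨n, hn.trans (ho.1 (by omega))⟩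
  have hP : PrimrecRel (fun j l : ℕ => (j + 4) * b ≤ H (m + l)) := by
    refine Primrec.nat_le.comp ?_ ?_
    · exact Primrec.nat_mul.comp (Primrec.nat_add.comp Primrec.fst (Primrec.const 4))
        (Primrec.const b)
    · exact hH.comp (Primrec.nat_add.comp (Primrec.const m) Primrec.snd)
  have hl : Computable (fun j => Nat.find (hex j)) :=
    Computable.find (P := fun j l : ℕ => (j + 4) * b ≤ H (m + l))
      (PrimrecPred.computablePred hP) hex
  refine ⟨fun j => Nat.find (hex j), fun j => ((strs b (Nat.find (hex j))).map encode).sum + 1,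
    ?_, fun j => Nat.find_spec (hex j), fun j τ h1 h2 => ?_⟩
  · have h1 : Primrec (fun k : ℕ => ((strs b k).map encode).sum + 1) :=
      Primrec.succ.comp (BQQ_sum.comp (Primrec.list_map (primrec_strs b)
        (Primrec.encode.comp Primrec.snd)))
    exact h1.to_comp.comp hl
  · refine Nat.lt_succ_of_le (List.single_le_sum (by simp) _ (List.mem_map.2 ⟨τ, ?_, rfl⟩))
    exact mem_strs.2 ⟨h1, h2⟩

theorem BFR_up {D : List ℕ → ℕ × ℕ → Prop} {a : ℕ × ℕ} {τ ρ : List ℕ} (h : mon D τ a) :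
    mon D (τ ++ ρ) a := by
  obtain ⟨j, hj, h1⟩ := h
  refine ⟨j, by rw [List.length_append]; omega, ?_⟩
  rw [List.take_append_of_le_length (by omega)]
  exact h1

theorem BFR (hBM : BM_stmt) (hBUN : BUN_stmt) (hBX : BX_stmt) (hBF : BF_stmt) (hBN : BN_stmt)
    (hBCE : BCE_stmt) (hBQQ : BQQ_stmt) : BFR_stmt := by
  classical
  intro E hE p D hD
  obtain ⟨l, q, hq, hl, hcode⟩ := hBQQ p.H p.b p.σ.length p.pH p.oH
  have hW : CE (fun a : ℕ × ℕ × ℕ × List ℕ => Big p.H p.b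
      (fun ξ => ∃ z ∈ a.2.2.2, mon D ξ (a.2.2.1, z))
      (p.σ ++ Denumerable.ofNat (List ℕ) a.2.1)) := by
    have h1 := hBCE p.H p.b (mon D) p.pH (prim_mon hD)
    refine h1.comp (f := fun a : ℕ × ℕ × ℕ × List ℕ =>
      (p.σ ++ Denumerable.ofNat (List ℕ) a.2.1, a.2.2.1, a.2.2.2)) ?_
    refine Primrec.pair ?_ (Primrec.pair (Primrec.fst.comp (Primrec.snd.comp Primrec.snd))
      (Primrec.snd.comp (Primrec.snd.comp Primrec.snd)))
    exact Primrec.list_append.comp (Primrec.const _)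
      ((Primrec.ofNat _).comp (Primrec.fst.comp Primrec.snd))
  obtain ⟨j, hj⟩ := hE _ q hW hq
  obtain ⟨τ, hτ1, hτ2, hτ3⟩ := hBN p.H p.b p.B p.σ p.oH.1 p.le p.nb (l j)
  have hcle : Abv p.H p.σ (p.σ ++ τ) := by
    refine ⟨τ, rfl, fun i hi => ?_⟩
    have h4 : τ.getD i 0 ∈ τ := by
      rw [List.getD_eq_getElem?_getD, List.getElem?_eq_getElem hi]
      simp
    exact lt_of_lt_of_le (hτ2 _ h4) (p.le.trans (p.oH.1 (by omega)))
  obtain ⟨x, hx⟩ := hj j le_rfl (encode τ) (hcode j τ hτ1 hτ2)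
  simp only [Denumerable.ofNat_encode] at hx
  rcases hx with ⟨Z, hWZ, hZ⟩ | ⟨c, hc, hcZ⟩
  · obtain ⟨ξ, ⟨z, hz, hDz⟩, habv, hnb⟩ := hBX _ _ p.B _ _ hWZ hτ3
    have habv' : Abv p.H p.σ ξ := Abv_trans hcle habv (fun i _ => le_rfl)
    have hle : p.b ≤ p.H ξ.length := by
      obtain ⟨ρ, hρ, -⟩ := habv'
      refine p.le.trans (p.oH.1 ?_)
      rw [hρ, List.length_append]
      omega
    refine ⟨{ p with σ := ξ, nb := hnb, le := hle }, ⟨habv', fun _ h => h, fun _ _ => le_rfl⟩,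
      fun f hf _ => ?_⟩
    have h1 : res f ξ.length = ξ := hf.1
    have h2 : ∃ k, mon D (res f k) (x, z) := ⟨ξ.length, by rw [h1]; exact hDz⟩
    obtain ⟨k, hk⟩ := (ex_mon f (x, z)).1 h2
    exact ⟨x, z, k, hk, hZ z hz⟩
  · have hnb : ¬ Big p.H ((j + 3 + 1) * p.b)
        (fun ξ => p.B ξ ∨ ∃ i < j + 3, (fun (i : ℕ) (ξ : List ℕ) => ∃ z, c z = i ∧
          mon D ξ (x, z)) i ξ) (p.σ ++ τ) := by
      refine hBUN p.H p.b (j + 3) p.B _ (p.σ ++ τ) hτ3 (fun i _ hbig => ?_)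
      obtain ⟨L, hL1, hL2⟩ := hBF _ _ _ _ hbig
      choose! zf hzf using hL1
      refine hcZ (L.map zf) ?_ ?_
      · intro u hu v hv
        obtain ⟨ξ, hξ, rfl⟩ := List.mem_map.1 hu
        obtain ⟨ζ, hζ, rfl⟩ := List.mem_map.1 hv
        rw [(hzf ξ hξ).1, (hzf ζ hζ).1]
      · refine hBM _ _ _ _ _ _ _ (fun _ _ => le_rfl) le_rfl ?_ hL2
        intro ξ hξ
        exact ⟨zf ξ, List.mem_map.2 ⟨ξ, hξ, rfl⟩, (hzf ξ hξ).2⟩
    have hle : (j + 3 + 1) * p.b ≤ p.H (p.σ ++ τ).length := by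
      rw [List.length_append, hτ1]
      exact hl j
    refine ⟨{ p with
        σ := p.σ ++ τ
        b := (j + 3 + 1) * p.b
        B := fun ξ => p.B ξ ∨ ∃ i < j + 3, (fun (i : ℕ) (ξ : List ℕ) => ∃ z, c z = i ∧
          mon D ξ (x, z)) i ξ
        up := fun ξ ρ h => ?_
        dv := fun ξ h => Or.inl (p.dv ξ h)
        nb := hnb
        le := hle }, ⟨hcle, fun _ h => Or.inl h, fun _ _ => le_rfl⟩, fun f hf hall => ?_⟩
    · rcases h with h | ⟨i, hi, z, hz, h⟩
      · exact Or.inl (p.up ξ ρ h)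
      · exact Or.inr ⟨i, hi, z, hz, BFR_up h⟩
    · exfalso
      obtain ⟨z, k, hk⟩ := hall x
      obtain ⟨k', hk'⟩ := (ex_mon f (x, z)).2 ⟨k, hk⟩
      exact hf.2 k' (Or.inr ⟨c z, hc.1 z, z, rfl, hk'⟩)

theorem Cle_trans {p q r : Cn} (h : Cle r q) (h' : Cle q p) : Cle r p := by
  obtain ⟨a1, a2, a3⟩ := h
  obtain ⟨b1, b2, b3⟩ := h'
  refine ⟨Abv_trans b1 a1 b3, fun τ hτ => a2 τ (b2 τ hτ), fun i hi => (a3 i hi).trans (b3 i ?_)⟩
  obtain ⟨ρ, hρ, -⟩ := a1
  rw [hρ, List.length_append] at hi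
  omega

theorem Cle_refl (p : Cn) : Cle p p :=
  ⟨⟨[], by simp, by simp⟩, fun _ h => h, fun _ _ => le_rfl⟩

theorem BGN (hBLN : BLN_stmt) : BGN_stmt := by
  classical
  intro DD hDD p0
  have step : ∀ (p : Cn) (m : ℕ), ∃ q, Cle q p ∧ m ≤ q.σ.length ∧ DD m.unpair.1 q := by
    intro p m
    obtain ⟨q, hq, hm, -⟩ := hBLN p m
    obtain ⟨r, hr, hD⟩ := hDD q m.unpair.1
    refine ⟨r, Cle_trans hr hq, ?_, hD⟩
    obtain ⟨⟨ρ, hρ, -⟩, -⟩ := hr
    rw [hρ, List.length_append]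
    omega
  choose F hF1 hF2 hF3 using step
  obtain ⟨s, hs0, hs⟩ : ∃ s : ℕ → Cn, s 0 = p0 ∧ ∀ m, s (m + 1) = F (s m) m :=
    ⟨fun m => Nat.rec p0 (fun m p => F p m) m, rfl, fun m => rfl⟩
  have hcle : ∀ m k, m ≤ k → Cle (s k) (s m) := by
    intro m k hmk
    induction k, hmk using Nat.le_induction with
    | base => exact Cle_refl _
    | succ k _ ih =>
      rw [hs k]
      exact Cle_trans (hF1 _ _) ih
  have hlen : ∀ m, m ≤ (s (m + 1)).σ.length := by
    intro m
    rw [hs m]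
    exact hF2 _ _
  have hpre : ∀ m k, m ≤ k → ∀ i < (s m).σ.length, (s k).σ.getD i 0 = (s m).σ.getD i 0 := by
    intro m k hmk i hi
    obtain ⟨⟨ρ, hρ, -⟩, -⟩ := hcle m k hmk
    rw [hρ, List.getD_eq_getElem?_getD, List.getElem?_append_left hi,
      ← List.getD_eq_getElem?_getD]
  obtain ⟨f, hf⟩ : ∃ f : ℕ → ℕ, ∀ i, f i = (s (i + 2)).σ.getD i 0 := ⟨_, fun i => rfl⟩
  have hfs : ∀ m, ∀ i < (s m).σ.length, f i = (s m).σ.getD i 0 := by
    intro m i hi
    rw [hf, ← hpre m (max m (i + 2)) (le_max_left _ _) i hi]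
    rw [← hpre (i + 2) (max m (i + 2)) (le_max_right _ _) i ?_]
    have := hlen (i + 1)
    change i < (s (i + 1 + 1)).σ.length
    omega
  have hres : ∀ m, res f (s m).σ.length = (s m).σ := by
    intro m
    apply List.ext_getElem
    · simp
    · intro i h1 h2
      have h3 := hfs m i h2
      rw [List.getD_eq_getElem?_getD, List.getElem?_eq_getElem h2] at h3
      simp only [res, List.getElem_map, List.getElem_range]
      exact h3
  refine ⟨s, f, hs0, fun i => ⟨Nat.pair i 0 + 1, ?_⟩, fun m => ⟨⟨hres m, fun k hk => ?_⟩,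
    fun i hi => ?_⟩⟩
  · rw [hs]
    have := hF3 (s (Nat.pair i 0)) (Nat.pair i 0)
    rw [Nat.unpair_pair] at this
    exact this
  · have h1 := (hcle m (max m (k + 1)) (le_max_left _ _)).2.1 _ hk
    have h2 : k ≤ (s (max m (k + 1))).σ.length := by
      have h3 := hlen k
      obtain ⟨⟨ρ, hρ, -⟩, -⟩ := hcle (k + 1) (max m (k + 1)) (le_max_right _ _)
      rw [hρ, List.length_append]
      omega
    have h4 : (s (max m (k + 1))).σ = res f k ++ (s (max m (k + 1))).σ.drop k := by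
      have h5 : res f k = (s (max m (k + 1))).σ.take k := by
        rw [← hres (max m (k + 1)), res_take f h2]
      rw [h5, List.take_append_drop]
    refine (s (max m (k + 1))).nb (Big.leaf _ ?_)
    rw [h4]
    exact (s (max m (k + 1))).up _ _ h1
  · obtain ⟨⟨ρ, hρ, hρ2⟩, -⟩ := hcle m (max m (i + 2)) (le_max_left _ _)
    have h2 : i < (s (max m (i + 2))).σ.length := by
      have h3 := hlen (i + 1)
      obtain ⟨⟨ρ', hρ', -⟩, -⟩ := hcle (i + 2) (max m (i + 2)) (le_max_right _ _)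
      rw [hρ', List.length_append]
      change i + 1 ≤ (s (i + 2)).σ.length at h3
      omega
    rw [hfs (max m (i + 2)) i h2, hρ, List.getD_eq_getElem?_getD,
      List.getElem?_append_right hi, ← List.getD_eq_getElem?_getD]
    rw [hρ, List.length_append] at h2
    have h4 := hρ2 (i - (s m).σ.length) (by omega)
    have h5 : (s m).σ.length + (i - (s m).σ.length) = i := by omega
    rw [h5] at h4
    exact h4

end Pool.Agent.DW
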