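import Pool.Agent.helper18.DW.SpecB
import Pool.Agent.helper18.DW.BFO

/-! Project DW (MP_a87378_lc), row BFN. -/

set_option autoImplicit false

namespace Pool.Agent.DW

open Encodable Pool.Agent.helper63.Diag Pool.Agent.helper63.Dg4 Pool.Agent.helper63.RV

theorem BFN_cnt : {h : ℕ → ℕ | Primrec h}.Countable := by
  have hinj : Function.Injective
      (fun (h : ℕ → ℕ) (_ : List ℕ) (a : ℕ × ℕ) => h a.1 = a.2) := by
    intro h h' he
    funext n
    have h1 := congrFun (congrFun he []) (n, h n)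
    have h2 : (h' n = h n) := by
      have h3 : (h n = h n) = (h' n = h n) := h1
      rw [← h3]
    exact h2.symm
  refine Set.Countable.mono ?_ (countable_primrecRel.preimage hinj)
  intro h hh
  show PrimrecRel (fun (_ : List ℕ) (a : ℕ × ℕ) => h a.1 = a.2)
  exact Primrec.eq.comp (Primrec.comp hh (Primrec.fst.comp Primrec.snd))
    (Primrec.snd.comp Primrec.snd)

theorem BFN (hPRO : PRO_stmt) (hEQV : EQV_stmt) (hENF : ENF_stmt) (hBD : BD_stmt)
    (hBOR : BOR_stmt) (hBFR : BFR_stmt) (hBGN : BGN_stmt) : BFN_stmt := by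
  classical
  obtain ⟨h1, h2, h3⟩ := hEQV
  -- the start
  have hup : ∀ τ ρ : List ℕ, DV τ → DV (τ ++ ρ) := by
    rintro τ ρ ⟨n, hn, hl⟩
    refine ⟨n, by rw [List.length_append]; omega, ?_⟩
    have : (τ ++ ρ).getD n 0 = τ.getD n 0 := by
      rw [List.getD_eq_getElem?_getD, List.getD_eq_getElem?_getD, List.getElem?_append_left hn]
    rw [this]
    exact hl
  let p0 : Cn :=
    { σ := []
      b := 2
      B := DV
      H := fun i => i + 2
      up := hup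
      dv := fun τ h => h
      pH := Primrec.nat_add.comp Primrec.id (Primrec.const 2)
      oH := ⟨fun a b hab => by show a + 2 ≤ b + 2; omega, fun m => ⟨m, Nat.le_add_right m 2⟩⟩
      nb := hBD _
      le := by simp }
  -- enumerations
  obtain ⟨eh, heh⟩ : ∃ eh : ℕ → (ℕ → ℕ), {h : ℕ → ℕ | Primrec h ∧ Ord h} = Set.range eh := by
    refine Set.Countable.exists_eq_range (BFN_cnt.mono fun h hh => hh.1) ?_
    exact ⟨p0.H, p0.pH, p0.oH⟩
  obtain ⟨eD, heD⟩ : ∃ eD : ℕ → (List ℕ → ℕ × ℕ → Prop),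
      {D : List ℕ → ℕ × ℕ → Prop | PrimrecRel D} = Set.range eD := by
    refine Set.Countable.exists_eq_range countable_primrecRel ?_
    refine ⟨fun _ a => a.1 = a.2, ?_⟩
    show PrimrecRel (fun (_ : List ℕ) (a : ℕ × ℕ) => a.1 = a.2)
    exact Primrec.eq.comp (Primrec.fst.comp Primrec.snd) (Primrec.snd.comp Primrec.snd)
  obtain ⟨s, f, hs0, hs1, hs2⟩ := hBGN (fun i q =>
      (∀ j, q.σ.length ≤ j → q.H j ≤ eh i j) ∧ ∀ f, Gd q f → Req (eD i) wE f) (by
    intro p i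
    have hi : eh i ∈ {h : ℕ → ℕ | Primrec h ∧ Ord h} := by rw [heh]; exact ⟨i, rfl⟩
    have hi' : eD i ∈ {D : List ℕ → ℕ × ℕ → Prop | PrimrecRel D} := by rw [heD]; exact ⟨i, rfl⟩
    obtain ⟨q1, hq1, hq2⟩ := hBOR p (eh i) hi.1 hi.2
    obtain ⟨q, hq3, hq4⟩ := hBFR wE hENF q1 (eD i) hi'
    refine ⟨q, Cle_trans hq3 hq1, fun j hj => ?_, hq4⟩
    obtain ⟨⟨ρ, hρ, -⟩, -, hH⟩ := hq3
    have hl : q1.σ.length ≤ q.σ.length := by rw [hρ, List.length_append]; omega
    exact (hH j hj).trans (hq2 j (hl.trans hj))) p0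
  refine ⟨wE, f, ⟨h1, h2⟩, ⟨0, 1, h3⟩, ?_, ?_, ?_⟩
  · -- DNR
    intro e m hm hfe
    obtain ⟨⟨-, hB⟩, -⟩ := hs2 0
    rw [hs0] at hB
    refine hB (e + 1) ⟨e, by simp, ?_⟩
    rw [res_getD f (Nat.lt_succ_self e), hfe]
    exact hm
  · -- slow
    intro h hh ho
    obtain ⟨h', hp', ho', hle⟩ := hPRO h hh ho
    have : h' ∈ Set.range eh := by rw [← heh]; exact ⟨hp', ho'⟩
    obtain ⟨i, hi⟩ := this
    obtain ⟨m, hm, -⟩ := hs1 i
    refine ⟨(s m).σ.length, fun x hx => ?_⟩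
    refine lt_of_lt_of_le ((hs2 m).2 x hx) ((hm x hx).trans ?_)
    rw [hi]
    exact hle x
  · -- no diagonal function
    rintro ⟨g, hg, hd⟩
    obtain ⟨D, hD, hD'⟩ := s1_graph (X := f) hg
    have : D ∈ Set.range eD := by rw [← heD]; exact hD
    obtain ⟨i, hi⟩ := this
    obtain ⟨m, -, hm⟩ := hs1 i
    have hr := hm f (hs2 m).1
    rw [hi] at hr
    obtain ⟨x, z, k, hk, he⟩ := hr (fun x => by
      obtain ⟨k, hk⟩ := (hD' (x, g x)).1 rfl
      exact ⟨g x, k, hk⟩)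
    have : g x = z := (hD' (x, z)).2 ⟨k, hk⟩
    exact hd x (this ▸ he)

end Pool.Agent.DW
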