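import Pool.Agent.helper18.DW.BFN
import Pool.Agent.helper18.DW.All

/-! Project DW (MP_a87378_lc), row BFP: row BFN with a countable family to be avoided. -/

set_option autoImplicit false

namespace Pool.Agent.DW

open Encodable Pool.Agent.helper63.Diag Pool.Agent.helper63.Dg4 Pool.Agent.helper63.RV

/-- the string `τ` takes a value of `ψ` at some argument `≥ m` -/
def SV (ψ : ℕ →. ℕ) (m : ℕ) (τ : List ℕ) : Prop := ∃ n, m ≤ n ∧ n < τ.length ∧ τ.getD n 0 ∈ ψ n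

theorem SV_up {ψ : ℕ →. ℕ} {m : ℕ} {τ ρ : List ℕ} (h : SV ψ m τ) : SV ψ m (τ ++ ρ) := by
  obtain ⟨n, h0, hn, hl⟩ := h
  refine ⟨n, h0, by rw [List.length_append]; omega, ?_⟩
  have : (τ ++ ρ).getD n 0 = τ.getD n 0 := by
    rw [List.getD_eq_getElem?_getD, List.getD_eq_getElem?_getD, List.getElem?_append_left hn]
  rw [this]
  exact hl

theorem SV_aux (H : ℕ → ℕ) (ψ : ℕ →. ℕ) (m : ℕ) (τ : List ℕ) (h : Big H 2 (SV ψ m) τ) :
    SV ψ m τ := by
  induction h with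
  | leaf τ h => exact h
  | node τ S hbS hS _ ih =>
    by_contra hcon
    have key : ∀ v ∈ S, v ∈ ψ τ.length := by
      intro v hv
      obtain ⟨n, hm, hn, h1⟩ := ih v hv
      rw [List.length_append, List.length_singleton] at hn
      rcases Nat.lt_succ_iff_lt_or_eq.1 hn with h2 | h2
      · exfalso
        apply hcon
        refine ⟨n, hm, h2, ?_⟩
        rw [List.getD_eq_getElem?_getD, List.getElem?_append_left h2,
          ← List.getD_eq_getElem?_getD] at h1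
        exact h1
      · rw [h2, List.getD_eq_getElem?_getD, List.getElem?_append_right le_rfl] at h1
        simpa using h1
    obtain ⟨v, hv, w, hw, hvw⟩ := Finset.one_lt_card.1 (lt_of_lt_of_le one_lt_two hbS)
    exact hvw (Part.mem_unique (key v hv) (key w hw))

theorem BAV (hBU : BU_stmt) (hBLN : BLN_stmt) (p : Cn) (ψ : ℕ →. ℕ) :
    ∃ q, Cle q p ∧ ∀ f, Gd q f → ∃ m, ∀ n ≥ m, f n ∉ ψ n := by
  obtain ⟨N, hN⟩ := p.oH.2 (p.b + 2)
  obtain ⟨q, ⟨h1, h2, h3⟩, h4, h5, h6, h7⟩ := hBLN p N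
  have hnb : ¬ Big q.H (q.b + 2) (fun τ => q.B τ ∨ SV ψ q.σ.length τ) q.σ := by
    intro hb
    rcases hBU _ _ _ _ _ _ hb with h | h
    · exact q.nb h
    · obtain ⟨n, h8, h9, -⟩ := SV_aux _ _ _ _ h
      omega
  have hle : q.b + 2 ≤ q.H q.σ.length := by
    rw [h5, h7]
    exact hN.trans (p.oH.1 h4)
  refine ⟨{ q with
      b := q.b + 2
      B := fun τ => q.B τ ∨ SV ψ q.σ.length τ
      up := fun τ ρ h => ?_
      dv := fun τ h => Or.inl (q.dv τ h)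
      nb := hnb
      le := hle }, ⟨h1, fun τ h => Or.inl (h2 τ h), h3⟩, fun f hf => ⟨q.σ.length, fun n hn hf' => ?_⟩⟩
  · rcases h with h | h
    · exact Or.inl (q.up τ ρ h)
    · exact Or.inr (SV_up h)
  · refine hf.2 (n + 1) (Or.inr ⟨n, hn, by simp, ?_⟩)
    rw [res_getD f (Nat.lt_succ_self n)]
    exact hf'

/-- one ceer for all countable families -/
theorem BFP : IsCeer wE ∧ (∃ a b, ¬ wE a b) ∧ ∀ Ψ : Set (ℕ →. ℕ), Ψ.Countable →
    ∃ f : ℕ → ℕ, DN f ∧ Slow f ∧ (∀ ψ ∈ Ψ, ∃ m, ∀ n ≥ m, f n ∉ ψ n) ∧ ¬ CompDiag f wE := by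
  classical
  have hEQV : EQV_stmt := EQV PST MRK LIM_all
  have hENF : ENF_stmt := ENF MGB NST LIM_all
  have hBLN : BLN_stmt := BLN BN
  obtain ⟨h1, h2, h3⟩ := hEQV
  refine ⟨⟨h1, h2⟩, ⟨0, 1, h3⟩, fun Ψ hΨ => ?_⟩
  -- the start
  have hup : ∀ τ ρ : List ℕ, DV τ → DV (τ ++ ρ) := by
    rintro τ ρ ⟨n, hn, hl⟩
    refine ⟨n, by rw [List.length_append]; omega, ?_⟩
    have : (τ ++ ρ).getD n 0 = τ.getD n 0 := by
      rw [List.getD_eq_getElem?_getD, List.getD_eq_getElem?_getD, List.getElem?_append_left hn]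
    rw [this]
    exact hl
  let p0 : Cn :=
    { σ := []
      b := 2
      B := DV
      H := fun i => i + 2
      up := hup
      dv := fun τ h => h
      pH := Primrec.nat_add.comp Primrec.id (Primrec.const 2)
      oH := ⟨fun a b hab => by show a + 2 ≤ b + 2; omega, fun m => ⟨m, Nat.le_add_right m 2⟩⟩
      nb := BD _
      le := by simp }
  -- enumerations
  obtain ⟨eh, heh⟩ : ∃ eh : ℕ → (ℕ → ℕ), {h : ℕ → ℕ | Primrec h ∧ Ord h} = Set.range eh := by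
    refine Set.Countable.exists_eq_range (BFN_cnt.mono fun h hh => hh.1) ?_
    exact ⟨p0.H, p0.pH, p0.oH⟩
  obtain ⟨eD, heD⟩ : ∃ eD : ℕ → (List ℕ → ℕ × ℕ → Prop),
      {D : List ℕ → ℕ × ℕ → Prop | PrimrecRel D} = Set.range eD := by
    refine Set.Countable.exists_eq_range countable_primrecRel ?_
    refine ⟨fun _ a => a.1 = a.2, ?_⟩
    show PrimrecRel (fun (_ : List ℕ) (a : ℕ × ℕ) => a.1 = a.2)
    exact Primrec.eq.comp (Primrec.fst.comp Primrec.snd) (Primrec.snd.comp Primrec.snd)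
  obtain ⟨eP, heP⟩ : ∃ eP : ℕ → (ℕ →. ℕ), insert (fun _ => Part.none) Ψ = Set.range eP :=
    Set.Countable.exists_eq_range (hΨ.insert _) ⟨_, Set.mem_insert _ _⟩
  obtain ⟨s, f, hs0, hs1, hs2⟩ := (BGN hBLN) (fun i q =>
      (∀ j, q.σ.length ≤ j → q.H j ≤ eh i j) ∧ (∀ f, Gd q f → Req (eD i) wE f) ∧
        ∀ f, Gd q f → ∃ m, ∀ n ≥ m, f n ∉ eP i n) (by
    intro p i
    have hi : eh i ∈ {h : ℕ → ℕ | Primrec h ∧ Ord h} := by rw [heh]; exact ⟨i, rfl⟩
    have hi' : eD i ∈ {D : List ℕ → ℕ × ℕ → Prop | PrimrecRel D} := by rw [heD]; exact ⟨i, rfl⟩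
    obtain ⟨q0, hq01, hq02⟩ := BAV BU hBLN p (eP i)
    obtain ⟨q1, hq1, hq2⟩ := (BOR BM hBLN) q0 (eh i) hi.1 hi.2
    obtain ⟨q, hq3, hq4⟩ := (BFR BM BUN BX BF BN BCE BQQ) wE hENF q1 (eD i) hi'
    refine ⟨q, Cle_trans hq3 (Cle_trans hq1 hq01), fun j hj => ?_, hq4, fun f hf => hq02 f ?_⟩
    · obtain ⟨⟨ρ, hρ, -⟩, -, hH⟩ := hq3
      have hl : q1.σ.length ≤ q.σ.length := by rw [hρ, List.length_append]; omega
      exact (hH j hj).trans (hq2 j (hl.trans hj))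
    · obtain ⟨⟨ρ, hρ, -⟩, hB, -⟩ := Cle_trans hq3 hq1
      refine ⟨?_, fun k hk => hf.2 k (hB _ hk)⟩
      have h4 := hf.1
      have h5 : q0.σ.length ≤ q.σ.length := by rw [hρ, List.length_append]; omega
      rw [← res_take f h5, h4, hρ, List.take_append_of_le_length le_rfl, List.take_length]) p0
  refine ⟨f, ?_, ?_, ?_, ?_⟩
  · -- DNR
    intro e m hm hfe
    obtain ⟨⟨-, hB⟩, -⟩ := hs2 0
    rw [hs0] at hB
    refine hB (e + 1) ⟨e, by simp, ?_⟩
    rw [res_getD f (Nat.lt_succ_self e), hfe]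
    exact hm
  · -- slow
    intro h hh ho
    obtain ⟨h', hp', ho', hle⟩ := PRO h hh ho
    have : h' ∈ Set.range eh := by rw [← heh]; exact ⟨hp', ho'⟩
    obtain ⟨i, hi⟩ := this
    obtain ⟨m, hm, -⟩ := hs1 i
    refine ⟨(s m).σ.length, fun x hx => ?_⟩
    refine lt_of_lt_of_le ((hs2 m).2 x hx) ((hm x hx).trans ?_)
    rw [hi]
    exact hle x
  · -- the family
    intro ψ hψ
    have : ψ ∈ Set.range eP := by rw [← heP]; exact Set.mem_insert_of_mem _ hψ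
    obtain ⟨i, rfl⟩ := this
    obtain ⟨m, -, -, hm⟩ := hs1 i
    exact hm f (hs2 m).1
  · -- no diagonal function
    rintro ⟨g, hg, hd⟩
    obtain ⟨D, hD, hD'⟩ := s1_graph (X := f) hg
    have : D ∈ Set.range eD := by rw [← heD]; exact hD
    obtain ⟨i, hi⟩ := this
    obtain ⟨m, -, hm, -⟩ := hs1 i
    have hr := hm f (hs2 m).1
    rw [hi] at hr
    obtain ⟨x, z, k, hk, he⟩ := hr (fun x => by
      obtain ⟨k, hk⟩ := (hD' (x, g x)).1 rfl
      exact ⟨g x, k, hk⟩)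
    have : g x = z := (hD' (x, z)).2 ⟨k, hk⟩
    exact hd x (this ▸ he)

end Pool.Agent.DW
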