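import Pool.Agent.helper18.DW.SpecC

/-! Project DW (MP_a87378_lc), rows CIN, CSA, CS2, CEX, COR, CST. -/

set_option autoImplicit false

namespace Pool.Agent.DW

open Encodable Pool.Agent.helper63.Diag Pool.Agent.helper63.Dg4 Pool.Agent.helper63.RV

theorem CSA_aux (p : CD) (v v' : ℕ → ℕ) (hv : v ∈ cls p.n p.Bad) (hv' : v' ∈ cls p.n p.Bad) :
    ∀ i, ∃ y, p.σ.length ≤ i → Al p v i y ∧ Al p v' i y := by
  intro i
  by_cases hi : p.σ.length ≤ i
  · by_cases hk : i.unpair.1 < p.k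
    · obtain ⟨c, hc, h1, h2⟩ := p.two (v i) (hv.1 i) (v' i) (hv'.1 i)
      have hlt : p.Z i.unpair.1 c < p.H i := (p.big _ hk c hc).trans_le (p.oH.1 hi)
      refine ⟨p.Z i.unpair.1 c, fun _ => ⟨⟨hlt, fun _ => ?_⟩, ⟨hlt, fun _ => ?_⟩⟩⟩
      · rw [p.rep v hv _ hk c hc]; exact h1
      · rw [p.rep v' hv' _ hk c hc]; exact h2
    · have hlt : 0 < p.H i := p.pos.trans_le (p.oH.1 hi)
      exact ⟨0, fun _ => ⟨⟨hlt, fun h => absurd h hk⟩, ⟨hlt, fun h => absurd h hk⟩⟩⟩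
  · exact ⟨0, fun h => absurd h hi⟩

theorem CSA_res {g : ℕ → ℕ} {σ : List ℕ} (h : ∀ i < σ.length, g i = σ.getD i 0) :
    res g σ.length = σ := by
  apply List.ext_getElem
  · simp
  · intro i h1 h2
    have h3 := h i h2
    rw [List.getD_eq_getElem?_getD, List.getElem?_eq_getElem h2] at h3
    simpa [res] using h3

theorem CSA : CSA_stmt := by
  intro p v τ hv hτ
  choose w hw using CSA_aux p v v hv hv
  have hl := length_le_of_take hτ.1
  refine ⟨fun i => if i < τ.length then τ.getD i 0 else w i, ?_, ?_, ?_⟩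
  · apply CSA_res
    intro i hi
    simp only [if_pos hi]
  · apply CSA_res
    intro i hi
    simp only [if_pos (hi.trans_le hl)]
    exact (getD_of_take hτ.1 hi).symm
  · intro i hi
    by_cases h : i < τ.length
    · simp only [if_pos h]
      exact hτ.2 i hi h
    · simp only [if_neg h]
      exact (hw i hi).1

theorem CS2 : CS2_stmt := by
  intro p v v' hv hv'
  choose w hw using CSA_aux p v v' hv hv'
  have h1 : res (fun i => if i < p.σ.length then p.σ.getD i 0 else w i) p.σ.length = p.σ := by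
    apply CSA_res
    intro i hi
    simp only [if_pos hi]
  refine ⟨_, ⟨h1, fun i hi => ?_⟩, ⟨h1, fun i hi => ?_⟩⟩
  · simp only [if_neg (not_lt.2 hi)]
    exact (hw i hi).1
  · simp only [if_neg (not_lt.2 hi)]
    exact (hw i hi).2

/-- the finite piece `ρ` shows that the pair of the colours of `a` and `b` is not allowed -/
def CEX_bad (al : List (ℕ × ℕ)) (a b : ℕ) (ρ : List ℕ) : Prop :=
  (a < ρ.length ∧ b < ρ.length) ∧ ¬ ∃ w ∈ al, ρ.getD a 0 = w.1 ∧ ρ.getD b 0 = w.2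

theorem CEX_prim (al : List (ℕ × ℕ)) (a b : ℕ) : PrimrecPred (CEX_bad al a b) := by
  unfold CEX_bad
  refine PrimrecPred.and (PrimrecPred.and ?_ ?_) (PrimrecPred.not ?_)
  · exact Primrec.nat_lt.comp (Primrec.const a) Primrec.list_length
  · exact Primrec.nat_lt.comp (Primrec.const b) Primrec.list_length
  · refine PRex (R := fun (ρ : List ℕ) (w : ℕ × ℕ) => ρ.getD a 0 = w.1 ∧ ρ.getD b 0 = w.2)
      (PrimrecPred.and ?_ ?_) (Primrec.const al)
    · exact Primrec.eq.comp ((Primrec.list_getD 0).comp Primrec.fst (Primrec.const a))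
        (Primrec.fst.comp Primrec.snd)
    · exact Primrec.eq.comp ((Primrec.list_getD 0).comp Primrec.fst (Primrec.const b))
        (Primrec.snd.comp Primrec.snd)

theorem CEX_const_and {α : Type} [Primcodable α] {X : ℕ → ℕ} (c : Prop) {A : α → Prop}
    (h : S1 X A) : S1 X (fun a => c ∧ A a) := by
  by_cases hc : c
  · exact h.of_iff (fun a => by simp [hc])
  · refine (S1.orlt (X := X) (A := fun _ : ℕ => A) 0 (fun i hi => absurd hi (by omega))).of_iff
      (fun a => ?_)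
    simp [hc]

/-- incompatibility with the entries `g i`, `s ≤ i < K` -/
def CEX_inc (s k : ℕ) (al : List (ℕ × ℕ)) (g : ℕ → ℕ) (K : ℕ) (ρ : List ℕ) : Prop :=
  ∃ i < K, (s ≤ i ∧ i.unpair.1 < k) ∧ CEX_bad al (Nat.pair i.unpair.1 (g i)) i ρ

theorem CEX_s1 (s k : ℕ) (al : List (ℕ × ℕ)) (g : ℕ → ℕ) (K : ℕ) : CE (CEX_inc s k al g K) :=
  S1.orlt K (fun _ _ => CEX_const_and _ (S1.prim (CEX_prim _ _ _)))

theorem CEX_ni {s k : ℕ} {al : List (ℕ × ℕ)} {g : ℕ → ℕ} {K : ℕ} {v : ℕ → ℕ} :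
    (∀ m, ¬ CEX_inc s k al g K (res v m)) ↔
      ∀ i, s ≤ i → i < K → i.unpair.1 < k → (v (Nat.pair i.unpair.1 (g i)), v i) ∈ al := by
  constructor
  · intro h2 i hi1 hi2 hi3
    by_contra hcon
    have ha : Nat.pair i.unpair.1 (g i) < Nat.pair i.unpair.1 (g i) + i + 1 := by omega
    have hb : i < Nat.pair i.unpair.1 (g i) + i + 1 := by omega
    refine h2 (Nat.pair i.unpair.1 (g i) + i + 1)
      ⟨i, hi2, ⟨hi1, hi3⟩, ⟨by rw [res_length]; exact ha, by rw [res_length]; exact hb⟩, ?_⟩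
    rw [res_getD v ha, res_getD v hb]
    rintro ⟨w, hw, h1, h3⟩
    apply hcon
    rw [h1, h3]
    exact hw
  · rintro h3 m ⟨i, hi, ⟨hi1, hi2⟩, ⟨ha, hb⟩, hne⟩
    rw [res_length] at ha hb
    rw [res_getD v ha, res_getD v hb] at hne
    exact hne ⟨_, h3 i hi1 hi hi2, rfl, rfl⟩

theorem CEX_mem {p : CD} {g : ℕ → ℕ} {K : ℕ} {v : ℕ → ℕ} :
    v ∈ cls p.n (fun ρ => p.Bad ρ ∨ CEX_inc p.σ.length p.k p.al g K ρ) ↔ v ∈ cls p.n p.Bad ∧
      ∀ i, p.σ.length ≤ i → i < K → i.unpair.1 < p.k →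
        (v (Nat.pair i.unpair.1 (g i)), v i) ∈ p.al := by
  rw [← CEX_ni]
  constructor
  · rintro ⟨h1, h2⟩
    exact ⟨⟨h1, fun k hk => h2 k (Or.inl hk)⟩, fun m hm => h2 m (Or.inr hm)⟩
  · rintro ⟨⟨h1, h2⟩, h3⟩
    refine ⟨h1, fun k hk => ?_⟩
    rcases hk with hk | hk
    · exact h2 k hk
    · exact h3 k hk

theorem CEX : CEX_stmt := by
  intro p v g K hv hg hK
  have hmem : v ∈ cls p.n (fun ρ => p.Bad ρ ∨ CEX_inc p.σ.length p.k p.al g K ρ) :=
    CEX_mem.2 ⟨hv, fun i hi _ hi3 => (hg.2 i hi).2 hi3⟩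
  have hHm : p.H p.σ.length ≤ p.H (res g K).length := p.oH.1 (by rw [res_length]; exact hK)
  refine ⟨{ p with
    σ := res g K
    Bad := fun ρ => p.Bad ρ ∨ CEX_inc p.σ.length p.k p.al g K ρ
    re := p.re.or (CEX_s1 _ _ _ _ _)
    pos := p.pos.trans_le hHm
    inv := fun v hv => p.inv v (CEX_mem.1 hv).1
    rep := fun v hv => p.rep v (CEX_mem.1 hv).1
    zero := fun v hv => p.zero v (CEX_mem.1 hv).1
    big := fun κ hκ c hc => (p.big κ hκ c hc).trans_le hHm
    ne := ⟨v, hmem⟩ }, ⟨fun κ h => ⟨h, rfl⟩, ?_, ?_⟩, rfl, ?_, hmem, rfl, rfl, rfl, rfl, rfl, rfl⟩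
  · show (res g K).take p.σ.length = p.σ
    rw [res_take g hK, hg.1]
  · rintro g' ⟨w, hw, h1, hw2⟩
    have h1' : res g' K = res g K := by
      have : res g' (res g K).length = res g K := h1
      rwa [res_length] at this
    have hag : ∀ i < K, g' i = g i := res_inj h1'
    obtain ⟨hw3, hw4⟩ := CEX_mem.1 (show w ∈ cls p.n (fun ρ => p.Bad ρ ∨
      CEX_inc p.σ.length p.k p.al g K ρ) from hw)
    refine ⟨w, hw3, ?_, fun i hi => ?_⟩
    · rw [← res_take g' hK, h1', res_take g hK, hg.1]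
    · by_cases hiK : i < K
      · rw [hag i hiK]
        exact ⟨(hg.2 i hi).1, fun h => hw4 i hi hiK h⟩
      · exact hw2 i (by
          show (res g K).length ≤ i
          rw [res_length]; omega)
  · refine ⟨?_, fun i hi => ?_⟩
    · show res g (res g K).length = res g K
      rw [res_length]
    · have hi' : (res g K).length ≤ i := hi
      rw [res_length] at hi'
      exact hg.2 i (hK.trans hi')

/-- the order can be made smaller -/
theorem COR_shrink (p : CD) (h : ℕ → ℕ) (hh : Primrec h) (ho : Ord h) (h0 : 0 < h p.σ.length)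
    (hb : ∀ κ < p.k, ∀ c < p.n, p.Z κ c < h p.σ.length) :
    ∃ q, Lc q p ∧ ∀ i, q.σ.length ≤ i → q.H i ≤ h i := by
  refine ⟨{ p with
    H := fun i => min (p.H i) (h i)
    pH := Primrec.nat_min.comp p.pH hh
    oH := ⟨fun a b hab => min_le_min (p.oH.1 hab) (ho.1 hab), fun m => by
      obtain ⟨n, hn⟩ := p.oH.2 m
      obtain ⟨n', hn'⟩ := ho.2 m
      exact ⟨max n n', le_min (hn.trans (p.oH.1 (le_max_left _ _)))
        (hn'.trans (ho.1 (le_max_right _ _)))⟩⟩
    pos := lt_min p.pos h0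
    big := fun κ hκ c hc => lt_min (p.big κ hκ c hc) (hb κ hκ c hc) },
    ⟨fun κ hκ => ⟨hκ, rfl⟩, ?_, ?_⟩, fun i _ => min_le_right _ _⟩
  · show p.σ.take p.σ.length = p.σ
    simp
  · rintro g ⟨w, hw, h1, h2⟩
    refine ⟨w, hw, h1, fun i hi => ?_⟩
    obtain ⟨h3, h4⟩ := h2 i hi
    exact ⟨lt_of_lt_of_le h3 (min_le_left _ _), h4⟩

theorem COR_bound (Z : ℕ → ℕ → ℕ) (k n : ℕ) : ∃ N, ∀ κ < k, ∀ c < n, Z κ c < N := by
  refine ⟨(Finset.range k).sup (fun κ => (Finset.range n).sup (fun c => Z κ c)) + 1,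
    fun κ hκ c hc => ?_⟩
  have h1 : Z κ c ≤ (Finset.range n).sup (fun c => Z κ c) :=
    Finset.le_sup (f := fun c => Z κ c) (Finset.mem_range.2 hc)
  have h2 : (Finset.range n).sup (fun c => Z κ c) ≤
      (Finset.range k).sup (fun κ => (Finset.range n).sup (fun c => Z κ c)) :=
    Finset.le_sup (f := fun κ => (Finset.range n).sup (fun c => Z κ c)) (Finset.mem_range.2 hκ)
  exact Nat.lt_succ_of_le (h1.trans h2)

theorem Lc_trans {p q r : CD} (h : Lc r q) (h' : Lc q p) : Lc r p := by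
  obtain ⟨h1, h2, h3⟩ := h
  obtain ⟨h1', h2', h3'⟩ := h'
  refine ⟨fun κ hκ => ?_, ?_, fun g hg => h3' g (h3 g hg)⟩
  · obtain ⟨ha, hb⟩ := h1' κ hκ
    obtain ⟨hc, hd⟩ := h1 κ ha
    exact ⟨hc, hd.trans hb⟩
  · have hl := length_le_of_take h2'
    have : r.σ.take p.σ.length = (r.σ.take q.σ.length).take p.σ.length := by
      rw [List.take_take, Nat.min_eq_left hl]
    rw [this, h2, h2']

/-- lengthening -/
theorem CLE (hCSA : CSA_stmt) (hCEX : CEX_stmt) (p : CD) (K : ℕ) :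
    ∃ q : CD, Lc q p ∧ K ≤ q.σ.length ∧ p.σ.length ≤ q.σ.length ∧ q.k = p.k ∧ q.ce = p.ce ∧
      q.n = p.n ∧ q.al = p.al ∧ q.Z = p.Z ∧ q.H = p.H := by
  obtain ⟨v, hv⟩ := p.ne
  obtain ⟨g, -, hg⟩ := hCSA p v p.σ hv ⟨by simp, fun i h1 h2 => absurd h2 (by omega)⟩
  obtain ⟨q, h1, h2, -, -, h3, h4, h5, h6, h7, h8⟩ :=
    hCEX p v g (max K p.σ.length) hv hg (le_max_right _ _)
  refine ⟨q, h1, ?_, ?_, h3, h4, h5, h6, h7, h8⟩
  · rw [h2, res_length]; exact le_max_left _ _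
  · rw [h2, res_length]; exact le_max_right _ _

theorem COR (hCSA : CSA_stmt) (hCEX : CEX_stmt) : COR_stmt := by
  intro p h hh ho
  obtain ⟨N, hN⟩ := COR_bound p.Z p.k p.n
  obtain ⟨K, hK⟩ := ho.2 (N + 1)
  obtain ⟨q, h1, h2, -, h3, h4, h5, h6, h7, h8⟩ := CLE hCSA hCEX p K
  have h9 : N + 1 ≤ h q.σ.length := hK.trans (ho.1 h2)
  obtain ⟨r, hr1, hr2⟩ := COR_shrink q h hh ho (by omega) (fun κ hκ c hc => by
    rw [h7]
    rw [h3] at hκ
    rw [h5] at hc
    have := hN κ hκ c hc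
    omega)
  exact ⟨r, Lc_trans hr1 h1, hr2⟩

theorem CST : CST_stmt := by
  rintro ⟨C⟩
  have hmem : ∀ v, v ∈ cls 3 (fun ρ : List ℕ => ∃ c ∈ ρ, ¬ c = 0) → ∀ i, v i = 0 := by
    rintro v ⟨-, h2⟩ i
    by_contra h
    refine h2 (i + 1) ⟨v i, ?_, h⟩
    unfold res
    exact List.mem_map.2 ⟨i, by simp, rfl⟩
  refine ⟨{
    k := 0
    ce := fun _ => C
    σ := []
    n := 3
    al := [(0, 1), (0, 2), (1, 0), (1, 2), (2, 0), (2, 1)]
    Z := fun _ _ => 0
    Bad := fun ρ => ∃ c ∈ ρ, ¬ c = 0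
    H := fun i => i + 1
    re := S1.prim (PRex (R := fun (_ : List ℕ) (c : ℕ) => ¬ c = 0)
      (PrimrecPred.not (Primrec.eq.comp Primrec.snd (Primrec.const 0))) Primrec.id)
    pH := Primrec.succ
    oH := ⟨fun a b hab => Nat.succ_le_succ hab, fun m => ⟨m, Nat.le_succ m⟩⟩
    pos := by simp
    irr := by
      intro c hc
      simp only [List.mem_cons, Prod.mk.injEq, List.not_mem_nil, or_false] at hc
      omega
    two := by
      intro d hd d' hd'
      have h1 : d = 0 ∨ d = 1 ∨ d = 2 := by omega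
      have h2 : d' = 0 ∨ d' = 1 ∨ d' = 2 := by omega
      rcases h1 with rfl | rfl | rfl <;> rcases h2 with rfl | rfl | rfl
      · exact ⟨1, by omega, by simp⟩
      · exact ⟨2, by omega, by simp⟩
      · exact ⟨1, by omega, by simp⟩
      · exact ⟨2, by omega, by simp⟩
      · exact ⟨0, by omega, by simp⟩
      · exact ⟨0, by omega, by simp⟩
      · exact ⟨1, by omega, by simp⟩
      · exact ⟨0, by omega, by simp⟩
      · exact ⟨0, by omega, by simp⟩
    inv := fun v _ κ hκ => absurd hκ (by omega)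
    rep := fun v _ κ hκ => absurd hκ (by omega)
    zero := fun v hv κ _ x => hmem v hv _
    big := fun κ hκ => absurd hκ (by omega)
    ne := ⟨fun _ => 0, fun _ => Nat.succ_pos 2, by
      rintro k ⟨c, hc, h0⟩
      unfold res at hc
      obtain ⟨_, -, rfl⟩ := List.mem_map.1 hc
      exact h0 rfl⟩ }, rfl, rfl⟩

theorem CIN : CIN_stmt := by
  classical
  rintro E ⟨hE, hre⟩ ⟨a, b, hab⟩ hno
  refine ⟨⟨E, hE, S1.of_re hre, hno, ?_⟩, rfl⟩
  by_contra hfin
  push Not at hfin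
  obtain ⟨L, hL⟩ := hfin
  let T : List ℕ := L.map (fun y => if E a y then b else a)
  have hA : REPred (fun p : ℕ × ℕ => p.2 < L.length ∧ E p.1 (L.getD p.2 0)) := by
    refine re_of_s1 (S1.and ?_ ?_)
    · exact S1.prim (Primrec.nat_lt.comp Primrec.snd (Primrec.const _))
    · exact (S1.of_re hre).comp (Primrec.pair Primrec.fst
        ((Primrec.list_getD 0).comp (Primrec.const L) Primrec.snd))
  obtain ⟨ψ, hψ, h1, h2⟩ := select hA
  have hdom : ∀ x, (ψ x).Dom := by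
    intro x
    apply h2
    obtain ⟨y, hy, hxy⟩ := hL x
    obtain ⟨i, hi, hiy⟩ := List.getElem_of_mem hy
    refine ⟨i, hi, ?_⟩
    show E x (L.getD i 0)
    rw [List.getD_eq_getElem?_getD, List.getElem?_eq_getElem hi]
    simpa [hiy] using hxy
  have hc : Computable (fun x => (ψ x).get (hdom x)) :=
    Partrec.of_eq_tot hψ (fun x => Part.get_mem _)
  have hT : ∀ i < L.length, T.getD i 0 = if E a (L.getD i 0) then b else a := by
    intro i hi
    simp [T, List.getD_eq_getElem?_getD, hi]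
  apply hno
  refine ⟨fun x => T.getD ((ψ x).get (hdom x)) 0, ?_, ⟨max a b, fun x => ?_⟩, fun x hx => ?_⟩
  · exact (Primrec.list_getD 0).to_comp.comp (Computable.const T) hc
  · obtain ⟨h3, -⟩ := h1 x _ (Part.get_mem (hdom x))
    beta_reduce
    rw [hT _ h3]
    split_ifs
    · exact le_max_right _ _
    · exact le_max_left _ _
  · obtain ⟨h3, h4⟩ := h1 x _ (Part.get_mem (hdom x))
    beta_reduce at hx
    rw [hT _ h3] at hx
    split_ifs at hx with h5
    · exact hab (hE.trans h5 (hE.symm (hE.trans hx h4)))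
    · exact h5 (hE.trans hx h4)

end Pool.Agent.DW
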