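import Pool.Agent.helper18.DW.CD1
import Pool.Agent.helper18.DW.BFN

/-! Project DW (MP_a87378_lc), rows CGN, CDX, CFN. -/

set_option autoImplicit false

namespace Pool.Agent.DW

open Encodable Pool.Agent.helper63.Diag Pool.Agent.helper63.Dg4 Pool.Agent.helper63.RV

theorem Lc_refl (p : CD) : Lc p p := ⟨fun _ h => ⟨h, rfl⟩, by simp, fun _ h => h⟩

theorem CGN_sat (hCSA : CSA_stmt) (p : CD) : ∃ g, Sc p g := by
  obtain ⟨v, hv⟩ := p.ne
  obtain ⟨g, -, hg⟩ := hCSA p v p.σ hv ⟨by simp, fun i h1 h2 => absurd h2 (by omega)⟩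
  exact ⟨g, v, hv, hg⟩

theorem CGN_closed (p : CD) (i y : ℕ) : IsClosed {v : ℕ → ℕ | Al p v i y} := by
  have h1 : {v : ℕ → ℕ | Al p v i y} = {_v : ℕ → ℕ | y < p.H i} ∩
      ({_v : ℕ → ℕ | ¬ i.unpair.1 < p.k} ∪
        (fun v : ℕ → ℕ => (v (Nat.pair i.unpair.1 y), v i)) ⁻¹' {w | w ∈ p.al}) := by
    ext v
    constructor
    · rintro ⟨h3, h4⟩
      refine ⟨h3, ?_⟩
      by_cases h5 : i.unpair.1 < p.k
      · exact Or.inr (h4 h5)
      · exact Or.inl h5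
    · rintro ⟨h3, h4⟩
      exact ⟨h3, fun h5 => h4.resolve_left (fun h6 => h6 h5)⟩
  rw [h1]
  refine IsClosed.inter isClosed_const (IsClosed.union isClosed_const ?_)
  exact (isClosed_discrete _).preimage ((continuous_apply _).prodMk (continuous_apply _))

theorem CGN_limit (p : CD) (g : ℕ → ℕ) (h : ∀ k, ∃ g', Sc p g' ∧ ∀ i < k, g' i = g i) :
    Sc p g := by
  let S : ℕ → Set (ℕ → ℕ) := fun k => {v | (∀ j ≤ k, ¬ p.Bad (res v j)) ∧
    ∀ i < k, p.σ.length ≤ i → Al p v i (g i)}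
  obtain ⟨v, hv1, hv2⟩ := compactness (n := p.n) S (fun k => by
    have h1 : S k = (⋂ j, ⋂ (_ : j ≤ k), {v | ¬ p.Bad (res v j)}) ∩
        (⋂ i, ⋂ (_ : i < k), ⋂ (_ : p.σ.length ≤ i), {v | Al p v i (g i)}) := by
      ext v
      simp only [S, Set.mem_ofPred_eq, Set.mem_inter_iff, Set.mem_iInter]
    rw [h1]
    refine IsClosed.inter (isClosed_iInter fun j => isClosed_iInter fun _ =>
      (isClopen_dep j (fun l => ¬ p.Bad l)).isClosed) ?_
    exact isClosed_iInter fun i => isClosed_iInter fun _ => isClosed_iInter fun _ =>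
      CGN_closed p i (g i)) (fun k => by
    obtain ⟨g', ⟨v, hv, -, h2⟩, h4⟩ := h k
    refine ⟨v, hv.1, fun j hj => ⟨fun j' _ => hv.2 j', fun i hi hi2 => ?_⟩⟩
    rw [← h4 i (by omega)]
    exact h2 i hi2)
  refine ⟨v, ⟨hv1, fun k => (hv2 k).1 k le_rfl⟩, ?_, fun i hi => (hv2 (i + 1)).2 i (by omega) hi⟩
  obtain ⟨g', ⟨_, _, h1, _⟩, h2⟩ := h p.σ.length
  have h3 : res g p.σ.length = res g' p.σ.length := res_congr (fun i hi => (h2 i hi).symm)
  rw [h3]
  exact h1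

theorem CGN (hCSA : CSA_stmt) (hCEX : CEX_stmt) : CGN_stmt := by
  classical
  intro DD hden p0
  have step : ∀ (m : ℕ) (p : CD), ∃ q : CD, Lc q p ∧ m + 1 ≤ q.σ.length ∧ DD m.unpair.1 q := by
    intro m p
    obtain ⟨q', h1, h2, -⟩ := CLE hCSA hCEX p (m + 1)
    obtain ⟨q, h3, h4⟩ := hden q' m.unpair.1
    exact ⟨q, Lc_trans h3 h1, h2.trans (length_le_of_take h3.2.1), h4⟩
  choose nxt hn1 hn2 hn3 using step
  let seq : ℕ → CD := fun m => Nat.rec p0 (fun m s => nxt m s) m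
  have hseq : ∀ m, seq (m + 1) = nxt m (seq m) := fun m => rfl
  have hle : ∀ m k, m ≤ k → Lc (seq k) (seq m) := by
    intro m k h
    induction h with
    | refl => exact Lc_refl _
    | step h ih =>
      rename_i k
      rw [hseq]
      exact Lc_trans (hn1 k (seq k)) ih
  have hlen : ∀ m, m ≤ (seq m).σ.length := by
    intro m
    cases m with
    | zero => omega
    | succ m => rw [hseq]; exact hn2 m (seq m)
  let g : ℕ → ℕ := fun i => (seq (i + 1)).σ.getD i 0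
  have hg : ∀ m, res g (seq m).σ.length = (seq m).σ := by
    intro m
    apply CSA_res
    intro i h2
    show (seq (i + 1)).σ.getD i 0 = _
    rcases le_total (i + 1) m with h | h
    · exact getD_of_take (hle _ _ h).2.1 (hlen (i + 1))
    · exact (getD_of_take (hle _ _ h).2.1 h2).symm
  refine ⟨seq, g, rfl, hle, fun i => ?_, fun m => ?_⟩
  · refine ⟨Nat.pair i 0 + 1, ?_⟩
    have h := hn3 (Nat.pair i 0) (seq (Nat.pair i 0))
    rw [Nat.unpair_pair] at h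
    exact h
  · refine CGN_limit _ g (fun k => ?_)
    obtain ⟨g', hg'⟩ := CGN_sat hCSA (seq (max m k))
    refine ⟨g', (hle _ _ (le_max_left m k)).2.2 g' hg', fun i hi => ?_⟩
    obtain ⟨w, -, hw, -⟩ := hg'
    have h5 : res g' (seq (max m k)).σ.length = res g (seq (max m k)).σ.length := by
      rw [hw, hg]
    refine res_inj h5 i (lt_of_lt_of_le hi ?_)
    exact (le_max_right m k).trans (hlen _)

theorem CDX : CDX_stmt := by
  classical
  rintro p X ⟨v, hv, h1, h2⟩ κ hκ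
  have hT : ∀ x, ∃ y, ¬ (p.ce κ).E y x := by
    intro x
    obtain ⟨y, hy⟩ := (p.ce κ).inf [x]
    exact ⟨y, hy x List.mem_cons_self⟩
  choose T hT using hT
  have hF : Primrec (fun u : ℕ => if u.unpair.1 < p.σ.length then
      (res T p.σ.length).getD u.unpair.1 0 else u.unpair.2) := by
    have hf : Primrec (fun u : ℕ => u.unpair.1) := Primrec.fst.comp Primrec.unpair
    have hs : Primrec (fun u : ℕ => u.unpair.2) := Primrec.snd.comp Primrec.unpair
    refine Primrec.ite (Primrec.nat_lt.comp hf (Primrec.const _)) ?_ hs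
    exact (Primrec.list_getD 0).comp (Primrec.const _) hf
  have hX : RI X (fun x => X (Nat.pair κ x)) :=
    (RI.oracle (X := X)).comp (RI.prim (Primrec₂.natPair.comp (Primrec.const κ) Primrec.id))
  have hG := (RI.prim (X := X) hF).comp ((RI.prim Primrec.id).pair hX)
  simp only [Nat.unpair_pair] at hG
  refine ⟨_, RecursiveIn.iff_nat.2 hG, fun x => ?_, p.σ.length, fun x hx => ?_⟩
  · by_cases hx : x < p.σ.length
    · simp only [id, hx, if_true]
      rw [res_getD T hx]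
      exact hT x
    · simp only [id, hx, if_false]
      intro hE
      have hle : p.σ.length ≤ Nat.pair κ x := (not_lt.1 hx).trans (Nat.right_le_pair κ x)
      have h3 := (h2 _ hle).2
      simp only [Nat.unpair_pair] at h3
      have h4 := h3 hκ
      rw [p.inv v hv κ hκ _ _ hE] at h4
      exact p.irr _ h4
  · simp only [id, not_lt.2 hx, if_false]

theorem CFN_sqrt {κ x : ℕ} (h : κ < x) : Nat.sqrt (Nat.pair κ x) = x := by
  unfold Nat.pair
  rw [if_pos h]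
  exact Nat.sqrt_add_eq x (by omega)

theorem CFN_cnt : Countable HF := by
  have h1 : Countable {E : ℕ → ℕ → Prop | REPred fun p : ℕ × ℕ => E p.1 p.2} :=
    countable_ceer.to_subtype
  let f : HF → {E : ℕ → ℕ → Prop | REPred fun p : ℕ × ℕ => E p.1 p.2} :=
    fun c => ⟨c.E, re_of_s1 c.ce⟩
  have hf : Function.Injective f := by
    rintro ⟨E, a, b, c, d⟩ ⟨E', a', b', c', d'⟩ h
    simp only [f, Subtype.mk.injEq] at h
    subst h
    rfl
  exact hf.countable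

theorem CFN_ord {h : ℕ → ℕ} (ho : Ord h) : Ord (fun i => h (Nat.sqrt i)) := by
  refine ⟨fun a b hab => ho.1 (Nat.sqrt_le_sqrt hab), fun m => ?_⟩
  obtain ⟨n, hn⟩ := ho.2 m
  exact ⟨n * n, by beta_reduce; rw [Nat.sqrt_eq]; exact hn⟩

theorem CFN_pa {X : ℕ → ℕ} {D : List ℕ → ℕ × ℕ → Prop} {f : ℕ → ℕ} (hf : DN f)
    (h2 : ∀ e, f e < 2) (hD : ∀ a : ℕ × ℕ, f a.1 = a.2 ↔ ∃ k, D (res X k) a)
    (hr : ReqY D (fun _ => 2) X) : False := by
  obtain ⟨e, m, h3, h4⟩ := hr (fun e => ⟨f e, h2 e, (hD (e, f e)).1 rfl⟩)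
  exact hf e m h3 ((hD (e, m)).2 h4)

theorem CFN (hPRO : PRO_stmt) (hCIN : CIN_stmt) (hCOR : COR_stmt) (hCCO : CCO_stmt)
    (hCPA : CPA_stmt) (hCST : CST_stmt) (hCGN : CGN_stmt) (hCDX : CDX_stmt) : CFN_stmt := by
  classical
  have hfr : ∀ (X : ℕ → ℕ) (E : ℕ → ℕ → Prop),
      (∃ g : ℕ → ℕ, Computable g ∧ (∃ B, ∀ x, g x ≤ B) ∧ ∀ x, ¬ E (g x) x) →
      ∃ g : ℕ → ℕ, ComputableFrom g X ∧ (∀ x, ¬ E (g x) x) ∧ Slow g := by
    rintro X E ⟨g, hg, ⟨B, hB⟩, hd⟩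
    refine ⟨g, RecursiveIn.iff_nat.2 (RI.computable hg), hd, fun h _ ho => ?_⟩
    obtain ⟨n, hn⟩ := ho.2 (B + 1)
    refine ⟨n, fun x hx => ?_⟩
    have h1 := hB x
    have h2 := ho.1 hx
    omega
  by_cases hne : Nonempty HF
  · have := CFN_cnt
    obtain ⟨p0, -⟩ := hCST hne
    obtain ⟨eC, heC⟩ := exists_surjective_nat HF
    obtain ⟨eh, heh⟩ : ∃ eh : ℕ → (ℕ → ℕ), {h : ℕ → ℕ | Primrec h ∧ Ord h} = Set.range eh := by
      refine Set.Countable.exists_eq_range (BFN_cnt.mono fun h hh => hh.1) ?_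
      exact ⟨p0.H, p0.pH, p0.oH⟩
    obtain ⟨eD, heD⟩ : ∃ eD : ℕ → (List ℕ → ℕ × ℕ → Prop),
        {D : List ℕ → ℕ × ℕ → Prop | PrimrecRel D} = Set.range eD := by
      refine Set.Countable.exists_eq_range countable_primrecRel ?_
      refine ⟨fun _ a => a.1 = a.2, ?_⟩
      show PrimrecRel (fun (_ : List ℕ) (a : ℕ × ℕ) => a.1 = a.2)
      exact Primrec.eq.comp (Primrec.fst.comp Primrec.snd) (Primrec.snd.comp Primrec.snd)
    obtain ⟨s, X, -, -, hs, hX⟩ := hCGN (fun i q => (∃ κ < q.k, q.ce κ = eC i) ∧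
        (∃ m, ∀ g, Sc q g → ∀ j ≥ m, g j < eh i j) ∧
        ∀ g, Sc q g → ReqY (eD i) (fun _ => 2) g) (by
      intro p i
      have hi : eh i ∈ {h : ℕ → ℕ | Primrec h ∧ Ord h} := by rw [heh]; exact ⟨i, rfl⟩
      have hi' : eD i ∈ {D : List ℕ → ℕ × ℕ → Prop | PrimrecRel D} := by rw [heD]; exact ⟨i, rfl⟩
      obtain ⟨q1, hq1, κ, hκ, hκ2⟩ := hCCO p (eC i)
      obtain ⟨q2, hq2, hH⟩ := hCOR q1 (eh i) hi.1 hi.2
      obtain ⟨q3, hq3, hR⟩ := hCPA q2 (eD i) hi'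
      refine ⟨q3, Lc_trans hq3 (Lc_trans hq2 hq1), ⟨κ, ?_⟩, ⟨q2.σ.length, ?_⟩, hR⟩
      · obtain ⟨h1, h2⟩ := (Lc_trans hq3 hq2).1 κ hκ
        exact ⟨h1, h2.trans hκ2⟩
      · intro g hg j hj
        obtain ⟨v, -, -, h1⟩ := hq3.2.2 g hg
        exact lt_of_lt_of_le (h1 j hj).1 (hH j hj)) p0
    refine ⟨X, ?_, ?_⟩
    · rintro ⟨f, hf, hdn, h2⟩
      obtain ⟨D, hD, hD'⟩ := s1_graph (X := X) hf
      have : D ∈ Set.range eD := by rw [← heD]; exact hD
      obtain ⟨i, hi⟩ := this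
      obtain ⟨m, -, -, hm⟩ := hs i
      have hr := hm X (hX m)
      rw [hi] at hr
      exact CFN_pa hdn h2 hD' hr
    · intro E hE hab
      by_cases hfin : ∃ g : ℕ → ℕ, Computable g ∧ (∃ B, ∀ x, g x ≤ B) ∧ ∀ x, ¬ E (g x) x
      · exact hfr X E hfin
      · obtain ⟨C, hC⟩ := hCIN E hE hab hfin
        obtain ⟨i, hi⟩ := heC C
        obtain ⟨m, ⟨κ, hκ, hκ2⟩, -, -⟩ := hs i
        obtain ⟨g, hg, hd, m2, hm2⟩ := hCDX (s m) X (hX m) κ hκ
        rw [hκ2, hi, hC] at hd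
        refine ⟨g, hg, hd, fun h hh ho => ?_⟩
        obtain ⟨h', hp', ho', hle⟩ := hPRO h hh ho
        have : (fun i => h' (Nat.sqrt i)) ∈ Set.range eh := by
          rw [← heh]
          exact ⟨Primrec.comp (g := Nat.sqrt) hp' Primrec.nat_sqrt, CFN_ord ho'⟩
        obtain ⟨i', hi'⟩ := this
        obtain ⟨m', -, ⟨m1, hm1⟩, -⟩ := hs i'
        refine ⟨max (max m1 m2) (κ + 1), fun x hx => ?_⟩
        have hx1 : m1 ≤ x := (le_max_left _ _).trans ((le_max_left _ _).trans hx)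
        have hx2 : m2 ≤ x := (le_max_right _ _).trans ((le_max_left _ _).trans hx)
        have hx3 : κ < x := (le_max_right _ _).trans hx
        have h3 := hm1 X (hX m') (Nat.pair κ x) (hx1.trans (Nat.right_le_pair κ x))
        rw [hi'] at h3
        have h4 : X (Nat.pair κ x) < h' (Nat.sqrt (Nat.pair κ x)) := h3
        rw [CFN_sqrt hx3] at h4
        rw [hm2 x hx2]
        exact lt_of_lt_of_le h4 (hle x)
  · refine ⟨fun _ => 0, ?_, fun E hE hab => ?_⟩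
    · rintro ⟨f, hf, hdn, h2⟩
      obtain ⟨e, m, h3, h4⟩ := Pr.zero {fun _ => 2} _ rfl _ (s1_graph (X := fun _ => 0) hf)
        (fun e => ⟨f e, h2 e, rfl⟩)
      exact hdn e m h3 h4
    · by_cases hfin : ∃ g : ℕ → ℕ, Computable g ∧ (∃ B, ∀ x, g x ≤ B) ∧ ∀ x, ¬ E (g x) x
      · exact hfr _ E hfin
      · obtain ⟨C, -⟩ := hCIN E hE hab hfin
        exact absurd ⟨C⟩ hne

end Pool.Agent.DW
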