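import Pool.Agent.helper18.DW.SpecE

/-! Project DW (MP_a87378_lc), row LIM: the limit of the construction. -/

set_option autoImplicit false

namespace Pool.Agent.DW

open Encodable Pool.Agent.helper63.Diag Pool.Agent.helper63.Dg4 Pool.Agent.helper63.RV

theorem LIM_const (N : ℕ) : ∀ a : ℕ → ℕ, Monotone a → (∀ s, a s ≤ N) → ∃ s0, ∀ s ≥ s0, a s = a s0 := by
  induction N with
  | zero =>
    intro a _ h
    exact ⟨0, fun s _ => by have := h s; have := h 0; omega⟩
  | succ N ih =>
    intro a ha h
    by_cases h1 : ∃ s1, a s1 = N + 1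
    · obtain ⟨s1, hs1⟩ := h1
      refine ⟨s1, fun s hs => ?_⟩
      have h2 := ha hs
      have h3 := h s
      omega
    · push Not at h1
      refine ih a ha (fun s => ?_)
      have h2 := h1 s
      have h3 := h s
      omega

/-- one step -/
theorem LIM_step (h4 : NST_stmt) (s : ℕ) : St (s + 1) = St s ∨ ∃ n Z, n ∉ (St s).2 ∧ Act s n ∧
    Mono1 (St s).1 (lv n) Z ∧ St (s + 1) = (mg (St s).1 (mk (St s).1 (n + 2) :: Z), n :: (St s).2) := by
  rcases h4 s (St s) with ⟨n, z, -, hr, -, hst⟩ | ⟨hst, -⟩
  · obtain ⟨h1, h2, -, h3⟩ := hr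
    exact Or.inr ⟨n, Denumerable.ofNat (List ℕ) z, h1, h2, h3, hst⟩
  · exact Or.inl hst

theorem LIM_ind (P : ℕ → ℕ → Prop) (h0 : ∀ s, P s s) (h1 : ∀ s t, s ≤ t → P s t → P s (t + 1)) :
    ∀ s t, s ≤ t → P s t := by
  intro s t hst
  induction t, hst using Nat.le_induction with
  | base => exact h0 s
  | succ t ht ih => exact h1 s t ht ih

theorem LIM (h1 : MGB_stmt) (h2 : MRK_stmt) (h3 : MST_stmt) (h4 : NST_stmt) (h5 : FAC_stmt) :
    LIM_stmt := by
  have hstep := LIM_step h4
  have hA : ∀ s, WF (St s).1 := by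
    intro s
    induction s with
    | zero =>
      intro z
      have h : ∀ z, wr [] z = z := fun z => rfl
      change wr [] (wr [] z) = wr [] z ∧ wr [] z ≤ z
      rw [h, h]
      exact ⟨rfl, le_rfl⟩
    | succ s ih =>
      rcases hstep s with h | ⟨n, Z, -, -, -, h⟩
      · rw [h]; exact ih
      · rw [h]; exact (h1 _ ih _).1
  have hB1 : ∀ s z, wr (St (s + 1)).1 z ≤ wr (St s).1 z := by
    intro s z
    rcases hstep s with h | ⟨n, Z, -, -, -, h⟩
    · rw [h]
    · rw [h]; exact (h1 _ (hA s) _).2.1 z
  have hC1 : ∀ s x y, wr (St s).1 x = wr (St s).1 y → wr (St (s + 1)).1 x = wr (St (s + 1)).1 y := by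
    intro s x y hxy
    rcases hstep s with h | ⟨n, Z, -, -, -, h⟩
    · rw [h]; exact hxy
    · rw [h]; exact ((h1 _ (hA s) _).2.2.2 x y).2 (Or.inl hxy)
  have hrk1 : ∀ s m, rk (St (s + 1)).1 m ≤ rk (St s).1 m := by
    intro s m
    refine List.Sublist.length_le (List.monotone_filter_right _ ?_)
    intro z hz
    rw [decide_eq_true_eq] at hz ⊢
    have h6 := hB1 s z
    have h7 := (hA s z).2
    omega
  have hD1 : ∀ s j z, wc (St (s + 1)).1 j z ≤ wc (St s).1 j z := by
    intro s j z
    unfold wc
    refine min_le_min ?_ le_rfl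
    exact ((h2 (St (s + 1)).1).2.2.1 _ _ (hB1 s z)).trans (hrk1 s _)
  have hG1 : ∀ s n, n ∈ (St s).2 → n ∈ (St (s + 1)).2 := by
    intro s n hn
    rcases hstep s with h | ⟨m, Z, -, -, -, h⟩
    · rw [h]; exact hn
    · rw [h]; exact List.mem_cons_of_mem _ hn
  have hG : ∀ n s t, s ≤ t → n ∈ (St s).2 → n ∈ (St t).2 := by
    intro n s t hst hn
    exact LIM_ind (fun s t => n ∈ (St s).2 → n ∈ (St t).2) (fun s h => h)
      (fun s t _ h h' => hG1 t n (h h')) s t hst hn
  refine ⟨hA, ?_, ?_, ?_, ?_, ?_, hG, ?_⟩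
  · intro s t z hst
    exact LIM_ind (fun s t => wr (St t).1 z ≤ wr (St s).1 z) (fun s => le_rfl)
      (fun s t _ h => (hB1 t z).trans h) s t hst
  · intro s t x y hst hxy
    exact LIM_ind (fun s t => wr (St s).1 x = wr (St s).1 y → wr (St t).1 x = wr (St t).1 y)
      (fun s h => h) (fun s t _ h h' => hC1 t x y (h h')) s t hst hxy
  · intro s t j z hst
    exact LIM_ind (fun s t => wc (St t).1 j z ≤ wc (St s).1 j z) (fun s => le_rfl)
      (fun s t _ h => (hD1 t j z).trans h) s t hst
  · intro s
    induction s with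
    | zero => rfl
    | succ s ih =>
      rcases hstep s with h | ⟨n, Z, -, -, hm, h⟩
      · rw [h]; exact ih
      · rw [h]
        change mk (mg (St s).1 (mk (St s).1 (n + 2) :: Z)) 1 = 1
        rw [h3 (St s).1 n (lv n) Z (hA s) hm 1 (by omega)]
        exact ih
  · intro k
    obtain ⟨B, hB⟩ := h5 k
    have hcst : ∃ s0, ∀ s ≥ s0, ((Finset.range (B + k)).filter (fun n => n ∈ (St s).2)).card =
        ((Finset.range (B + k)).filter (fun n => n ∈ (St s0).2)).card := by
      refine LIM_const (B + k) (fun s => ((Finset.range (B + k)).filter (fun n => n ∈ (St s).2)).card)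
        ?_ ?_
      · intro s t hst
        refine Finset.card_le_card ?_
        intro n hn
        rw [Finset.mem_filter] at hn ⊢
        exact ⟨hn.1, hG n s t hst hn.2⟩
      · intro s
        refine (Finset.card_filter_le _ _).trans ?_
        rw [Finset.card_range]
    obtain ⟨s0, hs0⟩ := hcst
    refine ⟨s0, fun s hs => ?_⟩
    induction s, hs using Nat.le_induction with
    | base => rfl
    | succ s hs ih =>
      rcases hstep s with h | ⟨n, Z, hn, hact, hm, h⟩
      · rw [h]; exact ih
      · have hbig : ¬ n < B + k := by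
          intro hlt
          have h6 := (hs0 s hs).trans (hs0 (s + 1) (by omega)).symm
          have h7 : (Finset.range (B + k)).filter (fun n => n ∈ (St s).2) =
              (Finset.range (B + k)).filter (fun n => n ∈ (St (s + 1)).2) := by
            refine Finset.eq_of_subset_of_card_le ?_ h6.ge
            intro m hm
            rw [Finset.mem_filter] at hm ⊢
            exact ⟨hm.1, hG1 s m hm.2⟩
          have h8 : n ∈ (Finset.range (B + k)).filter (fun n => n ∈ (St (s + 1)).2) := by
            rw [Finset.mem_filter]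
            refine ⟨Finset.mem_range.2 hlt, ?_⟩
            rw [h]
            exact List.mem_cons_self
          rw [← h7, Finset.mem_filter] at h8
          exact hn h8.2
        have hlv : ¬ lv n ≤ k := by
          intro hlv
          have := hB s n hact hlv
          omega
        rw [h]
        change mk (mg (St s).1 (mk (St s).1 (n + 2) :: Z)) k = _
        rw [h3 (St s).1 n (lv n) Z (hA s) hm k (by omega)]
        exact ih
  · intro s
    induction s with
    | zero => exact List.nodup_nil
    | succ s ih =>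
      rcases hstep s with h | ⟨n, Z, hn, -, -, h⟩
      · rw [h]; exact ih
      · rw [h]
        exact List.nodup_cons.2 ⟨hn, ih⟩

end Pool.Agent.DW
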