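import Pool.Agent.helper18.DW.CD5

/-! Project DW (MP_a87378_lc), rows RHO, RPA, RFN. -/

set_option autoImplicit false

namespace Pool.Agent.DW

open Encodable Pool.Agent.helper63.Diag Pool.Agent.helper63.Dg4 Pool.Agent.helper63.RV

theorem Ks_mono {s t m : ℕ} (h : s ≤ t) (hs : Ks s m) : Ks t m := by
  unfold Ks at hs ⊢
  obtain ⟨v, hv⟩ := Option.isSome_iff_exists.1 hs
  have h1 : v ∈ Nat.Partrec.Code.evaln t (Denumerable.ofNat Nat.Partrec.Code m) m :=
    Nat.Partrec.Code.evaln_mono h hv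
  rw [Option.mem_def.1 h1]
  rfl

theorem K_iff_Ks (m : ℕ) : K m ↔ ∃ s, Ks s m := by
  unfold K Ks
  rw [Part.dom_iff_mem]
  constructor
  · rintro ⟨v, hv⟩
    obtain ⟨s, hs⟩ := Nat.Partrec.Code.evaln_complete.1 hv
    exact ⟨s, Option.isSome_iff_exists.2 ⟨v, hs⟩⟩
  · rintro ⟨s, hs⟩
    obtain ⟨v, hv⟩ := Option.isSome_iff_exists.1 hs
    exact ⟨v, Nat.Partrec.Code.evaln_sound hv⟩

instance (s m : ℕ) : Decidable (Ks s m) := by unfold Ks; infer_instance

/-- a stage at which the halting problem below `k` is enumerated -/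
theorem K_stage (k : ℕ) : ∃ s, ∀ m < k, K m → Ks s m := by
  induction k with
  | zero => exact ⟨0, fun m hm => absurd hm (by omega)⟩
  | succ k ih =>
    obtain ⟨s, hs⟩ := ih
    by_cases hk : K k
    · obtain ⟨t, ht⟩ := (K_iff_Ks k).1 hk
      refine ⟨max s t, fun m hm hK => ?_⟩
      rcases Nat.lt_succ_iff_lt_or_eq.1 hm with h | h
      · exact Ks_mono (le_max_left _ _) (hs m h hK)
      · rw [h]; exact Ks_mono (le_max_right _ _) ht
    · refine ⟨s, fun m hm hK => ?_⟩
      rcases Nat.lt_succ_iff_lt_or_eq.1 hm with h | h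
      · exact hs m h hK
      · rw [h] at hK; exact absurd hK hk

theorem fg_ge {P : ℕ → Prop} {i : DecidablePred P} {m n : ℕ} (h : m ≤ n) (hp : P m) :
    m ≤ @Nat.findGreatest P i n := Nat.le_findGreatest h hp

theorem fg_spec {P : ℕ → Prop} {i : DecidablePred P} {n : ℕ} (hp : P 0) :
    P (@Nat.findGreatest P i n) := Nat.findGreatest_spec (m := 0) (Nat.zero_le _) hp

theorem fg_le {P : ℕ → Prop} {i : DecidablePred P} (n : ℕ) :
    @Nat.findGreatest P i n ≤ n := Nat.findGreatest_le n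

theorem hK_ge {n k : ℕ} (hk : k ≤ n) (h : ∀ m < k, K m → Ks n m) : 2 + k ≤ hK n := by
  unfold hK
  exact Nat.add_le_add_left (fg_ge hk h) 2

theorem hK_eq (n : ℕ) : ∃ k ≤ n, hK n = 2 + k ∧ ∀ m < k, K m → Ks n m := by
  unfold hK
  refine ⟨_, ?_, rfl, ?_⟩
  · exact fg_le n
  · exact fg_spec (P := fun k => ∀ m < k, K m → Ks n m) (fun m hm => absurd hm (by omega))

theorem hK_two (n : ℕ) : 2 ≤ hK n := by
  obtain ⟨k, -, h, -⟩ := hK_eq n
  omega

theorem hK_ord : Ord hK := by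
  refine ⟨fun a b hab => ?_, fun m => ?_⟩
  · obtain ⟨k, hk, h1, h2⟩ := hK_eq a
    rw [h1]
    exact hK_ge (hk.trans hab) (fun m hm hK => Ks_mono hab (h2 m hm hK))
  · obtain ⟨s, hs⟩ := K_stage m
    refine ⟨max s m, le_trans (by omega) (hK_ge (k := m) (le_max_right _ _) (fun i hi hK =>
      Ks_mono (le_max_left _ _) (hs i hi hK)))⟩

theorem prim_Ks : PrimrecRel (fun s m : ℕ => Ks s m) := by
  unfold Ks
  have h1 : Primrec (fun p : ℕ × ℕ =>
      (Nat.Partrec.Code.evaln p.1 (Denumerable.ofNat Nat.Partrec.Code p.2) p.2).isSome) :=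
    Primrec.option_isSome.comp (Nat.Partrec.Code.primrec_evaln.comp
      (Primrec.pair (Primrec.pair Primrec.fst ((Primrec.ofNat _).comp Primrec.snd)) Primrec.snd))
  exact Primrec.eq.comp h1 (Primrec.const true)

/-- the approximation of `hK` -/
def aK (n s : ℕ) : ℕ := 2 + Nat.findGreatest (fun k => ∀ m < k, ¬ Ks s m ∨ Ks n m) n

theorem aK_le {n s t : ℕ} (h : s ≤ t) : aK n t ≤ aK n s := by
  unfold aK
  refine Nat.add_le_add_left (Nat.findGreatest_mono_left (fun k hk m hm => ?_) n) 2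
  rcases hk m hm with h1 | h1
  · exact Or.inl (fun h2 => h1 (Ks_mono h h2))
  · exact Or.inr h1

theorem aK_lim (n : ℕ) : ∃ s, ∀ t ≥ s, aK n t = hK n := by
  obtain ⟨s, hs⟩ := K_stage n
  refine ⟨s, fun t ht => le_antisymm ?_ ?_⟩
  · unfold aK
    refine hK_ge (Nat.findGreatest_le n) (fun m hm hK => ?_)
    have h1 : ∀ m < Nat.findGreatest (fun k => ∀ m < k, ¬ Ks t m ∨ Ks n m) n,
        ¬ Ks t m ∨ Ks n m :=
      Nat.findGreatest_spec (P := fun k => ∀ m < k, ¬ Ks t m ∨ Ks n m) (m := 0) (Nat.zero_le _)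
        (fun m hm => absurd hm (by omega))
    have h2 : m < n := lt_of_lt_of_le hm (Nat.findGreatest_le n)
    exact (h1 m hm).resolve_left (fun h3 => h3 (Ks_mono ht (hs m h2 hK)))
  · obtain ⟨k, hk, h1, h2⟩ := hK_eq n
    rw [h1]
    unfold aK
    refine Nat.add_le_add_left (Nat.le_findGreatest hk (fun m hm => ?_)) 2
    by_cases h3 : Ks t m
    · exact Or.inr (h2 m hm ((K_iff_Ks m).2 ⟨t, h3⟩))
    · exact Or.inl h3

theorem aK_prim : Primrec₂ aK := by
  have h1 : PrimrecRel (fun (p : ℕ × ℕ) (k : ℕ) => ∀ m < k, ¬ Ks p.2 m ∨ Ks p.1 m) := by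
    refine PRalllt (R := fun (q : (ℕ × ℕ) × ℕ) (m : ℕ) => ¬ Ks q.1.2 m ∨ Ks q.1.1 m) ?_
      Primrec.snd
    refine PrimrecPred.or (PrimrecPred.not ?_) ?_
    · exact prim_Ks.comp (Primrec.snd.comp (Primrec.fst.comp Primrec.fst)) Primrec.snd
    · exact prim_Ks.comp (Primrec.fst.comp (Primrec.fst.comp Primrec.fst)) Primrec.snd
  have h2 : Primrec (fun p : ℕ × ℕ => Nat.findGreatest
      (fun k => ∀ m < k, ¬ Ks p.2 m ∨ Ks p.1 m) p.1) :=
    Primrec.nat_findGreatest Primrec.fst h1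
  exact Primrec.nat_add.comp (Primrec.const 2) h2

theorem RightCE_sqrt {h : ℕ → ℕ} (hh : RightCE h) : RightCE (fun n => h (Nat.sqrt n)) := by
  obtain ⟨a, h1, h2, h3⟩ := hh
  refine ⟨fun n s => a (Nat.sqrt n) s, ?_, fun n s => h2 _ s, fun n => h3 _⟩
  exact Computable₂.comp h1 (Primrec.nat_sqrt.to_comp.comp Computable.fst) Computable.snd

theorem RHO : RHO_stmt := by
  have h1 : RightCE hK := ⟨aK, aK_prim.to_comp, fun n s => aK_le (Nat.le_succ s), aK_lim⟩
  exact ⟨hK_ord, h1, CFN_ord hK_ord, RightCE_sqrt h1⟩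

theorem RPA : RPA_stmt := by
  classical
  intro X f hf hdn hlt
  have hfX : RI X f := RecursiveIn.iff_nat.1 hf
  by_cases hb : ∃ k, ∀ n, f n < k
  · obtain ⟨k, hk⟩ := hb
    have h1 : Av X k := by
      intro θ hθ
      obtain ⟨q, hq, h3, h4⟩ := DN.avoid hfX hdn hθ
      exact ⟨_, h3, fun n => ⟨hk _, h4 n⟩⟩
    obtain ⟨d, h2, h3, h4⟩ := dn_of_av h1.two
    exact ⟨d, RecursiveIn.iff_nat.2 h2, h3, h4⟩
  · push Not at hb
    have hA : S1 X (fun p : ℕ × ℕ => p.1 + 3 ≤ f p.2) := by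
      have h1 : S1 X (fun p : ℕ × ℕ => ∃ v : ℕ, f p.2 = v ∧ p.1 + 3 ≤ v) := by
        refine S1.ex (A := fun (p : ℕ × ℕ) (v : ℕ) => f p.2 = v ∧ p.1 + 3 ≤ v)
          (S1.and ?_ (S1.prim ?_))
        · exact (s1_graph' hfX).comp (Primrec.pair (Primrec.snd.comp Primrec.fst) Primrec.snd)
        · exact Primrec.nat_le.comp (Primrec.nat_add.comp (Primrec.fst.comp Primrec.fst)
            (Primrec.const 3)) Primrec.snd
      exact h1.of_iff (fun p => ⟨fun ⟨v, h2, h3⟩ => h2 ▸ h3, fun h2 => ⟨_, rfl, h2⟩⟩)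
    obtain ⟨N, hN1, hN2⟩ := S1.unif hA (fun m => hb (m + 3))
    have hNX : RI X N := RI.of_s1 hN2
    have hKN : ∀ m, K m → Ks (N m) m := by
      intro m hm
      obtain ⟨k, hk, h1, h2⟩ := hK_eq (N m)
      have h3 := hlt (N m)
      have h4 : m + 3 ≤ f (N m) := hN1 m
      exact h2 m (by omega) hm
    have hF : Primrec (fun u : ℕ => if Nat.Partrec.Code.evaln u.unpair.1
        (Denumerable.ofNat Nat.Partrec.Code u.unpair.2) u.unpair.2 = some 0 then 1 else 0) := by
      refine Primrec.ite (Primrec.eq.comp ?_ (Primrec.const _)) (Primrec.const 1)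
        (Primrec.const 0)
      have hf : Primrec (fun u : ℕ => u.unpair.1) := Primrec.fst.comp Primrec.unpair
      have hs : Primrec (fun u : ℕ => u.unpair.2) := Primrec.snd.comp Primrec.unpair
      exact Nat.Partrec.Code.primrec_evaln.comp
        (Primrec.pair (Primrec.pair hf ((Primrec.ofNat _).comp hs)) hs)
    have hG := (RI.prim (X := X) hF).comp (hNX.pair (RI.prim Primrec.id))
    simp only [Nat.unpair_pair, id] at hG
    refine ⟨_, RecursiveIn.iff_nat.2 hG, ?_, ?_⟩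
    · intro e m hm
      have hKe : K e := Part.dom_iff_mem.2 ⟨m, hm⟩
      have h1 := hKN e hKe
      unfold Ks at h1
      obtain ⟨v, hv⟩ := Option.isSome_iff_exists.1 h1
      have h2 : v = m := Part.mem_unique (Nat.Partrec.Code.evaln_sound hv) hm
      beta_reduce
      rw [hv, h2]
      by_cases h3 : m = 0
      · subst h3; simp
      · rw [if_neg (by simpa using h3)]
        exact fun h => h3 h.symm
    · intro e
      beta_reduce
      split_ifs
      · omega
      · omega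

theorem RFN (hRHO : RHO_stmt) (hRPA : RPA_stmt) : RFN_stmt := by
  classical
  obtain ⟨h1, h2, h3, h4⟩ := hRHO
  refine ⟨fun n => hK (Nat.sqrt n), h3, h4, fun X => ⟨fun hX => ?_, ?_⟩, fun f hf hlt => ?_⟩
  · obtain ⟨fl, -, hl⟩ := E0_light
    obtain ⟨g, hg, hd, m, hm⟩ := hX E0 ⟨E0_equiv, E0_re⟩ ⟨_, _, hl 0 1 (by omega)⟩
    have hgX : RI X g := RecursiveIn.iff_nat.1 hg
    obtain ⟨e, he⟩ := idx part_diag
    have ht : ∀ n, ∃ t < 2, t ∉ Nat.Partrec.Code.eval (Denumerable.ofNat Nat.Partrec.Code n) n := by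
      intro n
      by_cases h : (0 : ℕ) ∈ Nat.Partrec.Code.eval (Denumerable.ofNat Nat.Partrec.Code n) n
      · exact ⟨1, by omega, fun h' => absurd (Part.mem_unique h h') (by omega)⟩
      · exact ⟨0, by omega, h⟩
    choose t ht1 ht2 using ht
    obtain ⟨N, hN1, hN2⟩ : ∃ N, m ≤ N ∧ e < N := ⟨max m (e + 1), le_max_left _ _, by omega⟩
    have hF : Primrec (fun u : ℕ => if u.unpair.1 < N then (res t N).getD u.unpair.1 0
        else u.unpair.2) := by
      have hf : Primrec (fun u : ℕ => u.unpair.1) := Primrec.fst.comp Primrec.unpair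
      have hs : Primrec (fun u : ℕ => u.unpair.2) := Primrec.snd.comp Primrec.unpair
      refine Primrec.ite (Primrec.nat_lt.comp hf (Primrec.const _)) ?_ hs
      exact (Primrec.list_getD 0).comp (Primrec.const _) hf
    have hgE : RI X (fun n => g (Nat.pair e n)) :=
      hgX.comp (RI.prim (Primrec₂.natPair.comp (Primrec.const e) Primrec.id))
    have hG := (RI.prim (X := X) hF).comp ((RI.prim Primrec.id).pair hgE)
    simp only [Nat.unpair_pair, id] at hG
    refine hRPA X _ (RecursiveIn.iff_nat.2 hG) ?_ ?_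
    · intro n v hv
      beta_reduce
      by_cases hn : n < N
      · rw [if_pos hn, res_getD t hn]
        exact fun h => ht2 n (h ▸ hv)
      · rw [if_neg hn]
        intro h
        apply hd (Nat.pair e n)
        have h5 : F (Nat.pair e n) v := (he n v).2 hv
        rw [h]
        exact E0_equiv.symm (E0_of_F h5)
    · intro n
      beta_reduce
      by_cases hn : n < N
      · rw [if_pos hn, res_getD t hn]
        exact lt_of_lt_of_le (ht1 n) (hK_two n)
      · rw [if_neg hn]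
        have h5 : g (Nat.pair e n) < hK (Nat.sqrt (Nat.pair e n)) :=
          hm (Nat.pair e n) (hN1.trans ((not_lt.1 hn).trans (Nat.right_le_pair e n)))
        rw [CFN_sqrt (lt_of_lt_of_le hN2 (not_lt.1 hn))] at h5
        exact h5
  · rintro ⟨d, hd, hdn, h2'⟩ E hE ⟨a, b, hab⟩
    have hav : Av X 2 := av_two (RecursiveIn.iff_nat.1 hd) hdn h2'
    have hre : REPred (fun p : ℕ × ℕ × ℕ => E p.2.1 p.2.2) := by
      have h5 : Computable (fun p : ℕ × ℕ × ℕ => (p.2.1, p.2.2)) := Computable.snd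
      have := Partrec.comp hE.2 h5
      exact this
    obtain ⟨g, hg, h5⟩ := two_unif hav (E := fun _ => E) (fun _ => hE.1) hre
      (Computable.const a) (Computable.const b) (fun _ => hab)
    obtain ⟨m, hm⟩ := h3.2 (max a b + 1)
    refine ⟨fun x => g (Nat.pair 0 x), RecursiveIn.iff_nat.2 (hg.comp (RI.prim
      (Primrec₂.natPair.comp (Primrec.const 0) Primrec.id))), fun x => (h5 0 x).2, m,
      fun x hx => ?_⟩
    have h6 := h3.1 hx
    have h7 : g (Nat.pair 0 x) ≤ max a b := by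
      rcases (h5 0 x).1 with h | h
      · rw [h]; exact le_max_left _ _
      · rw [h]; exact le_max_right _ _
    beta_reduce at h6 hm ⊢
    omega
  · refine hRPA f f (RecursiveIn.iff_nat.2 RI.oracle) hf (fun n => ?_)
    exact lt_of_lt_of_le (hlt n) (h1.1 (Nat.sqrt_le_self n))

end Pool.Agent.DW
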