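import Pool.Agent.helper18.DW.SpecE
import Pool.Agent.helper63.Diag.Upper

/-!
# Project DW (MP_a87378_lc), part B: bushy trees; slow DNR functions outside `Diag`

`Big H b C τ`: `C` is `b`-big above the string `τ` in the tree of the strings whose `i`-th entry is less than `H i`.
A condition (`Cn`) has a stem `σ`, a number `b`, a set `B` of strings closed under extension, containing the strings that
violate DNR, and a primitive recursive order `H` such that `B` is not `b`-big above `σ` and `b ≤ H |σ|`.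
-/

set_option autoImplicit false

namespace Pool.Agent.DW

open Encodable Pool.Agent.helper63.Diag Pool.Agent.helper63.Dg4 Pool.Agent.helper63.RV

/-- nondecreasing and unbounded -/
def Ord (h : ℕ → ℕ) : Prop := Monotone h ∧ ∀ m, ∃ n, m ≤ h n

/-- eventually below every computable order -/
def Slow (g : ℕ → ℕ) : Prop := ∀ h : ℕ → ℕ, Computable h → Ord h → ∃ m, ∀ x ≥ m, g x < h x

/-- **PRO** (short to medium).  Every computable order is above a primitive recursive one: if `c` is a code of `h` let `h' n` be the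
maximum of the numbers `(Nat.Partrec.Code.evaln n c m).getD 0`, `m ≤ n` (a `foldr max` over `(List.range (n + 1)).map`).  It is
nondecreasing (`evaln_mono`), `≤ h n` (`evaln_sound`, `h m ≤ h n`), unbounded (`evaln_complete`). -/
def PRO_stmt : Prop := ∀ h : ℕ → ℕ, Computable h → Ord h → ∃ h' : ℕ → ℕ, Primrec h' ∧ Ord h' ∧ ∀ n, h' n ≤ h n

/-- `C` is `b`-big above `τ` in the tree given by `H` -/
inductive Big (H : ℕ → ℕ) (b : ℕ) (C : List ℕ → Prop) : List ℕ → Prop
  | leaf (τ : List ℕ) (h : C τ) : Big H b C τ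
  | node (τ : List ℕ) (S : Finset ℕ) (hb : b ≤ S.card) (hS : ∀ v ∈ S, v < H τ.length)
      (h : ∀ v ∈ S, Big H b C (τ ++ [v])) : Big H b C τ

/-- `ξ` is above `τ` in the tree given by `H` -/
def Abv (H : ℕ → ℕ) (τ ξ : List ℕ) : Prop :=
  ∃ ρ : List ℕ, ξ = τ ++ ρ ∧ ∀ i < ρ.length, ρ.getD i 0 < H (τ.length + i)

/-- the strings that violate DNR -/
def DV (τ : List ℕ) : Prop := ∃ n < τ.length, Hlt n (τ.getD n 0)

/-- **BU** (short).  Induction on `Big`; at a node split `S` into the `v` with `Big H p C (τ ++ [v])` and the others. -/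
def BU_stmt : Prop := ∀ (H : ℕ → ℕ) (p q : ℕ) (C C' : List ℕ → Prop) (τ : List ℕ),
  Big H (p + q) (fun ξ => C ξ ∨ C' ξ) τ → Big H p C τ ∨ Big H q C' τ

/-- **BM** (short).  Induction on `Big`. -/
def BM_stmt : Prop := ∀ (H H' : ℕ → ℕ) (b b' : ℕ) (C C' : List ℕ → Prop) (τ : List ℕ),
  (∀ i, τ.length ≤ i → H i ≤ H' i) → b' ≤ b → (∀ ξ, C ξ → C' ξ) → Big H b C τ → Big H' b' C' τ

/-- **BUN** (short).  Induction on `m` with BU (and BM for the equivalence of the sets).  Uses: BU, BM. -/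
def BUN_stmt : Prop := ∀ (H : ℕ → ℕ) (b m : ℕ) (B : List ℕ → Prop) (C : ℕ → List ℕ → Prop) (τ : List ℕ),
  ¬ Big H b B τ → (∀ i < m, ¬ Big H b (C i) τ) → ¬ Big H ((m + 1) * b) (fun ξ => B ξ ∨ ∃ i < m, C i ξ) τ

/-- **BX** (short).  Induction on `Big H b C τ`: at a node some `v ∈ S` has `¬ Big H b B (τ ++ [v])`. -/
def BX_stmt : Prop := ∀ (H : ℕ → ℕ) (b : ℕ) (B C : List ℕ → Prop) (τ : List ℕ),
  Big H b C τ → ¬ Big H b B τ → ∃ ξ, C ξ ∧ Abv H τ ξ ∧ ¬ Big H b B ξ

/-- **BF** (short).  A big set has a finite big subset: induction on `Big`; at a node take the union of the lists for the `v ∈ S`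
(`Finset.toList`, `List.flatMap`, with `choose`) and use BM.  Uses: BM. -/
def BF_stmt : Prop := ∀ (H : ℕ → ℕ) (b : ℕ) (C : List ℕ → Prop) (τ : List ℕ),
  Big H b C τ → ∃ L : List (List ℕ), (∀ ξ ∈ L, C ξ) ∧ Big H b (fun ξ => ξ ∈ L) τ

/-- **BN** (short).  One step: otherwise `S = Finset.range b` shows `Big H b B τ`.  Then induction on `n`. -/
def BN_stmt : Prop := ∀ (H : ℕ → ℕ) (b : ℕ) (B : List ℕ → Prop) (τ : List ℕ), Monotone H → b ≤ H τ.length →
  ¬ Big H b B τ → ∀ n, ∃ ρ : List ℕ, ρ.length = n ∧ (∀ v ∈ ρ, v < b) ∧ ¬ Big H b B (τ ++ ρ)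

/-- **BD** (short).  For `τ` with `¬ DV τ` show `¬ Big H 2 DV τ` by induction on `Big`: of two different `v`, `w` at least one is not the
value of the diagonal function at `|τ|` (`Part.mem_unique`), so `τ ++ [v]` or `τ ++ [w]` is not in `DV`. -/
def BD_stmt : Prop := ∀ H : ℕ → ℕ, ¬ Big H 2 DV []

/-- **BCE** (short to medium).  `Big H b C τ` iff there is a list `L` of strings with `τ ∈ L` such that every `ξ ∈ L` satisfies `C ξ` or
`b ≤ ((List.range (H ξ.length)).filter (fun v => ξ ++ [v] ∈ L)).length`.  (From left to right: induction, unions of lists.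
From right to left: every `ξ ∈ L` is `Big`, by induction on `N - ξ.length`, `N` the maximal length in `L`, where the set `S` is the `toFinset`
of the filtered list, which has no duplicates.)  With `C ξ := ∃ z ∈ Z, D ξ (x, z)` this is of the form `∃ L` (primitive
recursive): `S1.ex`, `S1.prim`, `PRall`, `PRex`; the number of the `v` can be replaced by: there is a duplicate-free list `l` of length
`≥ b` of numbers `v < H ξ.length` with `ξ ++ [v] ∈ L` (then `S1.ex`, `S1.ball`). -/
def BCE_stmt : Prop := ∀ (H : ℕ → ℕ) (b : ℕ) (D : List ℕ → ℕ × ℕ → Prop), Primrec H → PrimrecRel D →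
  CE (fun a : List ℕ × ℕ × List ℕ => Big H b (fun ξ => ∃ z ∈ a.2.2, D ξ (a.2.1, z)) a.1)

/-- conditions -/
structure Cn where
  σ : List ℕ
  b : ℕ
  B : List ℕ → Prop
  H : ℕ → ℕ
  up : ∀ τ ρ, B τ → B (τ ++ ρ)
  dv : ∀ τ, DV τ → B τ
  pH : Primrec H
  oH : Ord H
  nb : ¬ Big H b B σ
  le : b ≤ H σ.length

/-- `q` extends `p` -/
def Cle (q p : Cn) : Prop :=
  Abv p.H p.σ q.σ ∧ (∀ τ, p.B τ → q.B τ) ∧ ∀ i, q.σ.length ≤ i → q.H i ≤ p.H i

/-- `f` extends the stem of `q` and avoids its bad strings -/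
def Gd (q : Cn) (f : ℕ → ℕ) : Prop := res f q.σ.length = q.σ ∧ ∀ k, ¬ q.B (res f k)

/-- **BLN** (short).  Lengthening with the same `b`, `B`, `H`, by BN (the entries are `< b ≤ H |σ| ≤ H i`).  Uses: BN. -/
def BLN_stmt : Prop := ∀ (p : Cn) (n : ℕ), ∃ q, Cle q p ∧ n ≤ q.σ.length ∧ q.b = p.b ∧ q.B = p.B ∧ q.H = p.H

/-- **BOR** (short).  Lengthen until `p.b ≤ h |σ|` (BLN), then take `H := fun i => min (p.H i) (h i)`; by BM `B` is not big for the
new `H`.  Uses: BM, BLN. -/
def BOR_stmt : Prop := ∀ (p : Cn) (h : ℕ → ℕ), Primrec h → Ord h → ∃ q, Cle q p ∧ ∀ i, q.σ.length ≤ i → q.H i ≤ h i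

/-- **BQQ** (short to medium).  The bound for the tasks.  For `H`, `b`, `m` there are computable `ℓ`, `q` such that
`(j + 4) * b ≤ H (m + ℓ j)` and every string of length `ℓ j` with entries `< b` has a code `< q j`.  `ℓ j` is the least such number
(`Nat.find`, `Computable.find` or `Nat.rfind`; see `Pr.zero` in `Pool/Agent/helper63/Diag/Base.lean`), `q j` the maximum of the codes of the
members of `strs b (ℓ j)` plus one (`primrec_strs`, `mem_strs` in `Diag/Compact.lean`, `Primrec.list_foldr`; or the sum). -/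
def BQQ_stmt : Prop := ∀ (H : ℕ → ℕ) (b m : ℕ), Primrec H → Ord H →
  ∃ ℓ q : ℕ → ℕ, Computable q ∧ (∀ j, (j + 4) * b ≤ H (m + ℓ j)) ∧
    ∀ j (τ : List ℕ), τ.length = ℓ j → (∀ v ∈ τ, v < b) → encode τ < q j

/-- **BFR** (medium).  Let `D' = mon D` (`prim_mon`, `ex_mon` in `Diag/Limit.lean`), `b = p.b`, `σ = p.σ`, `H = p.H` and
`W (j, t, x, Z) := Big H b (fun ξ => ∃ z ∈ Z, D' ξ (x, z)) (σ ++ Denumerable.ofNat (List ℕ) t)`, which is c.e. by BCE (`S1.comp`).  Take `ℓ`, `q` from BQQ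
for `m = σ.length` and `j0` from `EProp E`; let `j = j0`.  By BN there is `τ` of length `ℓ j` with entries `< b` and `¬ Big H b p.B (σ ++ τ)`.
Apply `EProp` to `t = encode τ`.
Case (a): `Z` with `W (j, t, x, Z)`, `E z x` for `z ∈ Z`.  By BX there is `ξ` above `σ ++ τ` with `D' ξ (x, z)`, `z ∈ Z`, and
`¬ Big H b p.B ξ`.  Let `q` be `p` with the stem `ξ`.  If `Gd q f` then `res f ξ.length = ξ`, so `D (res f k) (x, z)` for some `k`: `Req D E f`.
Case (b): the colouring `c`.  For `i < j + 3` the set `C i ξ := ∃ z, c z = i ∧ D' ξ (x, z)` is not `b`-big above `σ ++ τ`: otherwise by BF a finite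
subset `L` is, let `Z` be the list of values `z` chosen for the `ξ ∈ L`; then `W (j, t, x, Z)` by BM and `c` is constant on `Z`.  So by BUN
`q = (σ ++ τ, (j + 4) * b, p.B ∨ ∃ i < j + 3, C i, H)` is a condition (`D'` is closed under extension).  If `Gd q f` there are no `z`, `k` with
`D (res f k) (x, z)` (`Inv`: `c z < j + 3`).  Uses: BU is not needed; BM, BUN, BX, BF, BN, BCE, BQQ. -/
def BFR_stmt : Prop := ∀ E : ℕ → ℕ → Prop, EProp E → ∀ (p : Cn) (D : List ℕ → ℕ × ℕ → Prop), PrimrecRel D →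
  ∃ q, Cle q p ∧ ∀ f, Gd q f → Req D E f

/-- **BGN** (short to medium).  Generic sequences.  `Cle` is transitive (`Abv` of the larger order).  Build `s` by recursion: `s (m + 1)` is
obtained from `s m` by BLN (length `≥ m + 1`) and then by the hypothesis for `i = m.unpair.1`.  `f i` is the `i`-th entry of the stem of
`s (i + 1)`; all stems are initial segments of `f`.  `¬ (s m).B (res f k)`: otherwise take `M ≥ m` with `k ≤ |(s M).σ|`; by `up` and
`Cle` `(s M).B (s M).σ`, so `Big` by `leaf`, contradicting `nb`.  `f i < (s m).H i` for `i ≥ |(s m).σ|`: by `Abv` for a large `M ≥ m`.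
Uses: BLN. -/
def BGN_stmt : Prop := ∀ (DD : ℕ → Cn → Prop), (∀ p i, ∃ q, Cle q p ∧ DD i q) → ∀ p0 : Cn,
  ∃ (s : ℕ → Cn) (f : ℕ → ℕ), s 0 = p0 ∧ (∀ i, ∃ m, DD i (s m)) ∧ ∀ m, Gd (s m) f ∧
    ∀ i, (s m).σ.length ≤ i → f i < (s m).H i

/-- **BFN** (short to medium).  Start: the condition with `σ = []`, `b = 2`, `B = DV`, `H i = i + 2` (BD).  `E = wE`.  Tasks: for each primitive
recursive order `h` (BOR; they are countably many, e.g. because the codes are; or use `Set.Countable` of the primitive recursive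
functions via `Nat.Partrec.Code.exists_code`), for each primitive recursive `D` (BFR, `countable_primrecRel`).  The limit `f` is DNR (`dv`),
`Slow` (PRO), and if a diagonal function `g` for `E` were computable from `f`, its graph would be given by some `D` (`s1_graph` in
`Diag/Turing.lean`), contradicting `Req D E f`.  Uses: PRO, EQV, ENF, BD, BOR, BFR, BGN. -/
def BFN_stmt : Prop := ∃ (E : ℕ → ℕ → Prop) (f : ℕ → ℕ), IsCeer E ∧ (∃ a b, ¬ E a b) ∧ DN f ∧ Slow f ∧
  ¬ CompDiag f E

end Pool.Agent.DW
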