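import Pool.Agent.helper18.DW.SpecB

/-!
# Project DW (MP_a87378_lc), part C: colourings; slow diagonal functions without PA

A condition (`CD`) has `k` active columns, the column `κ < k` devoted to the hard ceer `ce κ`, a stem `σ`, a number `n` of colours, a
finite list `al` of pairs of colours, a nonempty `Π⁰₁` class `cls n Bad` of colourings `v` of the positions `⟨κ, x⟩ = Nat.pair κ x` which
are invariant under the ceers, and a primitive recursive order `H`.  The entry `y` at the position `i = ⟨κ, x⟩`, `κ < k`, is allowed for the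
colouring `v` if `y < H i` and the pair (colour of `⟨κ, y⟩`, colour of `i`) is in `al`.  `al` contains no pair `(c, c)`, so `y` is not
equivalent to `x`; and for any two colours `d`, `d'` there is `c` with `(c, d), (c, d') ∈ al` (with three colours and `al` = all
pairs of different colours this is the third colour).  Two conditions are combined by taking pairs of colours.
-/

set_option autoImplicit false

namespace Pool.Agent.DW

open Encodable Pool.Agent.helper63.Diag Pool.Agent.helper63.Dg4 Pool.Agent.helper63.RV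

/-- a ceer with infinitely many classes and without computable diagonal function of finite range -/
structure HF where
  E : ℕ → ℕ → Prop
  eqv : Equivalence E
  ce : CE fun p : ℕ × ℕ => E p.1 p.2
  hard : ¬ ∃ g : ℕ → ℕ, Computable g ∧ (∃ B, ∀ x, g x ≤ B) ∧ ∀ x, ¬ E (g x) x
  inf : ∀ L : List ℕ, ∃ x, ∀ y ∈ L, ¬ E x y

/-- forcing conditions -/
structure CD where
  k : ℕ
  ce : ℕ → HF
  σ : List ℕ
  n : ℕ
  al : List (ℕ × ℕ)
  Z : ℕ → ℕ → ℕ
  Bad : List ℕ → Prop
  H : ℕ → ℕ
  re : CE Bad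
  pH : Primrec H
  oH : Ord H
  pos : 0 < H σ.length
  irr : ∀ c, (c, c) ∉ al
  two : ∀ d < n, ∀ d' < n, ∃ c < n, (c, d) ∈ al ∧ (c, d') ∈ al
  inv : ∀ v ∈ cls n Bad, ∀ κ < k, ∀ x z, (ce κ).E x z → v (Nat.pair κ x) = v (Nat.pair κ z)
  rep : ∀ v ∈ cls n Bad, ∀ κ < k, ∀ c < n, v (Nat.pair κ (Z κ c)) = c
  zero : ∀ v ∈ cls n Bad, ∀ κ, k ≤ κ → ∀ x, v (Nat.pair κ x) = 0
  big : ∀ κ < k, ∀ c < n, Z κ c < H σ.length
  ne : (cls n Bad).Nonempty

/-- the entry `y` is allowed at the position `i` for the colouring `v` -/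
def Al (p : CD) (v : ℕ → ℕ) (i y : ℕ) : Prop :=
  y < p.H i ∧ (i.unpair.1 < p.k → (v (Nat.pair i.unpair.1 y), v i) ∈ p.al)

/-- `g` satisfies `p` with the colouring `v` -/
def Sv (p : CD) (v g : ℕ → ℕ) : Prop :=
  res g p.σ.length = p.σ ∧ ∀ i, p.σ.length ≤ i → Al p v i (g i)

/-- `g` satisfies `p` -/
def Sc (p : CD) (g : ℕ → ℕ) : Prop := ∃ v ∈ cls p.n p.Bad, Sv p v g

/-- the string `τ` is compatible with `p` and the colouring `v` -/
def Cv1 (p : CD) (v : ℕ → ℕ) (τ : List ℕ) : Prop :=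
  τ.take p.σ.length = p.σ ∧ ∀ i, p.σ.length ≤ i → i < τ.length → Al p v i (τ.getD i 0)

/-- `q` extends `p` -/
def Lc (q p : CD) : Prop :=
  (∀ κ < p.k, κ < q.k ∧ q.ce κ = p.ce κ) ∧ q.σ.take p.σ.length = p.σ ∧ ∀ g, Sc q g → Sc p g

/-- `v` is in the class of `p`, no string compatible with `v` has `D τ a`, and `v` has the prescribed values -/
def KD (p : CD) (D : List ℕ → ℕ × ℕ → Prop) (a : ℕ × ℕ) (β : List (ℕ × ℕ)) (v : ℕ → ℕ) : Prop :=
  v ∈ cls p.n p.Bad ∧ (∀ τ, Cv1 p v τ → ¬ D τ a) ∧ ∀ b ∈ β, v b.1 = b.2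

/-- **CIN** (short to medium).  A ceer with two inequivalent numbers and without computable diagonal function of finite range has
infinitely many classes, so it is (the relation of) an `HF`.  Otherwise there is a list `L` such that every `x` is equivalent to some
`y ∈ L`; let `¬ E a b`; for each `y ∈ L` let `y' = a` if `¬ E a y`, else `b`.  Search for `x` the first pair (`y ∈ L`, stage) with `E x y` and put
`g x = y'` (`CE` normal form, `Nat.rfind` or `S1.unif` with `X = 0` and `Pr.zero`-style computability, see `select` in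
`Pool/Agent/helper63/RV/Basic.lean`): a computable diagonal function with values `a`, `b`. -/
def CIN_stmt : Prop := ∀ E : ℕ → ℕ → Prop, IsCeer E → (∃ a b, ¬ E a b) →
  (¬ ∃ g : ℕ → ℕ, Computable g ∧ (∃ B, ∀ x, g x ≤ B) ∧ ∀ x, ¬ E (g x) x) → ∃ C : HF, C.E = E

/-- **CSA** (short).  A string compatible with `v` extends to a function satisfying `p` with `v`, and to every finite set of positions the
values can be chosen as small as in `big`: for `i = ⟨κ, x⟩ ≥ |τ|` put `g i = Z κ c` with `(c, v i) ∈ al` (`two` for `d = d' = v i`) if `κ < k`, and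
`g i = 0` if `κ ≥ k`; `Z κ c < H |σ| ≤ H i`, and `v ⟨κ, Z κ c⟩ = c` (`rep`). -/
def CSA_stmt : Prop := ∀ (p : CD) (v : ℕ → ℕ) (τ : List ℕ), v ∈ cls p.n p.Bad → Cv1 p v τ →
  ∃ g, res g τ.length = τ ∧ Sv p v g

/-- **CS2** (short).  The same for two colourings: `c` with `(c, v i) ∈ al` and `(c, v' i) ∈ al` (`two`; `v` and `v'` agree on the numbers
`⟨κ, Z κ c⟩` by `rep`). -/
def CS2_stmt : Prop := ∀ (p : CD) (v v' : ℕ → ℕ), v ∈ cls p.n p.Bad → v' ∈ cls p.n p.Bad → ∃ g, Sv p v g ∧ Sv p v' g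

/-- **CEX** (short to medium; as `Pool/Agent/helper32/Dg4/EXT.lean`).  `q` is `p` with the stem `res g K` and with
`q.Bad ρ := p.Bad ρ ∨ ∃ i < K, p.σ.length ≤ i ∧ i.unpair.1 < p.k ∧ i < ρ.length ∧ ⟨κ, g i⟩ < ρ.length ∧ (ρ ⟨κ, g i⟩, ρ i) ∉ al`, so
`cls q.n q.Bad` consists of the `v` in the class of `p` such that `res g K` is compatible with `v`. -/
def CEX_stmt : Prop := ∀ (p : CD) (v g : ℕ → ℕ) (K : ℕ), v ∈ cls p.n p.Bad → Sv p v g → p.σ.length ≤ K →
  ∃ q : CD, Lc q p ∧ q.σ = res g K ∧ Sv q v g ∧ v ∈ cls q.n q.Bad ∧ q.k = p.k ∧ q.ce = p.ce ∧ q.n = p.n ∧ q.al = p.al ∧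
    q.Z = p.Z ∧ q.H = p.H

/-- **COR** (short).  By CSA (for `τ = σ`) take `v`, `g`; lengthen by CEX to a `K` with `h K` greater than `0` and than all `Z κ c`, `κ < k`, `c < n`; then
replace `H` by `fun i => min (p.H i) (h i)` (`Sc` for the new condition implies `Sc` for the old one).  Uses: CSA, CEX. -/
def COR_stmt : Prop := ∀ (p : CD) (h : ℕ → ℕ), Primrec h → Ord h →
  ∃ q, Lc q p ∧ ∀ i, q.σ.length ≤ i → q.H i ≤ h i

/-- **CCO** (medium).  A new active column `κ₀ = p.k` for `C`.  Choose `n` pairwise inequivalent numbers `z c`, `c < n` (`inf`), lengthen (CSA,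
CEX) to a stem with `H |σ| > z c`.  Let `q.k = p.k + 1`, `q.Z κ₀ c = z c`, `ρ⁰` = `ρ` with the entries at the positions of the column `κ₀` replaced by
`0`, and `q.Bad ρ` iff `p.Bad ρ⁰`, or `ρ ⟨κ₀, x⟩ ≠ ρ ⟨κ₀, x'⟩` for some `C.E x x'` (positions `< |ρ|`), or `ρ ⟨κ₀, z c⟩ ≠ c` for some `c < n` (position
`< |ρ|`).  Then `v ∈ cls n q.Bad` iff `v i < n` for all `i`, `v⁰ ∈ cls n p.Bad`, `v` is invariant in the column `κ₀` and `v ⟨κ₀, z c⟩ = c`.  Nonempty: change
`v ∈ cls n p.Bad` in the column `κ₀` to `c` on the class of `z c` and `0` elsewhere.  `zero`: for `κ ≥ p.k + 1` by `zero` for `v⁰`.  `Lc`: if `g` satisfies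
`q` with `v` then it satisfies `p` with `v⁰` (no requirement in the columns `≥ p.k`).  `n > 0` since the class is nonempty.  Uses: CSA, CEX. -/
def CCO_stmt : Prop := ∀ (p : CD) (C : HF), ∃ q, Lc q p ∧ ∃ κ < q.k, q.ce κ = C

/-- **CKI** (medium; compare `Qk`, `s1_Qk`, `mem_kill_iff` in `Diag/Cond.lean` and `Step.lean`).  Let `CL ρ τ` say that `τ` is compatible with `ρ`: `τ.take |σ| = σ` and
for `|σ| ≤ i < |τ|`: `τ i < H i` and if `i.unpair.1 < k` then `i < |ρ|`, `⟨κ, τ i⟩ < |ρ|` and `(ρ ⟨κ, τ i⟩, ρ i) ∈ al`.  `Kill a ρ := ∃ τ, CL ρ τ ∧ D τ a` is c.e.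
(`S1.ex`, `S1.prim`, `PRalllt`; `H` is primitive recursive, `k`, `al`, `σ` are constants), and `Cv1 p v τ` iff `CL (res v m) τ` for some `m`. -/
def CKI_stmt : Prop := ∀ (p : CD) (D : List ℕ → ℕ × ℕ → Prop), PrimrecRel D →
  ∃ Kill : ℕ × ℕ → List ℕ → Prop, CE (fun t : (ℕ × ℕ) × List ℕ => Kill t.1 t.2) ∧
    ∀ a v, (∀ m, ¬ Kill a (res v m)) ↔ ∀ τ, Cv1 p v τ → ¬ D τ a

/-- **CEE** (short).  Emptiness is c.e.: `KD p D a β` is the class `cls n (Bad ∨ Kill a ∨ (some b ∈ β with b.1 < |ρ|, ρ b.1 ≠ b.2))` by CKI; apply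
`S1.empty` (`Diag/Compact.lean`).  Uses: CKI. -/
def CEE_stmt : Prop := ∀ (p : CD) (D : List ℕ → ℕ × ℕ → Prop), PrimrecRel D →
  CE (fun t : (ℕ × ℕ) × List (ℕ × ℕ) => ∀ v, ¬ KD p D t.1 t.2 v)

/-- **CPR** (short to medium).  The refinement.  Suppose that for all `z` one of the two classes is empty.  By CEE there is a computable function
`j : ℕ → {0, 1}` which tells which (`Nat.rfind` on the primitive recursive normal forms, or `select` in `RV/Basic.lean`).  Put
`g z = Z κ c` if `j z = 0` and `g z = Z κ d` if `j z = 1`.  If `j z = 0` take `u` with `KD p D a β u`; `u ⟨κ, z⟩ ≠ c = u ⟨κ, Z κ c⟩` (`rep`), so by `inv` `g z` is not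
equivalent to `z`; the same for `j z = 1`.  So `g` contradicts `(p.ce κ).hard`.  Uses: CEE. -/
def CPR_stmt : Prop := ∀ (p : CD) (D : List ℕ → ℕ × ℕ → Prop), PrimrecRel D → ∀ (a a' : ℕ × ℕ) (β β' : List (ℕ × ℕ)),
  (∃ v, KD p D a β v) → (∃ v, KD p D a' β' v) → ∀ κ < p.k, ∀ c < p.n, ∀ d < p.n,
    ∃ z, (∃ v, KD p D a ((Nat.pair κ z, c) :: β) v) ∧ ∃ v, KD p D a' ((Nat.pair κ z, d) :: β') v

/-- **CTU** (short to medium).  Iterate CPR over the finitely many triples `(κ, c, d)`, `κ < k`, `c, d < n` (induction over a list of triples; the lists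
`β`, `β'` only grow).  Uses: CPR. -/
def CTU_stmt : Prop := ∀ (p : CD) (D : List ℕ → ℕ × ℕ → Prop), PrimrecRel D → ∀ (a a' : ℕ × ℕ),
  (∃ v, KD p D a [] v) → (∃ v, KD p D a' [] v) → ∃ (z : ℕ → ℕ → ℕ → ℕ) (β β' : List (ℕ × ℕ)),
    (∃ v, KD p D a β v) ∧ (∃ v, KD p D a' β' v) ∧ ∀ κ < p.k, ∀ c < p.n, ∀ d < p.n,
      (Nat.pair κ (z κ c d), c) ∈ β ∧ (Nat.pair κ (z κ c d), d) ∈ β'

/-- **CNW** (medium).  The new condition.  Let `n = p.n` (`n > 0`).  Colours `w < n * n` stand for the pairs `(w / n, w % n)`; `q.n = n * n`, `q.al` = the list of the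
pairs `(w, w')` of numbers `< n * n` with `(w / n, w' / n) ∈ al` and `(w % n, w' % n) ∈ al`; `q.k = p.k`, `q.ce = p.ce`, `q.H = p.H`,
`q.Z κ w = z κ (w / n) (w % n)`.  Take `v₀` with `KD p D a β v₀`, `v₁` with `KD p D a' β' v₁`, by CS2 `g` with `Sv p v₀ g`, `Sv p v₁ g`, and `K ≥ |σ|` with `H K` greater
than all `q.Z κ w`; `q.σ = res g K`.  `q.Bad ρ` is the disjunction of: `p.Bad (ρ.map (· / n))`, `p.Bad (ρ.map (· % n))`, `Kill a (ρ.map (· / n))`,
`Kill a' (ρ.map (· % n))` (CKI); `b.1 < |ρ|` and `ρ b.1 / n ≠ b.2` for some `b ∈ β`; `b.1 < |ρ|` and `ρ b.1 % n ≠ b.2` for some `b ∈ β'`; and the incompatibility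
of `res g K` with `ρ.map (· / n)` or with `ρ.map (· % n)` (as in CEX).  So `w ∈ cls q.n q.Bad` iff `w i < n * n`, `KD p D a β (w / n)`, `KD p D a' β' (w % n)` and
`res g K` is compatible with `w / n` and `w % n`.  Nonempty: `w = v₀ * n + v₁`.  `rep`: by the choice of `z`, `β`, `β'`.  `zero`: `0 / n = 0 % n = 0` (a number `w`
with `w / n = 0` and `w % n = 0` is `0`).  If `g'` satisfies `q` with `w` it satisfies `p` with `w / n` and with `w % n`; every `res g' k'` with `k' ≥ |σ|`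
is compatible with both, so `¬ D (res g' k') a`, `¬ D (res g' k') a'` (for `k' < |σ|` by monotonicity).  Uses: CS2, CKI. -/
def CNW_stmt : Prop := ∀ (p : CD) (D : List ℕ → ℕ × ℕ → Prop), PrimrecRel D →
  (∀ (X : ℕ → ℕ) (a : ℕ × ℕ) (k k' : ℕ), k ≤ k' → D (res X k) a → D (res X k') a) →
  ∀ (a a' : ℕ × ℕ) (z : ℕ → ℕ → ℕ → ℕ) (β β' : List (ℕ × ℕ)), (∃ v, KD p D a β v) → (∃ v, KD p D a' β' v) →
  (∀ κ < p.k, ∀ c < p.n, ∀ d < p.n, (Nat.pair κ (z κ c d), c) ∈ β ∧ (Nat.pair κ (z κ c d), d) ∈ β') →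
  ∃ q, Lc q p ∧ ∀ g, Sc q g → ∀ m, ¬ D (res g m) a ∧ ¬ D (res g m) a'

/-- **CPA** (short to medium).  Replace `D` by `mon D` (`prim_mon`, `mon_mono`, `ex_mon` in `Diag/Limit.lean`).  Case 1: for all `e` there is `i < 2` such that no
`v` has `KD p D (e, i) [] v`.  This is c.e. (CEE), so by `Pr.zero` (for the set `{fun _ => 2}`, `Diag/Base.lean`) there are `e`, `i` with `Hlt e i` and no such `v`.
Take any `v` in the class of `p`; there is `τ` with `Cv1 p v τ` and `D τ (e, i)`.  Take `g` from CSA and `q` from CEX with `K = |τ|` (`|σ| ≤ |τ|` as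
`τ.take |σ| = σ`): if `Sc q g'` then `res g' |τ| = τ`, so the conclusion of `ReqY` holds with `e`, `i`.  Case 2: `e` such that both `KD p D (e, 0) []` and
`KD p D (e, 1) []` are nonempty: CTU, CNW; the hypothesis of `ReqY` fails at `e`.  (`Pr.zero` needs `i < 2`; intersect the relation with `i < 2`.)
Uses: CSA, CEX, CEE, CTU, CNW. -/
def CPA_stmt : Prop := ∀ (p : CD) (D : List ℕ → ℕ × ℕ → Prop), PrimrecRel D →
  ∃ q, Lc q p ∧ ∀ g, Sc q g → ReqY D (fun _ => 2) g

/-- **CST** (short).  The trivial condition: `k = 0`, `σ = []`, `n = 3`, `al` = the pairs of different numbers `< 3`, `Bad ρ` = some entry of `ρ` is not `0`,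
`H i = i + 1`.  (`ce` needs an `HF`; if there is none, take the hypothesis `Nonempty HF`.) -/
def CST_stmt : Prop := Nonempty HF → ∃ p : CD, p.σ = [] ∧ p.k = 0

/-- **CGN** (medium; as `add_diag` in `Diag/Limit.lean` or `Pool/Agent/helper63/Dg4/GEN.lean`).  `s (m + 1)` is obtained from `s m` by lengthening (CSA, CEX with `K = m + 1` or
more) and then by the hypothesis for `i = m.unpair.1`; `X` is the union of the stems.  `Sc (s m) X`: for every `K` some `v` in the class of `s m` is compatible with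
`res X K` (from a later condition, by `Lc` and CSA); by compactness (`compactness`, `isClopen_dep` in `Diag/Compact.lean`) one `v` is compatible with
all of them.  `Lc` is transitive.  Uses: CSA, CEX. -/
def CGN_stmt : Prop := ∀ (DD : ℕ → CD → Prop), (∀ p i, ∃ q, Lc q p ∧ DD i q) → ∀ p0 : CD,
  ∃ (s : ℕ → CD) (X : ℕ → ℕ), s 0 = p0 ∧ (∀ m k, m ≤ k → Lc (s k) (s m)) ∧ (∀ i, ∃ m, DD i (s m)) ∧ ∀ m, Sc (s m) X

/-- **CDX** (short).  Let `κ < p.k` and let `X` satisfy `p` with `v`.  For the `x` with `⟨κ, x⟩ ≥ |σ|`: `(v ⟨κ, X ⟨κ, x⟩⟩, v ⟨κ, x⟩) ∈ al`, so by `irr`, `inv` the number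
`X ⟨κ, x⟩` is not equivalent to `x`.  For the other, finitely many, `x` take any number not equivalent to `x` (`inf`).  `g` is computable from `X` (`RI.comp`,
`RI.oracle`, `RI.prim` with a finite table, see `crd_computableFrom` in `Results/MP_a87378_lc/DiagNotPA.lean`). -/
def CDX_stmt : Prop := ∀ (p : CD) (X : ℕ → ℕ), Sc p X → ∀ κ < p.k,
  ∃ g : ℕ → ℕ, ComputableFrom g X ∧ (∀ x, ¬ (p.ce κ).E (g x) x) ∧ ∃ m, ∀ x ≥ m, g x = X (Nat.pair κ x)

/-- **CFN** (medium).  If there is no `HF` every ceer `≠ Id₁` has a computable diagonal function of finite range (CIN), and any `X` that is not of PA degree, for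
example `X = 0` (`Pr.zero`), works.  Otherwise start with CST and take a generic sequence (CGN) for the tasks: for every `C : HF` a condition with an active column for
`C` (CCO; `HF` is countable by `countable_ceer` in `Diag/Upper.lean`, proof irrelevance), for every primitive recursive order `h` a condition with `q.H i ≤ h i` for
`i ≥ |q.σ|` (COR; countably many, as there are countably many codes), for every primitive recursive `D` CPA (`countable_primrecRel`).  `X` is not of PA degree: a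
`{0,1}`-valued DNR function computable from `X` would have a graph given by some `D` (`s1_graph`), contradicting `ReqY` (see the proof of DiagNotPA).  Let
`E ≠ Id₁` be a ceer.  If it has a computable diagonal function of finite range: this is `Slow` (orders are unbounded) and computable from `X` (`RI.computable`).
Otherwise it is an `HF` (CIN) with an active column `κ`; take `g` from CDX.  `Slow g`: for a computable order `h` take a primitive recursive order `h' ≤ h`
(PRO); `h'' i = h' (Nat.sqrt i)` is one as well, `X i < h'' i` for all large `i` (`Sc (s m) X` gives `X i < (s m).H i` for `i ≥ |σ|`), and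
`Nat.sqrt (Nat.pair κ x) = x` for `x > κ`.  Uses: PRO, CIN, COR, CCO, CPA, CST, CGN, CDX. -/
def CFN_stmt : Prop := ∃ X : ℕ → ℕ, ¬ (∃ f : ℕ → ℕ, ComputableFrom f X ∧ DN f ∧ ∀ e, f e < 2) ∧
  ∀ E : ℕ → ℕ → Prop, IsCeer E → (∃ a b, ¬ E a b) → ∃ g : ℕ → ℕ, ComputableFrom g X ∧ (∀ x, ¬ E (g x) x) ∧ Slow g

/-! ## Part R: a right-c.e. order -/

/-- the halting problem at stage `s` -/
def Ks (s m : ℕ) : Prop := (Nat.Partrec.Code.evaln s (Denumerable.ofNat Nat.Partrec.Code m) m).isSome = true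

open Classical in
/-- two plus the largest `k ≤ n` such that the halting problem below `k` is already enumerated at stage `n` -/
noncomputable def hK (n : ℕ) : ℕ := 2 + Nat.findGreatest (fun k => ∀ m < k, K m → Ks n m) n

/-- `h` is the limit of a computable nonincreasing sequence of functions -/
def RightCE (h : ℕ → ℕ) : Prop := ∃ a : ℕ → ℕ → ℕ, Computable₂ a ∧ (∀ n s, a n (s + 1) ≤ a n s) ∧
  ∀ n, ∃ s, ∀ t ≥ s, a n t = h n

/-- **RHO** (short to medium).  `hK` is an order and right-c.e.: the approximation at stage `s` is `2 + Nat.findGreatest (fun k => ∀ m < k, Ks s m → Ks n m) n`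
(`K m ↔ ∃ s, Ks s m`, `kin_iff` in `RV/Uniform.lean`; `Ks` is monotone in `s`).  The same for `fun n => hK (Nat.sqrt n)`. -/
def RHO_stmt : Prop := Ord hK ∧ RightCE hK ∧ Ord (fun n => hK (Nat.sqrt n)) ∧ RightCE (fun n => hK (Nat.sqrt n))

/-- **RPA** (short to medium).  If the values of `f` are bounded by `k`: `f` avoids the diagonal function, so `Av X k` (as `av_two` in `RV/E0.lean`, with `DN.avoid`) and
`Av.two`, `dn_of_av`.  Otherwise `X` computes `K`: for `m` search `n` with `f n ≥ m + 3`; then `hK n ≥ m + 4`, so the `k` of the definition is `> m` and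
`K m ↔ Ks n m`.  So the complement of `K` is c.e. in `X`, `X` computes the function `fun n => if φ_n(n)` converges to `0` then `1` else `0`, which is DNR. -/
def RPA_stmt : Prop := ∀ X f : ℕ → ℕ, ComputableFrom f X → DN f → (∀ n, f n < hK n) →
  ∃ d : ℕ → ℕ, ComputableFrom d X ∧ DN d ∧ ∀ e, d e < 2

/-- **RFN** (short to medium).  `h n = hK (Nat.sqrt n)`.  (a) If `X` is of PA degree it computes for every ceer `≠ Id₁` a diagonal function of finite range
(`RestrictedVersions`, see `Pool/Agent/helper63/RV`), which is eventually below `h`.  (b) Let `X` compute for every ceer a diagonal function eventually below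
`h`; take `g` for `E0` (`RV/E0.lean`: `E0_equiv`, `E0_re`, `E0_light`) and `e` from `idx part_diag`: `f n = g (Nat.pair e n)` is DNR (as in `dn_of_E0_bdd`),
`Nat.sqrt (Nat.pair e n) = n` for `n > e`, so `f n < hK n` for all large `n`; the finitely many other values can be replaced by `0` or `1` (`hK n ≥ 2`, one
of the two is not the value of the diagonal function).  RPA.  (c) A DNR function `f < h` is below `hK` (`hK` is nondecreasing, `Nat.sqrt n ≤ n`).  Uses: RHO, RPA. -/
def RFN_stmt : Prop := ∃ h : ℕ → ℕ, Ord h ∧ RightCE h ∧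
  (∀ X : ℕ → ℕ, (∀ E : ℕ → ℕ → Prop, IsCeer E → (∃ a b, ¬ E a b) → ∃ g : ℕ → ℕ, ComputableFrom g X ∧
      (∀ x, ¬ E (g x) x) ∧ ∃ m, ∀ x ≥ m, g x < h x) ↔
    ∃ d : ℕ → ℕ, ComputableFrom d X ∧ DN d ∧ ∀ e, d e < 2) ∧
  ∀ f : ℕ → ℕ, DN f → (∀ n, f n < h n) → ∃ d : ℕ → ℕ, ComputableFrom d f ∧ DN d ∧ ∀ e, d e < 2

end Pool.Agent.DW
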