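import Pool.Agent.helper63.Dg4.Eng1
import Pool.Agent.helper63.RV.Uniform

/-!
# Project DW (MP_a87378_lc): growth rates of diagonal functions.  Part E: the engine

THEOREM.  (1) Some `X`, not of PA degree, computes for every ceer `E ≠ Id₁` a diagonal function which is eventually below every
computable order.  (2) For some ceer `E ≠ Id₁` some DNR function which is eventually below every computable order computes no
diagonal function for `E`.  (3) Some right-c.e. order `h` is such that the `X` which compute for every ceer `E ≠ Id₁` a diagonal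
function eventually below `h` are exactly those of PA degree, and every DNR function below `h` is of PA degree.

Paper proof: `/team-store/C6_MP_a87378_lc_helper18.md`.

RULES.  Row `dw:XX` is `theorem XX (hYY : YY_stmt) … : XX_stmt` in the file `Pool/Agent/<seat>/DW/XX.lean`, `namespace Pool.Agent.DW`,
`import Pool.Agent.helper18.DW.SpecE` (SpecB, SpecC, SpecR for the other parts), `open Encodable Pool.Agent.helper63.Diag
Pool.Agent.helper63.Dg4 Pool.Agent.helper63.RV`; auxiliary lemmas are prefixed `XX_`; other rows only as hypotheses (the list after Uses).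
No `convert`, `congr!`, `native_decide`, no straight double quotes.  For a proof that something is primitive recursive
or c.e. see `Pool/Agent/helper63/Diag/S1.lean` (`S1.and`, `S1.ex`, `S1.ball`, `PRexlt`, `PRex`, …) and
`Pool/Agent/helper63/Dg4/Eng1.lean`, `Eng2.lean`, where the same is done for a similar construction.

PART E.  The state of the construction is a table `R` of roots (`wr R z` is the least number of the current class of `z`) and the
list of the requirements that have acted.  `mk R i` is the `i`-th root (the marker `i`); the colour of `z` at level `j` is the rank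
of its root, but at most `j + 2`.  The requirement with code `n` has an index `qe n` of a c.e. set, an index `qq n` of a partial
recursive function `q`, a level `lv n = j` and a task `tk n < q j`; its witness is the marker `n + 2`.  It acts, once, if some list `Z`
of one colour is in its c.e. set: the classes of the witness and of the members of `Z` are merged.
-/

set_option autoImplicit false

namespace Pool.Agent.DW

open Encodable Pool.Agent.helper63.Diag Pool.Agent.helper63.Dg4 Pool.Agent.helper63.RV

/-- the root of `z` in the table `R` -/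
abbrev wr (R : List ℕ) (z : ℕ) : ℕ := Pool.Agent.helper63.Dg4.rt R z

/-- the roots below `m` -/
def rl (R : List ℕ) (m : ℕ) : List ℕ := (List.range m).filter fun z => decide (wr R z = z)

/-- the number of the roots below `m` -/
def rk (R : List ℕ) (m : ℕ) : ℕ := (rl R m).length

/-- the marker `i`: the `i`-th root (counted from `0`) -/
def mk (R : List ℕ) (i : ℕ) : ℕ := (rl R (R.length + i + 1)).getD i 0

/-- the colour of `z` at level `j` -/
def wc (R : List ℕ) (j z : ℕ) : ℕ := min (rk R (wr R z)) (j + 2)

/-- merge the classes of the members of `M` -/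
def mg (R M : List ℕ) : List ℕ :=
  (List.range (R.length + M.sum + 1)).map fun z =>
    if wr R z ∈ M.map (wr R) then (M.map (wr R)).foldr min (wr R z) else wr R z

/-- `R` is the table of the least elements of the classes -/
def WF (R : List ℕ) : Prop := ∀ z, wr R (wr R z) = wr R z ∧ wr R z ≤ z

/-- index of the c.e. set -/
def qe (n : ℕ) : ℕ := n.unpair.1.unpair.1
/-- index of the bound for the tasks -/
def qq (n : ℕ) : ℕ := n.unpair.1.unpair.2
/-- level -/
def lv (n : ℕ) : ℕ := n.unpair.2.unpair.1
/-- task -/
def tk (n : ℕ) : ℕ := n.unpair.2.unpair.2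

/-- the requirement `n` is active at stage `s` -/
def Act (s n : ℕ) : Prop := n.unpair.1 ≤ lv n ∧
  tk n < (Nat.Partrec.Code.evaln s (Denumerable.ofNat Nat.Partrec.Code (qq n)) (lv n)).getD 0

instance (s n : ℕ) : Decidable (Act s n) := by unfold Act; infer_instance

/-- all members of `Z` have the same colour at level `j` -/
def Mono1 (R : List ℕ) (j : ℕ) (Z : List ℕ) : Prop := ∀ u ∈ Z, ∀ v ∈ Z, wc R j u = wc R j v

instance (R : List ℕ) (j : ℕ) (Z : List ℕ) : Decidable (Mono1 R j Z) := by unfold Mono1; infer_instance

/-- the requirement `n` can act at stage `s` with the list coded by `z` -/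
def Rdy (s : ℕ) (S : List ℕ × List ℕ) (n z : ℕ) : Prop :=
  n ∉ S.2 ∧ Act s n ∧
    We s (qe n) (encode (lv n, tk n, mk S.1 (n + 2), Denumerable.ofNat (List ℕ) z)) ∧
    Mono1 S.1 (lv n) (Denumerable.ofNat (List ℕ) z)

instance (s : ℕ) (S : List ℕ × List ℕ) (n z : ℕ) : Decidable (Rdy s S n z) := by
  unfold Rdy; infer_instance

/-- the requirement `n` can act at stage `s` -/
def Att1 (s : ℕ) (S : List ℕ × List ℕ) (n : ℕ) : Prop := ∃ z < s + 1, Rdy s S n z

instance (s : ℕ) (S : List ℕ × List ℕ) (n : ℕ) : Decidable (Att1 s S n) := by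
  unfold Att1; infer_instance

/-- the least requirement that can act, or `s + 1` -/
def nst (s : ℕ) (S : List ℕ × List ℕ) : ℕ :=
  Nat.findGreatest (fun n => ∀ n' < n, ¬ Att1 s S n') (s + 1)

/-- the list it uses -/
def zst (s : ℕ) (S : List ℕ × List ℕ) (n : ℕ) : ℕ := Nat.findGreatest (fun z => Rdy s S n z) s

/-- one stage -/
def stp (s : ℕ) (S : List ℕ × List ℕ) : List ℕ × List ℕ :=
  if nst s S < s + 1 then
    (mg S.1 (mk S.1 (nst s S + 2) :: Denumerable.ofNat (List ℕ) (zst s S (nst s S))), nst s S :: S.2)
  else S

/-- the construction -/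
def St : ℕ → List ℕ × List ℕ
  | 0 => ([], [])
  | s + 1 => stp s (St s)

/-- the constructed ceer -/
def wE (x y : ℕ) : Prop := ∃ s, wr (St s).1 x = wr (St s).1 y

/-- **PST** (medium; as `prim_Sg` in `Pool/Agent/helper63/Dg4/Eng2.lean`, which is the model).  `St` is primitive recursive.  The parts: `wr`
(`prim_rt` in Eng1), `rl`, `rk`, `mk` (`List.range` filtered by a primitive recursive predicate with a parameter: write the filter
as a `flatMap` of `if … then [z] else []`, or use `Primrec.listFilterMap`), `wc`, `mg` (`Primrec.list_map`, `Primrec.list_foldr`, membership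
in a list by `PRex`, `List.sum` is `foldr`), `Act` (`Nat.Partrec.Code.primrec_evaln`, `Primrec.option_getD`), `Rdy` (`prim_We`,
`Primrec.encode`, `Primrec.ofNat`), `Att1` (`PRexlt`), `nst`, `zst` (`Primrec.nat_findGreatest`, as `prim_ist`), `stp` (`Primrec.ite`). -/
def PST_stmt : Prop := Primrec St

/-- **MGB** (short to medium).  Properties of the merging.  Let `L = M.map (wr R)`.  Beyond the length of the table `mg R M` nothing is
changed: for `z ≥ R.length + M.sum + 1` `wr R z = z`, and `z ∉ L` because `wr R m ≤ m ≤ M.sum` for `m ∈ M`.  So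
`wr (mg R M) z = if wr R z ∈ L then (minimum of L) else wr R z` for all `z` (the `foldr` gives the least element of `L` if `wr R z ∈ L`).
The least element of `L` is a root of `R`. -/
def MGB_stmt : Prop := ∀ R : List ℕ, WF R → ∀ M : List ℕ, WF (mg R M) ∧ (∀ z, wr (mg R M) z ≤ wr R z) ∧
  (∀ z, wr R z = z → (wr (mg R M) z = z ∨ (z ∈ M.map (wr R) ∧ ∃ y ∈ M.map (wr R), y < z))) ∧
  ∀ x y, wr (mg R M) x = wr (mg R M) y ↔
    (wr R x = wr R y ∨ (wr R x ∈ M.map (wr R) ∧ wr R y ∈ M.map (wr R)))

/-- **MRK** (short to medium).  Markers and ranks: all numbers `≥ R.length` are roots, so `rl R (R.length + i + 1)` has more than `i`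
entries; the list `rl R m` is strictly increasing, `rl R m` is the initial segment of `rl R m'` for `m ≤ m'` consisting of the
entries below `m`; `rk R (m + 1) = rk R m + 1` if `m` is a root and `rk R (m + 1) = rk R m` otherwise. -/
def MRK_stmt : Prop := ∀ R : List ℕ, (∀ i, wr R (mk R i) = mk R i ∧ rk R (mk R i) = i ∧ i ≤ mk R i) ∧
  (∀ z, wr R z = z → mk R (rk R z) = z) ∧ (∀ m m', m ≤ m' → rk R m ≤ rk R m') ∧
  (∀ z, wr R z = z → rk R (z + 1) = rk R z + 1)

/-- **MST** (short to medium).  An action of `n` at level `j` does not change the markers `k < min (n + 2) (j + 2)`.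
Let `x = mk R (n + 2)`, `M = x :: Z`, `μ = min (n + 2) (j + 2)`.  Claim: a root `r` of `R` with `rk R r < μ` is a root of `mg R M`.  Otherwise by
MGB `r = wr R m` for some `m ∈ M` and some `y = wr R m'`, `m' ∈ M`, is smaller.  By MRK `x` is a root of rank `n + 2 ≥ μ`, so `m ∈ Z` and the
colour of `m` is `rk R r < j + 2`; all members of `Z` have this colour, so they have the same rank, the same root `r`.  So `m' = x`,
`y = x < r` and `rk R x ≤ rk R r < μ`, a contradiction.  So below such an `r` the roots of `R` and `mg R M` are the same (by MGB every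
root of `mg R M` is a root of `R`, `wr (mg R M) z ≤ wr R z ≤ z`), hence `rk (mg R M) r = rk R r = k` for `r = mk R k`, and
`mk (mg R M) k = r`.  Uses: MGB, MRK. -/
def MST_stmt : Prop := ∀ (R : List ℕ) (n j : ℕ) (Z : List ℕ), WF R → Mono1 R j Z →
  ∀ k < min (n + 2) (j + 2), mk (mg R (mk R (n + 2) :: Z)) k = mk R k

/-- **NST** (short).  What a stage does (`Nat.findGreatest`, see `ist_le`, `ist_spec`, `ist_att` in Eng2).  In the first case
`nst s S < s + 1`; in the second no `n < s + 1` can act. -/
def NST_stmt : Prop := ∀ (s : ℕ) (S : List ℕ × List ℕ),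
  (∃ n z, n < s + 1 ∧ Rdy s S n z ∧ (∀ n' < n, ¬ Att1 s S n') ∧
    stp s S = (mg S.1 (mk S.1 (n + 2) :: Denumerable.ofNat (List ℕ) z), n :: S.2)) ∨
  (stp s S = S ∧ ∀ n < s + 1, ¬ Att1 s S n)

/-- **FAC** (short).  Only finitely many requirements of level `≤ k` are ever active: `n.unpair.1 ≤ lv n ≤ k`, and for given indices and
level the value of `evaln` does not depend on the stage (`Nat.Partrec.Code.evaln_sound`, `Part.mem_unique`), so `tk n` is bounded. -/
def FAC_stmt : Prop := ∀ k : ℕ, ∃ B : ℕ, ∀ s n, Act s n → lv n ≤ k → n < B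

/-- **LIM** (medium).  `WF` holds at all stages (`WF []`, MGB, NST).  Every requirement acts at most once (`n ∉ S.2` when it acts, then
`n ∈ S.2` for ever), and by NST, MST a stage in which `n` acts does not change the markers `< min (n + 2) (lv n + 2)`.  For `k` the
requirements `n` which may change the marker `k` satisfy `n + 2 ≤ k` or `lv n + 2 ≤ k`, so there are finitely many (FAC); after they have acted
for the last time the marker `k` is constant.  `mk [] 1 = 1` and the marker `1` is never changed.  Roots and ranks of the roots decrease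
with the stage (by MGB the roots of a later table are roots of the earlier one), so the colours decrease.  Uses: MGB, MRK, MST, NST, FAC. -/
def LIM_stmt : Prop := (∀ s, WF (St s).1) ∧ (∀ s t z, s ≤ t → wr (St t).1 z ≤ wr (St s).1 z) ∧
  (∀ s t x y, s ≤ t → wr (St s).1 x = wr (St s).1 y → wr (St t).1 x = wr (St t).1 y) ∧
  (∀ s t j z, s ≤ t → wc (St t).1 j z ≤ wc (St s).1 j z) ∧ (∀ s, mk (St s).1 1 = 1) ∧
  (∀ k, ∃ s0, ∀ s ≥ s0, mk (St s).1 k = mk (St s0).1 k) ∧
  (∀ n s t, s ≤ t → n ∈ (St s).2 → n ∈ (St t).2) ∧ ∀ s, (St s).2.Nodup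

/-- **EQV** (short).  From PST, LIM (`S1.ex`, `S1.prim`, `prim_rt`; `re_of_s1` in `Pool/Agent/helper63/RV/Basic.lean`).  `0` and `1` are not
equivalent: `wr R 0 = 0`, and `1 = mk R 1` is a root (MRK) at all stages. -/
def EQV_stmt : Prop := Equivalence wE ∧ REPred (fun p : ℕ × ℕ => wE p.1 p.2) ∧ ¬ wE 0 1

/-- The property of the constructed ceer. -/
def EProp (E : ℕ → ℕ → Prop) : Prop :=
  ∀ (W : ℕ × ℕ × ℕ × List ℕ → Prop) (q : ℕ → ℕ), CE W → Computable q →
    ∃ j0, ∀ j ≥ j0, ∀ t < q j, ∃ x,
      (∃ Z, W (j, t, x, Z) ∧ ∀ z ∈ Z, E z x) ∨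
      (∃ c, Inv E (j + 3) c ∧ ∀ Z : List ℕ, (∀ u ∈ Z, ∀ v ∈ Z, c u = c v) → ¬ W (j, t, x, Z))

/-- **ENF** (medium).  Take an index `e1` of `W` (`ce_index` in Eng1), an index `e2` of `q` (`Nat.Partrec.Code.exists_code`),
`j0 = Nat.pair e1 e2`; for `j ≥ j0`, `t < q j` let `n = Nat.pair j0 (Nat.pair j t)`; it is active at all large stages.  Case 1: `n` is in some
`(St s).2`.  Take the stage where it acts, `x = mk R (n + 2)`, `Z` the list used: `We` gives `W (j, t, x, Z)`, and `Z`, `x` are merged (MGB),
so `wE z x`.  Case 2: `n` never acts.  Let `x` be the limit of the marker `n + 2` and `c z` the limit of the (decreasing) colours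
`wc (St s).1 j z`.  `c z < j + 3`; if `wE z z'` the roots are equal from some stage on, so `c z = c z'`.  Let `c` be constant on `Z` and suppose
`W (j, t, x, Z)`.  At all large stages `s`: the marker is `x`, the colours of `Z` are the final ones, `We` holds, `encode Z ≤ s`, so
`Att1 s (St s) n`, so by NST some `n' ≤ n` acts at stage `s`; but each acts at most once (`Nodup`), a contradiction.
Uses: MGB, NST, LIM. -/
def ENF_stmt : Prop := EProp wE

end Pool.Agent.DW
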